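import Pool.Agent.Lib.MP_3248c9_gt.Pn.SDefs

/-!
# The explicit solution of `A_c' = A_c A_y`

* `exists_prim`: `y` is continuous (its coordinates `<y, c>` are differentiable by `hT`); `x t = integral of y` (twin:
  `Hy/Angle.lean`, `angle_primitive`, now with values in `Ek k`).
* `align`: put `R_c = A_c (1 - A0_x) - A0_c`, `A0 = A 0`, linear in `c`. `R_c' = A_c A_y (1 - A0_x) - A_c A0_y = A_c R_y`, `R_c 0 = 0`. The family
  `(R_{e_j})_j` (`e_j` the standard basis, `R_y = sum_j y_j R_{e_j}`) satisfies a linear system with continuous coefficients, so it vanishes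
  (`ODE_solution_unique_of_mem_Ioo` on `Fin k → Ek k →L[ℝ] Ek k`, on intervals `(-δ, δ)`, `δ < ε`, where the coefficients are bounded; twin:
  `align_linear` in `Hy/Align.lean`).
-/

set_option autoImplicit false

namespace Pool.Agent.Lib.MP_3248c9_gt.Pn

open Set

variable {k : ℕ} {ε : ℝ} {A : ℝ → Ek k →L[ℝ] (Ek k →L[ℝ] Ek k)} {y z : ℝ → Ek k}
  {q q1 : ℝ → ℝ}

theorem PStar.cont_y (h : PStar ε A y z q q1) : ContinuousOn y (Ioo (-ε) ε) := by
  have h1 : ∀ t, y t = ∑ i, (inner ℝ (y t) (EuclideanSpace.basisFun (Fin k) ℝ i) : ℝ) •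
      EuclideanSpace.basisFun (Fin k) ℝ i := by
    intro t
    conv_lhs => rw [← (EuclideanSpace.basisFun (Fin k) ℝ).sum_repr' (y t)]
    exact Finset.sum_congr rfl fun i _ => by rw [real_inner_comm]
  have h2 : ContinuousOn (fun t => ∑ i,
      (inner ℝ (y t) (EuclideanSpace.basisFun (Fin k) ℝ i) : ℝ) •
      EuclideanSpace.basisFun (Fin k) ℝ i) (Ioo (-ε) ε) := by
    refine continuousOn_finsetSum _ fun i _ => ?_
    have h3 : ContinuousOn (fun t => (inner ℝ (y t) (EuclideanSpace.basisFun (Fin k) ℝ i) : ℝ))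
        (Ioo (-ε) ε) := fun t ht =>
      (h.hT t ht (EuclideanSpace.basisFun (Fin k) ℝ i)).continuousAt.continuousWithinAt
    exact h3.smul continuousOn_const
  exact h2.congr fun t _ => h1 t

theorem PStar.exists_prim (h : PStar ε A y z q q1) (hε : 0 < ε) :
    ∃ x : ℝ → Ek k, x 0 = 0 ∧ ∀ t ∈ Ioo (-ε) ε, HasDerivAt x (y t) t := by
  have hf := h.cont_y
  refine ⟨fun t => ∫ x in (0 : ℝ)..t, y x, intervalIntegral.integral_same, ?_⟩
  intro t ht
  have h0 : (0 : ℝ) ∈ Ioo (-ε) ε := ⟨by linarith, hε⟩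
  have hsub : uIcc (0 : ℝ) t ⊆ Ioo (-ε) ε := by
    intro x hx
    exact (Set.ordConnected_Ioo).uIcc_subset h0 ht hx
  have hint : IntervalIntegrable y MeasureTheory.volume 0 t :=
    (hf.mono hsub).intervalIntegrable
  refine intervalIntegral.integral_hasDerivAt_right hint ?_ ?_
  · exact ContinuousOn.stronglyMeasurableAtFilter isOpen_Ioo hf t ht
  · exact hf.continuousAt (isOpen_Ioo.mem_nhds ht)

/-- The statement in a normed algebra. -/
private theorem al_gen {E 𝔸 : Type} [NormedAddCommGroup E] [InnerProductSpace ℝ E]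
    [NormedRing 𝔸] [NormedAlgebra ℝ 𝔸] {k : ℕ} (b : OrthonormalBasis (Fin k) ℝ E)
    (A : ℝ → E →L[ℝ] 𝔸) (y x : ℝ → E) (ε : ℝ)
    (hA : ∀ t ∈ Ioo (-ε) ε, ∀ c, HasDerivAt (fun s => A s c) (A t c * A t (y t)) t)
    (hT : ∀ t ∈ Ioo (-ε) ε, ‖y t‖ = 1) (x0 : x 0 = 0)
    (hx : ∀ t ∈ Ioo (-ε) ε, HasDerivAt x (y t) t) :
    ∀ t ∈ Ioo (-ε) ε, ∀ c, A t c * (1 - A 0 (x t)) = A 0 c := by
  intro t ht
  obtain ⟨δ, h1, h2⟩ : ∃ δ, |t| < δ ∧ δ < ε := exists_between (abs_lt.mpr ⟨ht.1, ht.2⟩)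
  have hδ : 0 < δ := lt_of_le_of_lt (abs_nonneg t) h1
  have hsub : Icc (-δ) δ ⊆ Ioo (-ε) ε := by
    intro r hr
    exact ⟨by linarith [hr.1], by linarith [hr.2]⟩
  have hsub' : Ioo (-δ) δ ⊆ Ioo (-ε) ε := fun r hr => hsub ⟨hr.1.le, hr.2.le⟩
  have hAc : ContinuousOn (fun s => fun j : Fin k => A s (b j)) (Ioo (-ε) ε) :=
    continuousOn_pi.2 fun j s hs => (hA s hs (b j)).continuousAt.continuousWithinAt
  obtain ⟨C1, hC1⟩ := isCompact_Icc.exists_bound_of_continuousOn (hAc.mono hsub)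
  have h0 : (0 : ℝ) ∈ Icc (-δ) δ := ⟨by linarith, by linarith⟩
  have hC10 : 0 ≤ C1 := le_trans (norm_nonneg _) (hC1 0 h0)
  have hlin : ∀ s c, ∑ i, (inner ℝ (b i) c : ℝ) • (A s (b i) * (1 - A 0 (x s)) - A 0 (b i)) =
      A s c * (1 - A 0 (x s)) - A 0 c := by
    intro s c
    simp only [smul_sub, ← smul_mul_assoc, ← map_smul, Finset.sum_sub_distrib, ← Finset.sum_mul,
      ← map_sum, b.sum_repr']
  have hR : ∀ s ∈ Ioo (-ε) ε, ∀ c, HasDerivAt (fun r => A r c * (1 - A 0 (x r)) - A 0 c)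
      (A s c * (A s (y s) * (1 - A 0 (x s)) - A 0 (y s))) s := by
    intro s hs c
    have h3 : HasDerivAt (fun r => 1 - A 0 (x r)) (-(A 0 (y s))) s :=
      ((A 0).hasFDerivAt.comp_hasDerivAt s (hx s hs)).const_sub 1
    have h4 := ((hA s hs c).mul h3).sub_const (A 0 c)
    refine h4.congr_deriv ?_
    noncomm_ring
  set v : ℝ → (Fin k → (𝔸)) → (Fin k → (𝔸)) :=
    fun r g j => A r (b j) * ∑ i, (inner ℝ (b i) (y r) : ℝ) • g i with hv
  have hlip : ∀ r ∈ Ioo (-δ) δ, LipschitzOnWith (Real.toNNReal (C1 * k)) (v r) univ := by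
    intro r hr
    have hr' : r ∈ Icc (-δ) δ := ⟨hr.1.le, hr.2.le⟩
    refine LipschitzOnWith.of_dist_le_mul ?_
    intro p _ g _
    rw [Real.coe_toNNReal _ (by positivity), dist_eq_norm, dist_eq_norm]
    refine (pi_norm_le_iff_of_nonneg (by positivity)).2 fun j => ?_
    have e : (v r p - v r g) j = A r (b j) * ∑ i, (inner ℝ (b i) (y r) : ℝ) • (p i - g i) := by
      simp only [hv, Pi.sub_apply, smul_sub, Finset.sum_sub_distrib, mul_sub]
    rw [e]
    have a1 : ‖A r (b j)‖ ≤ C1 :=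
      le_trans (norm_le_pi_norm (fun j : Fin k => A r (b j)) j) (hC1 r hr')
    have a2 : ‖∑ i, (inner ℝ (b i) (y r) : ℝ) • (p i - g i)‖ ≤ k * ‖p - g‖ := by
      have a3 : ∀ i ∈ (Finset.univ : Finset (Fin k)),
          ‖(inner ℝ (b i) (y r) : ℝ) • (p i - g i)‖ ≤ ‖p - g‖ := by
        intro i _
        rw [norm_smul]
        have a4 : ‖(inner ℝ (b i) (y r) : ℝ)‖ ≤ 1 := by
          have a5 := abs_real_inner_le_norm (b i) (y r)
          rw [b.norm_eq_one, hT r (hsub' hr), mul_one] at a5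
          exact a5
        have a6 : ‖p i - g i‖ ≤ ‖p - g‖ := norm_le_pi_norm (p - g) i
        calc ‖(inner ℝ (b i) (y r) : ℝ)‖ * ‖p i - g i‖ ≤ 1 * ‖p - g‖ :=
              mul_le_mul a4 a6 (norm_nonneg _) zero_le_one
          _ = ‖p - g‖ := one_mul _
      have a7 := norm_sum_le_of_le _ a3
      rw [Finset.sum_const, Finset.card_univ, Fintype.card_fin, nsmul_eq_mul] at a7
      exact a7
    calc ‖A r (b j) * ∑ i, (inner ℝ (b i) (y r) : ℝ) • (p i - g i)‖
        ≤ ‖A r (b j)‖ * ‖∑ i, (inner ℝ (b i) (y r) : ℝ) • (p i - g i)‖ := norm_mul_le _ _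
      _ ≤ C1 * (k * ‖p - g‖) := mul_le_mul a1 a2 (norm_nonneg _) hC10
      _ = C1 * k * ‖p - g‖ := by ring
  have key := ODE_solution_unique_of_mem_Ioo (v := v) (s := fun _ => univ)
    (K := Real.toNNReal (C1 * k))
    (f := fun r j => A r (b j) * (1 - A 0 (x r)) - A 0 (b j)) (g := fun _ => 0)
    (t₀ := 0) (a := -δ) (b := δ) hlip ⟨by linarith, hδ⟩
    (fun r hr => ⟨by
      rw [hasDerivAt_pi]
      intro j
      refine (hR r (hsub' hr) (b j)).congr_deriv ?_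
      simp only [hv, hlin], mem_univ _⟩)
    (fun r _ => ⟨by
      have h3 := hasDerivAt_const r (0 : Fin k → (𝔸))
      refine h3.congr_deriv ?_
      funext j
      simp only [hv, Pi.zero_apply, smul_zero, Finset.sum_const_zero, mul_zero], mem_univ _⟩)
    (by
      funext j
      simp only [x0, map_zero, sub_zero, mul_one, sub_self, Pi.zero_apply])
  have htδ : t ∈ Ioo (-δ) δ := abs_lt.mp h1
  have h3 := key htδ
  intro c
  have h4 : ∑ i, (inner ℝ (b i) c : ℝ) • (A t (b i) * (1 - A 0 (x t)) - A 0 (b i)) = 0 := by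
    refine Finset.sum_eq_zero fun i _ => ?_
    have h5 := congrFun h3 i
    simp only [Pi.zero_apply] at h5
    rw [h5, smul_zero]
  rw [hlin] at h4
  exact sub_eq_zero.1 h4

theorem PStar.align (h : PStar ε A y z q q1) (hε : 0 < ε) {x : ℝ → Ek k} (x0 : x 0 = 0)
    (hx : ∀ t ∈ Ioo (-ε) ε, HasDerivAt x (y t) t) :
    ∀ t ∈ Ioo (-ε) ε, ∀ c, A t c * (1 - A 0 (x t)) = A 0 c := by
  intro t ht c
  exact al_gen (𝔸 := Ek k →L[ℝ] Ek k) (EuclideanSpace.basisFun (Fin k) ℝ) A y x ε h.hA h.TT x0 hx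
    t ht c

end Pool.Agent.Lib.MP_3248c9_gt.Pn
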