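import Pool.Agent.Lib.MP_3248c9_gt.Pn.GTf
import Pool.Agent.Lib.MP_3248c9_gt.Hy.CHn

/-!
# The patch where the mean curvature vector does not vanish, its unit vector being parallel

`Nv = h/|h|`, `h = lb f f`; hypothesis `hp`: the derivatives of `Nv` are tangential. Model: `Hy/CPatch.lean`.
* `Nv_nrm`: `Imc.h_normal`. `Nv_unit`. `isOpen_ne`: continuity.
* `Tf_eq`: if `<w, Df v> = 0` for all `v` then `Jm w = 0` (`J_zero`). `pat`: `orth` is `J_orth`; `par`: `D Nv v = Df w` for some `w`, and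
  `Tf (Df w) = Df (Jm (Df w)) = Df w` (`J_left`).
* `ph_eqP`: `|h| = <h, N> = mt <D^2f, N> = - mt <DN v, Df w> = - tr (DN ∘ Jm) = tr Sh` (`DN_Df`, `mt_tr`, `lb_eq`, `mt_inner`).
* `meanP`: `h = mt (D^2f(v, w) - Df (Jm D^2f(v, w))) = mt ((D_v Tf)(Df w))` (`lb_eq`, `DT_Df`), so `<h, nu> = mt (<(D_v Tf) nu, Df w>)` (`mt_inner`, `DT_symm`)
  `= tr (Hs nu)` by `mt_tr` with `M = (fderiv Tf x).flip nu`.
-/

set_option autoImplicit false

namespace Pool.Agent.Lib.MP_3248c9_gt.Pn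

open Set Pool.Agent.Lib.MP_3248c9_gt.Hy
open scoped ContDiff

variable {n m : ℕ} {U : Set (Eu n)} {f N : Eu n → Eu m} {x : Eu n}

/-- The unit vector of the mean curvature vector. -/
noncomputable def Nv (f : Eu n → Eu m) (x : Eu n) : Eu m := ‖lb f f x‖⁻¹ • lb f f x

theorem isOpen_neP (h : Imc U f) : IsOpen {y | y ∈ U ∧ lb f f y ≠ 0} := by
  exact h.h_smooth.continuousOn.isOpen_inter_preimage h.op isOpen_compl_singleton

theorem Nv_nrm (h : Imc U f) (hx : x ∈ U) (v : Eu n) :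
    inner ℝ (Nv f x) (fderiv ℝ f x v) = 0 := by
  rw [Nv, real_inner_smul_left, h.h_normal hx, mul_zero]

theorem Nv_unit (h0 : lb f f x ≠ 0) : inner ℝ (Nv f x) (Nv f x) = 1 := by
  have h1 : ‖lb f f x‖ ≠ 0 := norm_ne_zero_iff.2 h0
  rw [Nv, real_inner_smul_left, real_inner_smul_right, real_inner_self_eq_norm_sq]
  field_simp

theorem pat (h : Imc U f)
    (hp : ∀ x ∈ U, lb f f x ≠ 0 → ∀ v, fderiv ℝ (Nv f) x v ∈ Set.range (fderiv ℝ f x)) :
    Pat {y | y ∈ U ∧ lb f f y ≠ 0} f (Nv f) (Jm f) := by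
  have hs : {y | y ∈ U ∧ lb f f y ≠ 0} ⊆ U := fun y hy => hy.1
  exact
    { op := isOpen_neP h
      fs := h.fs.mono hs
      Ns := ((h.h_smooth.mono hs).norm ℝ fun y hy => hy.2).inv
        (fun y hy => norm_ne_zero_iff.2 hy.2) |>.smul (h.h_smooth.mono hs)
      Js := h.J_smooth.mono hs
      left := fun y hy v => h.J_left hy.1 v
      orth := fun y hy w v => by
        have h1 := h.J_orth hy.1 w v
        rw [inner_sub_left, sub_eq_zero] at h1
        exact h1.symm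
      unit := fun y hy => Nv_unit hy.2
      normal := fun y hy v => Nv_nrm h hy.1 v
      par := fun y hy v => by
        obtain ⟨w, hw⟩ := hp y hy.1 hy.2 v
        rw [← hw, Tf, ContinuousLinearMap.comp_apply, h.J_left hy.1] }

theorem ph_eqP (h : Imc U f)
    (hp : ∀ x ∈ U, lb f f x ≠ 0 → ∀ v, fderiv ℝ (Nv f) x v ∈ Set.range (fderiv ℝ f x))
    (hx : x ∈ U) (h0 : lb f f x ≠ 0) : ph (Nv f) (Jm f) x = ‖lb f f x‖ := by
  have hP := pat h hp
  have hV : x ∈ {y | y ∈ U ∧ lb f f y ≠ 0} := ⟨hx, h0⟩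
  have h1 : ph (Nv f) (Jm f) x = -tr ((fderiv ℝ (Nv f) x).comp (Jm f x)) := by
    rw [ph, Sh, tr, tr, ← map_neg]
    rfl
  have h2 : mt f x (fun v w => (inner ℝ (fderiv ℝ (Nv f) x v) (fderiv ℝ f x w) : ℝ)) =
      -mt f x (fun v w => (inner ℝ (fderiv ℝ (fderiv ℝ f) x v w) (Nv f x) : ℝ)) := by
    simp only [Hy.mt, ← Finset.sum_neg_distrib]
    refine Finset.sum_congr rfl fun i _ => Finset.sum_congr rfl fun j _ => ?_
    rw [hP.DN_Df hV, real_inner_comm (Nv f x), smul_neg]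
  have h3 : inner ℝ (lb f f x) (Nv f x) =
      mt f x (fun v w => (inner ℝ (fderiv ℝ (fderiv ℝ f) x v w) (Nv f x) : ℝ)) := by
    rw [h.lb_eq hx (h.fs.contDiffAt (h.op.mem_nhds hx)), mt_inner]
    simp only [Hy.mt]
    refine Finset.sum_congr rfl fun i _ => Finset.sum_congr rfl fun j _ => ?_
    rw [inner_sub_left, real_inner_comm (Nv f x) (fderiv ℝ f x _), Nv_nrm h hx, sub_zero]
  have h4 : inner ℝ (lb f f x) (Nv f x) = ‖lb f f x‖ := by
    have h5 : ‖lb f f x‖ ≠ 0 := norm_ne_zero_iff.2 h0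
    rw [Nv, real_inner_smul_right, real_inner_self_eq_norm_sq]
    field_simp
  rw [h1, ← mt_tr, h2, neg_neg, ← h3, h4]

theorem Pat.meanP (hi : Imc U f) (h : Pat U f N (Jm f)) (hx : x ∈ U) (nu : Eu m) :
    tr (Hs f (Jm f) x nu) = inner ℝ (lb f f x) nu := by
  have h1 := Hy.mt_tr f x ((fderiv ℝ (Tf f (Jm f)) x).flip nu)
  have h2 : tr (Hs f (Jm f) x nu) =
      tr (((fderiv ℝ (Tf f (Jm f)) x).flip nu).comp (Jm f x)) := rfl
  rw [h2, ← h1, hi.lb_eq hx (hi.fs.contDiffAt (hi.op.mem_nhds hx)), mt_inner]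
  simp only [Hy.mt]
  refine Finset.sum_congr rfl fun i _ => Finset.sum_congr rfl fun j _ => ?_
  rw [ContinuousLinearMap.flip_apply, h.DT_symm hx, h.DT_Df hx, real_inner_comm]
  rfl

end Pool.Agent.Lib.MP_3248c9_gt.Pn
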