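import Pool.Agent.Lib.MP_3248c9_gt.Pn.CLap
import Pool.Agent.Lib.MP_3248c9_gt.Pn.CPat
import Pool.Agent.Lib.MP_3248c9_gt.Hy.CBih

/-!
# The biharmonic equations of a patch with parallel normal

Model: `Hy/CBih.lean` (`CBih_app`, `CBih_d2`, `CBih_dd`, `CBih_prod1`, `CBih_prod2` of `Hy` may be used).
* `prod_eqP`, `hess_trP`: as in `Hy`.
* `crossP`: as in `Hy` with `Tf (Sh w) = Sh w`. `crossNP`: `N_DN`.
* `bihP`: inner products of `lb f (φN) = 0` with `N` (`nrml`) and with `Df k` (`tang`: `ext_tan`, `Tf_Sh`, `gr_tan`);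
  `mean`: `meanP` and `φ N = lb f f`.
-/

set_option autoImplicit false

namespace Pool.Agent.Lib.MP_3248c9_gt.Pn

open Set Pool.Agent.Lib.MP_3248c9_gt.Hy
open scoped ContDiff

variable {n m : ℕ} {U : Set (Eu n)} {f N : Eu n → Eu m} {x : Eu n}

theorem Pat.prod_eqP (hi : Imc U f) (h : Pat U f N (Jm f)) (hx : x ∈ U) {φ : Eu n → ℝ}
    (hφ : ContDiffOn ℝ ∞ φ U) :
    lb f (fun y => φ y • N y) x =
      (mt f x (fun v w => fderiv ℝ (fderiv ℝ φ) x v w -
        fderiv ℝ φ x (Jm f x (fderiv ℝ (fderiv ℝ f) x v w)))) • N x +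
      (2 : ℝ) • mt f x (fun v w => fderiv ℝ φ x v • fderiv ℝ N x w) +
      φ x • mt f x (fun v w => fderiv ℝ (fderiv ℝ N) x v w -
        fderiv ℝ N x (Jm f x (fderiv ℝ (fderiv ℝ f) x v w))) := by
  have hu : ContDiffAt ℝ ∞ (fun y => φ y • N y) x :=
    (hφ.smul h.Ns).contDiffAt (h.op.mem_nhds hx)
  rw [hi.lb_eq hx hu]
  have h1 : (fun v w => fderiv ℝ (fderiv ℝ (fun y => φ y • N y)) x v w -
      fderiv ℝ (fun y => φ y • N y) x (Jm f x (fderiv ℝ (fderiv ℝ f) x v w))) =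
      fun v w => ((fderiv ℝ (fderiv ℝ φ) x v w -
        fderiv ℝ φ x (Jm f x (fderiv ℝ (fderiv ℝ f) x v w))) • N x +
        (fderiv ℝ φ x v • fderiv ℝ N x w + fderiv ℝ φ x w • fderiv ℝ N x v)) +
        φ x • (fderiv ℝ (fderiv ℝ N) x v w -
          fderiv ℝ N x (Jm f x (fderiv ℝ (fderiv ℝ f) x v w))) := by
    funext v w
    rw [CBih_prod2 h.op hφ h.Ns hx, CBih_prod1 h.op hφ h.Ns hx]
    rw [sub_smul, smul_sub]
    abel
  rw [h1, mt_add, mt_add, mt_add, mt_smul]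
  have h2 : mt f x (fun v w => (fderiv ℝ (fderiv ℝ φ) x v w -
        fderiv ℝ φ x (Jm f x (fderiv ℝ (fderiv ℝ f) x v w))) • N x) =
      (mt f x (fun v w => fderiv ℝ (fderiv ℝ φ) x v w -
        fderiv ℝ φ x (Jm f x (fderiv ℝ (fderiv ℝ f) x v w)))) • N x :=
    (mt_map f x (LinearMap.toSpanSingleton ℝ (Eu m) (N x)) (fun v w =>
      fderiv ℝ (fderiv ℝ φ) x v w -
        fderiv ℝ φ x (Jm f x (fderiv ℝ (fderiv ℝ f) x v w)))).symm
  have h3 : mt f x (fun v w => fderiv ℝ φ x w • fderiv ℝ N x v) =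
      mt f x (fun v w => fderiv ℝ φ x v • fderiv ℝ N x w) :=
    mt_swap f x (fun v w => fderiv ℝ φ x w • fderiv ℝ N x v)
  rw [h2, h3, two_smul]

theorem Pat.hess_trP (h : Pat U f N (Jm f)) (hx : x ∈ U) :
    mt f x (fun v w => fderiv ℝ (fderiv ℝ (ph N (Jm f))) x v w -
        fderiv ℝ (ph N (Jm f)) x (Jm f x (fderiv ℝ (fderiv ℝ f) x v w))) =
      tr ((fderiv ℝ (gr N (Jm f)) x).comp (Jm f x)) := by
  rw [← mt_tr]
  congr 1
  funext v w
  have h0 := CBih_dd h.op h.ph_smooth hx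
  have h1 : (fun y => fderiv ℝ (ph N (Jm f)) y w) =ᶠ[nhds x]
      fun y => inner ℝ (gr N (Jm f) y) (fderiv ℝ f y w) := by
    filter_upwards [h.op.mem_nhds hx] with y hy
    exact h.dph hy w
  have h2 := CBih_app (CBih_dd h.op h.fs hx) w
  rw [← CBih_d2 h0, h1.fderiv_eq, fderiv_inner_apply ℝ (GBasic_diff h.op h.gr_smooth hx)
    h2.differentiableAt, h2.fderiv, ← h.gr_inner hx]
  simp only [ContinuousLinearMap.comp_apply, ContinuousLinearMap.apply_apply]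
  ring

theorem Pat.crossP (h : Pat U f N (Jm f)) (hx : x ∈ U) (k : Eu n) :
    inner ℝ (mt f x (fun v w => fderiv ℝ (ph N (Jm f)) x v • fderiv ℝ N x w)) (fderiv ℝ f x k) =
      -inner ℝ (Sh N (Jm f) x (gr N (Jm f) x)) (fderiv ℝ f x k) := by
  have h1 : (fun v w => (inner ℝ (fderiv ℝ (ph N (Jm f)) x v • fderiv ℝ N x w)
      (fderiv ℝ f x k) : ℝ)) = fun v w => (inner ℝ
        ((((innerSL ℝ (gr N (Jm f) x)).comp (fderiv ℝ f x)).smulRight
          (-Sh N (Jm f) x (fderiv ℝ f x k)) : Eu n →L[ℝ] Eu m) v) (fderiv ℝ f x w) : ℝ) := by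
    funext v w
    rw [h.DN_eq hx, h.dph hx, inner_smul_left, inner_neg_left, h.Sh_symm hx,
      ContinuousLinearMap.smulRight_apply, inner_smul_left, inner_neg_left,
      real_inner_comm (fderiv ℝ f x w) (Sh N (Jm f) x (fderiv ℝ f x k))]
    rfl
  rw [mt_inner, h1, mt_tr]
  have h2 : (((((innerSL ℝ (gr N (Jm f) x)).comp (fderiv ℝ f x)).smulRight
          (-Sh N (Jm f) x (fderiv ℝ f x k)) : Eu n →L[ℝ] Eu m).comp (Jm f x) :
          Eu m →L[ℝ] Eu m) : Eu m →ₗ[ℝ] Eu m) =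
      ((((innerSL ℝ (gr N (Jm f) x)).comp (fderiv ℝ f x)).comp (Jm f x) : Eu m →L[ℝ] ℝ) :
        Eu m →ₗ[ℝ] ℝ).smulRight (-Sh N (Jm f) x (fderiv ℝ f x k)) := by
    ext w
    rfl
  rw [tr, h2, LinearMap.trace_smulRight]
  have h3 : fderiv ℝ f x (Jm f x (-Sh N (Jm f) x (fderiv ℝ f x k))) =
      -Sh N (Jm f) x (fderiv ℝ f x k) := by
    have h4 := h.Tf_Sh hx (fderiv ℝ f x k)
    rw [Tf, ContinuousLinearMap.comp_apply] at h4
    rw [map_neg, map_neg, h4]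
  show inner ℝ (gr N (Jm f) x) (fderiv ℝ f x (Jm f x (-Sh N (Jm f) x (fderiv ℝ f x k)))) = _
  rw [h3, inner_neg_right, h.Sh_symm hx]

theorem Pat.crossNP (h : Pat U f N (Jm f)) (hx : x ∈ U) :
    inner ℝ (mt f x (fun v w => fderiv ℝ (ph N (Jm f)) x v • fderiv ℝ N x w)) (N x) = 0 := by
  have h1 : (fun v w => (inner ℝ (fderiv ℝ (ph N (Jm f)) x v • fderiv ℝ N x w)
      (N x) : ℝ)) = fun v w => (inner ℝ ((0 : Eu n →L[ℝ] Eu m) v) (fderiv ℝ f x w) : ℝ) := by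
    funext v w
    rw [inner_smul_left, real_inner_comm (N x), h.N_DN hx, mul_zero,
      zero_apply, inner_zero_left]
  rw [mt_inner, h1, mt_tr, ContinuousLinearMap.zero_comp, tr]
  exact map_zero _

theorem Pat.bihP (hi : Imc U f) (h : Pat U f N (Jm f))
    (hb : ∀ x ∈ U, lb f (fun y => ph N (Jm f) y • N y) x = 0)
    (hm : ∀ x ∈ U, ph N (Jm f) x • N x = lb f f x) : BihP U f N (Jm f) := by
  have key : ∀ x ∈ U, tr ((fderiv ℝ (gr N (Jm f)) x).comp (Jm f x)) • N x +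
      (2 : ℝ) • mt f x (fun v w => fderiv ℝ (ph N (Jm f)) x v • fderiv ℝ N x w) +
      ph N (Jm f) x • mt f x (fun v w => fderiv ℝ (fderiv ℝ N) x v w -
        fderiv ℝ N x (Jm f x (fderiv ℝ (fderiv ℝ f) x v w))) = 0 := by
    intro x hx
    rw [← h.hess_trP hx, ← h.prod_eqP hi hx h.ph_smooth]
    exact hb x hx
  refine { toPat := h, tang := ?_, nrml := ?_, mean := ?_ }
  · intro x hx
    have h1 : Tf f (Jm f) x (Sh N (Jm f) x (gr N (Jm f) x)) = Sh N (Jm f) x (gr N (Jm f) x) :=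
      h.Tf_Sh hx _
    have h2 : Tf f (Jm f) x (-(ph N (Jm f) x / 2) • gr N (Jm f) x) =
        -(ph N (Jm f) x / 2) • gr N (Jm f) x := by
      rw [map_smul, h.gr_tan hx]
    refine h.ext_tan hx h1 h2 fun k => ?_
    have h3 := congrArg (fun y : Eu m => (inner ℝ y (fderiv ℝ f x k) : ℝ)) (key x hx)
    simp only [inner_add_left, inner_smul_left, inner_zero_left, conj_trivial] at h3
    rw [h.normal x hx, h.crossP hx, h.LN_tan hx, h.dph hx] at h3
    rw [inner_smul_left, conj_trivial]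
    linarith
  · intro x hx
    have h3 := congrArg (fun y : Eu m => (inner ℝ y (N x) : ℝ)) (key x hx)
    simp only [inner_add_left, inner_smul_left, inner_zero_left, conj_trivial] at h3
    rw [h.unit x hx, h.crossNP hx, h.LN_N hx] at h3
    linarith
  · intro x hx nu
    rw [h.meanP hi hx nu, ← hm x hx, inner_smul_left, conj_trivial]

end Pool.Agent.Lib.MP_3248c9_gt.Pn
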