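import Pool.Agent.Lib.MP_3248c9_gt.Pn.GCod
import Pool.Agent.Lib.MP_3248c9_gt.Hy.CMet

/-!
# The Laplacian of the parallel unit normal

Model: `Hy/CLapN.lean`. `LN = mt (D^2N(v, w) - DN(Jm D^2f(v, w)))`.
* `N_DN`: `D_v N` is tangential (`par`) and `N` is normal. `D2N`: `<D^2N(v, w), N> = - <DN v, DN w>` (differentiate `N_DN`).
* `LN_N`: `<D^2N(v, w), N> = - <DN v, DN w>`, `<DN _, N> = 0`; `DN w = - Sh (Df w)`, `Sh` symmetric:
  `- <DN v, DN w> = <Sh (DN v), Df w>`, and `mt_tr` with `M = Sh ∘ DN`: `tr (Sh ∘ DN ∘ Jm) = - tr (Sh * Sh)`.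
* `LN_tan`: by `cod_eq`, `D^2N(v, w) - DN(Jm D^2f(v, w)) = - (D_v Sh)(Df w)`, and
  `<(D_v Sh)(Df w), Df k> = <(D_k Sh)(Df v), Df w>` (`cod12`, `cod23`, symmetry of `D^2f`); `mt_tr` with `M = (D_k Sh) ∘ Df`:
  `(D_k Sh) ∘ Df ∘ Jm = (D_k Sh) * Tf`, `tr_DSh_Tf`.
-/

set_option autoImplicit false

namespace Pool.Agent.Lib.MP_3248c9_gt.Pn

open Set Pool.Agent.Lib.MP_3248c9_gt.Hy
open scoped ContDiff

variable {n m : ℕ} {U : Set (Eu n)} {f N : Eu n → Eu m} {x : Eu n}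

theorem Pat.N_DN (h : Pat U f N (Jm f)) (hx : x ∈ U) (v : Eu n) :
    inner ℝ (N x) (fderiv ℝ N x v) = 0 := by
  have h1 : fderiv ℝ f x (Jm f x (fderiv ℝ N x v)) = fderiv ℝ N x v := h.par x hx v
  rw [← h1]
  exact h.normal x hx _

theorem Pat.D2N (h : Pat U f N (Jm f)) (hx : x ∈ U) (v w : Eu n) :
    inner ℝ (fderiv ℝ (fderiv ℝ N) x v w) (N x) =
      -inner ℝ (fderiv ℝ N x v) (fderiv ℝ N x w) := by
  have h1 := GBasic_const (g := fun y => inner ℝ (N y) (fderiv ℝ N y w)) h.op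
    (fun y hy => h.N_DN hy w) hx
  have h2 := GBasic_diff h.op h.Ns hx
  have h3 : DifferentiableAt ℝ (fderiv ℝ N) x :=
    GBasic_diff h.op (h.Ns.fderiv_of_isOpen h.op (by simp) : ContDiffOn ℝ ∞ (fderiv ℝ N) U) hx
  have h4 : HasFDerivAt (fun y => fderiv ℝ N y w)
      ((ContinuousLinearMap.apply ℝ (Eu m) w).comp (fderiv ℝ (fderiv ℝ N) x)) x :=
    (ContinuousLinearMap.apply ℝ (Eu m) w).hasFDerivAt.comp x h3.hasFDerivAt
  have h5 := fderiv_inner_apply ℝ h2 h4.differentiableAt v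
  rw [h1, ContinuousLinearMap.zero_apply, h4.fderiv, ContinuousLinearMap.comp_apply,
    ContinuousLinearMap.apply_apply] at h5
  rw [real_inner_comm]
  linarith

theorem Pat.LN_N (h : Pat U f N (Jm f)) (hx : x ∈ U) :
    inner ℝ (mt f x (fun v w => fderiv ℝ (fderiv ℝ N) x v w -
      fderiv ℝ N x (Jm f x (fderiv ℝ (fderiv ℝ f) x v w)))) (N x) =
      -tr (Sh N (Jm f) x * Sh N (Jm f) x) := by
  rw [mt_inner]
  have h1 : ∀ v w : Eu n, inner ℝ (fderiv ℝ (fderiv ℝ N) x v w -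
      fderiv ℝ N x (Jm f x (fderiv ℝ (fderiv ℝ f) x v w))) (N x) =
      inner ℝ (((Sh N (Jm f) x).comp (fderiv ℝ N x)) v) (fderiv ℝ f x w) := by
    intro v w
    rw [inner_sub_left, h.D2N hx, real_inner_comm (N x) (fderiv ℝ N x _),
      h.N_DN hx, sub_zero, h.DN_eq hx w, inner_neg_right, neg_neg,
      ContinuousLinearMap.comp_apply, h.Sh_symm hx]
  have h2 : (fun v w : Eu n => (inner ℝ (fderiv ℝ (fderiv ℝ N) x v w -
      fderiv ℝ N x (Jm f x (fderiv ℝ (fderiv ℝ f) x v w))) (N x) : ℝ)) =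
      fun v w => (inner ℝ (((Sh N (Jm f) x).comp (fderiv ℝ N x)) v) (fderiv ℝ f x w) : ℝ) := by
    funext v w
    exact h1 v w
  rw [h2, mt_tr]
  have h3 : ((Sh N (Jm f) x).comp (fderiv ℝ N x)).comp (Jm f x) =
      (-1 : ℝ) • (Sh N (Jm f) x * Sh N (Jm f) x) := by
    ext1 w
    rw [ContinuousLinearMap.comp_apply, ContinuousLinearMap.comp_apply,
      ContinuousLinearMap.smul_apply, neg_one_smul]
    show _ = -(Sh N (Jm f) x (-(fderiv ℝ N x (Jm f x w))))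
    rw [map_neg, neg_neg]
  rw [h3, tr_smul]
  ring

theorem Pat.LN_tan (h : Pat U f N (Jm f)) (hx : x ∈ U) (k : Eu n) :
    inner ℝ (mt f x (fun v w => fderiv ℝ (fderiv ℝ N) x v w -
      fderiv ℝ N x (Jm f x (fderiv ℝ (fderiv ℝ f) x v w)))) (fderiv ℝ f x k) =
      -fderiv ℝ (ph N (Jm f)) x k := by
  rw [mt_inner]
  have h2 : (fun v w : Eu n => (inner ℝ (fderiv ℝ (fderiv ℝ N) x v w -
      fderiv ℝ N x (Jm f x (fderiv ℝ (fderiv ℝ f) x v w))) (fderiv ℝ f x k) : ℝ)) =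
      fun v w => (inner ℝ ((-((fderiv ℝ (Sh N (Jm f)) x k).comp (fderiv ℝ f x))) v)
        (fderiv ℝ f x w) : ℝ) := by
    funext v w
    have h1 : fderiv ℝ (fderiv ℝ N) x v w -
        fderiv ℝ N x (Jm f x (fderiv ℝ (fderiv ℝ f) x v w)) =
        -(fderiv ℝ (Sh N (Jm f)) x v (fderiv ℝ f x w)) := by
      rw [h.cod_eq hx]
      abel
    rw [h1, inner_neg_left, h.cod23 hx, real_inner_comm, h.cod12 hx v k,
      ContinuousLinearMap.neg_apply, inner_neg_left, ContinuousLinearMap.comp_apply]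
  rw [h2, mt_tr]
  have h3 : (-((fderiv ℝ (Sh N (Jm f)) x k).comp (fderiv ℝ f x))).comp (Jm f x) =
      (-1 : ℝ) • (fderiv ℝ (Sh N (Jm f)) x k * Tf f (Jm f) x) := by
    ext1 w
    rw [ContinuousLinearMap.comp_apply, ContinuousLinearMap.neg_apply,
      ContinuousLinearMap.comp_apply, ContinuousLinearMap.smul_apply, neg_one_smul]
    rfl
  rw [h3, tr_smul, h.tr_DSh_Tf hx]
  ring

end Pool.Agent.Lib.MP_3248c9_gt.Pn
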