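import Pool.Agent.Lib.MP_3248c9_gt.Hy.Glob

/-!
# Global solutions of clamped polynomial vector fields

`cl R z p = max (-R) (min (z p) R)`. For every polynomial `Q` the function `z ↦ eval (cl R z) Q` is bounded and Lipschitz
on `σ → ℝ` (sup norm): `MvPolynomial.induction_on` (sums and products of bounded Lipschitz functions; the private lemmas
`ExiBL.add, .mul, .const` and `exi_clamp_..` of `Hy/Exi.lean` can be copied). So the clamped field `z ↦ (p ↦ eval (cl R z) (W p))` is
bounded and Lipschitz (finitely many components, `dist_pi_le_iff`, `pi_norm_le_iff_of_nonneg`), and `Hy.exists_global` applies.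
`stay`: if `|z 0| <= b < R` and every solution that stays in the ball of radius `R` on `[0, T]` has `|z T| <= b`, then it
stays in the ball of radius `b` for all `t >= 0` (intermediate value theorem for `t ↦ ‖z t‖` and the level `(b + R)/2`; see the
end of `Hy/Exi.lean`).
-/

set_option autoImplicit false

namespace Pool.Agent.Lib.MP_3248c9_gt.Pn

open Finset MvPolynomial

variable {σ : Type} [Fintype σ]

/-- Bounded and Lipschitz functions. -/
private def ClampBL {X : Type} [PseudoMetricSpace X] (f : X → ℝ) : Prop :=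
  ∃ B K : ℝ, 0 ≤ B ∧ 0 ≤ K ∧ (∀ x, |f x| ≤ B) ∧ ∀ x y, |f x - f y| ≤ K * dist x y

section BL

variable {X : Type} [PseudoMetricSpace X]

private theorem ClampBL.const (r : ℝ) : ClampBL (fun _ : X => r) :=
  ⟨|r|, 0, abs_nonneg _, le_rfl, fun _ => le_rfl, fun _ _ => by simp⟩

private theorem ClampBL.add {f g : X → ℝ} (hf : ClampBL f) (hg : ClampBL g) :
    ClampBL (fun x => f x + g x) := by
  obtain ⟨B, K, hB, hK, h1, h2⟩ := hf
  obtain ⟨B', K', hB', hK', h1', h2'⟩ := hg
  refine ⟨B + B', K + K', by positivity, by positivity, fun x => ?_, fun x y => ?_⟩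
  · exact (abs_add_le _ _).trans (add_le_add (h1 x) (h1' x))
  · have e : f x + g x - (f y + g y) = (f x - f y) + (g x - g y) := by ring
    rw [e, add_mul]
    exact (abs_add_le _ _).trans (add_le_add (h2 x y) (h2' x y))

private theorem ClampBL.mul {f g : X → ℝ} (hf : ClampBL f) (hg : ClampBL g) :
    ClampBL (fun x => f x * g x) := by
  obtain ⟨B, K, hB, hK, h1, h2⟩ := hf
  obtain ⟨B', K', hB', hK', h1', h2'⟩ := hg
  refine ⟨B * B', B * K' + K * B', by positivity, by positivity, fun x => ?_, fun x y => ?_⟩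
  · rw [abs_mul]
    exact mul_le_mul (h1 x) (h1' x) (abs_nonneg _) hB
  · have e : f x * g x - f y * g y = f x * (g x - g y) + (f x - f y) * g y := by ring
    rw [e]
    refine (abs_add_le _ _).trans ?_
    rw [abs_mul, abs_mul, add_mul]
    refine add_le_add ?_ ?_
    · calc |f x| * |g x - g y| ≤ B * (K' * dist x y) :=
            mul_le_mul (h1 x) (h2' x y) (abs_nonneg _) hB
        _ = B * K' * dist x y := by ring
    · calc |f x - f y| * |g y| ≤ (K * dist x y) * B' :=
            mul_le_mul (h2 x y) (h1' y) (abs_nonneg _) (by positivity)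
        _ = K * B' * dist x y := by ring

end BL

private theorem clamp_abs (R x : ℝ) (hR : 0 < R) : |max (-R) (min x R)| ≤ R := by
  rw [abs_le]
  exact ⟨le_max_left _ _, max_le (by linarith) (min_le_right _ _)⟩

private theorem clamp_sub (R x y : ℝ) :
    |max (-R) (min x R) - max (-R) (min y R)| ≤ |x - y| := by
  have h1 := abs_max_sub_max_le_max (-R) (min x R) (-R) (min y R)
  have h2 := abs_min_sub_min_le_max x R y R
  simp only [sub_self, abs_zero] at h1 h2
  refine h1.trans (max_le (abs_nonneg _) (h2.trans (max_le le_rfl (abs_nonneg _))))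

private theorem clamp_self (R x : ℝ) (h : |x| ≤ R) : max (-R) (min x R) = x := by
  rw [abs_le] at h
  rw [min_eq_left h.2, max_eq_right h.1]

/-- Componentwise clamping. -/
noncomputable def cl (R : ℝ) (z : σ → ℝ) : σ → ℝ := fun p => max (-R) (min (z p) R)

theorem cl_self {R : ℝ} {z : σ → ℝ} (h : ‖z‖ ≤ R) : cl R z = z := by
  funext p
  refine clamp_self R _ ?_
  rw [← Real.norm_eq_abs]
  exact (norm_le_pi_norm z p).trans h

private theorem clamp_poly (R : ℝ) (hR : 0 < R) (Q : MvPolynomial σ ℝ) :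
    ClampBL (fun z : σ → ℝ => eval (cl R z) Q) := by
  induction Q using MvPolynomial.induction_on with
  | C r =>
    have h := ClampBL.const (X := σ → ℝ) r
    have e : (fun z : σ → ℝ => eval (cl R z) (C r : MvPolynomial σ ℝ)) = fun _ => r := by
      funext z
      rw [eval_C]
    rwa [e]
  | add p q hp hq =>
    have h := hp.add hq
    have e : (fun z : σ → ℝ => eval (cl R z) (p + q)) =
        fun z => eval (cl R z) p + eval (cl R z) q := by
      funext z
      rw [map_add]
    rwa [e]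
  | mul_X p i hp =>
    have hi : ClampBL (fun z : σ → ℝ => cl R z i) := by
      refine ⟨R, 1, hR.le, zero_le_one, fun z => clamp_abs R _ hR, fun z w => ?_⟩
      rw [one_mul]
      refine (clamp_sub R _ _).trans ?_
      rw [← Real.dist_eq]
      exact dist_le_pi_dist z w i
    have h := hp.mul hi
    have e : (fun z : σ → ℝ => eval (cl R z) (p * X i)) =
        fun z => eval (cl R z) p * cl R z i := by
      funext z
      rw [map_mul, eval_X]
    rwa [e]

theorem exists_clamped (R : ℝ) (hR : 0 < R) (W : σ → MvPolynomial σ ℝ) (z0 : σ → ℝ) :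
    ∃ z : ℝ → σ → ℝ, z 0 = z0 ∧
      ∀ t p, HasDerivAt (fun s => z s p) (eval (cl R (z t)) (W p)) t := by
  have h := fun p => clamp_poly R hR (W p)
  choose B K hB hK b l using h
  have hBs : 0 ≤ ∑ p, B p := Finset.sum_nonneg fun p _ => hB p
  have hKs : 0 ≤ ∑ p, K p := Finset.sum_nonneg fun p _ => hK p
  have hlip : LipschitzWith (Real.toNNReal (∑ p, K p))
      (fun (z : σ → ℝ) (p : σ) => eval (cl R z) (W p)) := by
    refine LipschitzWith.of_dist_le_mul fun z w => ?_
    rw [Real.coe_toNNReal _ hKs]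
    refine (dist_pi_le_iff (mul_nonneg hKs dist_nonneg)).2 fun p => ?_
    rw [Real.dist_eq]
    refine (l p z w).trans (mul_le_mul_of_nonneg_right ?_ dist_nonneg)
    exact Finset.single_le_sum (f := K) (fun q _ => hK q) (Finset.mem_univ p)
  have hbd : ∀ z : σ → ℝ, ‖(fun p => eval (cl R z) (W p) : σ → ℝ)‖ ≤ ∑ p, B p := by
    intro z
    refine (pi_norm_le_iff_of_nonneg hBs).2 fun p => ?_
    rw [Real.norm_eq_abs]
    refine (b p z).trans ?_
    exact Finset.single_le_sum (f := B) (fun q _ => hB q) (Finset.mem_univ p)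
  obtain ⟨z, hz0, hz⟩ := Hy.exists_global _ _ hlip (∑ p, B p) hbd z0
  exact ⟨z, hz0, fun t p => (hasDerivAt_pi.1 (hz t)) p⟩

theorem stay {R b : ℝ} (hb : b < R) {z : ℝ → σ → ℝ} (hz : Continuous z) (h0 : ‖z 0‖ ≤ b)
    (hs : ∀ T : ℝ, 0 ≤ T → (∀ t ∈ Set.Icc (0 : ℝ) T, ‖z t‖ ≤ R) → ‖z T‖ ≤ b) :
    ∀ t : ℝ, 0 ≤ t → ‖z t‖ ≤ b := by
  have hgc : Continuous fun t => ‖z t‖ := hz.norm
  have hbox : ∀ t : ℝ, 0 ≤ t → ‖z t‖ ≤ R := by
    intro t1 ht1
    by_contra hcon
    have hg1 : (b + R) / 2 ≤ ‖z t1‖ := by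
      push Not at hcon
      linarith
    have hcl : IsCompact (Set.Icc (0 : ℝ) t1 ∩ {t | (b + R) / 2 ≤ ‖z t‖}) :=
      isCompact_Icc.inter_right (isClosed_le continuous_const hgc)
    obtain ⟨t2, ⟨ht2, hg2⟩, hleast⟩ := hcl.exists_isLeast ⟨t1, ⟨ht1, le_rfl⟩, hg1⟩
    have hg0 : ‖z 0‖ ≤ (b + R) / 2 := by linarith
    obtain ⟨r, hr, hgr⟩ := intermediate_value_Icc ht2.1 hgc.continuousOn ⟨hg0, hg2⟩
    have hrt : t2 ≤ r := hleast ⟨⟨hr.1, hr.2.trans ht2.2⟩, hgr.ge⟩
    have hre : r = t2 := le_antisymm hr.2 hrt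
    rw [hre] at hgr
    have hgr' : ‖z t2‖ = (b + R) / 2 := hgr
    have hb2 : ∀ t ∈ Set.Icc (0 : ℝ) t2, ‖z t‖ ≤ R := by
      intro t ht
      have hle : ‖z t‖ ≤ (b + R) / 2 := by
        rcases eq_or_lt_of_le ht.2 with h | h
        · rw [h, hgr']
        · by_contra hlt
          push Not at hlt
          exact absurd (hleast ⟨⟨ht.1, ht.2.trans ht2.2⟩, hlt.le⟩) (not_le.mpr h)
      linarith
    have h3 := hs t2 ht2.1 hb2
    linarith
  exact fun t ht => hs t ht fun u hu => hbox u hu.1

end Pool.Agent.Lib.MP_3248c9_gt.Pn
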