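import Pool.Agent.Lib.MP_3248c9_gt.Pn.Align

/-!
# Commutation

With `D = 1 - A0_x` (symmetric): `A_c D = A0_c`; taking adjoints (`A_c`, `D`, `A0_c` symmetric): `D A_c = A0_c`, so `A_c D = D A_c`, and
`A0_c D = A_c D D = D A_c D = D A0_c`. So `A0_c` commutes with `A0_x` (`comm_X`), for all `c` and `t`; differentiate in `t`: with `A0_y` (`comm_T`).
`Z1 = span ({z 0} ∪ {y t})`; `comm_Z` by `Submodule.span_induction` (bilinear; `z 0` commutes with itself and with the `y t`).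
`mem_x`, `mem_z`: for `c` in the orthogonal complement of `Z1` the functions `<x t, c>`, `<z t, c>` have derivative `0` (`z' = -q y`), so they are constant
(`= <x 0, c> = 0`, `= <z 0, c> = 0`); the double orthogonal complement is `Z1` (finite dimension).
-/

set_option autoImplicit false

namespace Pool.Agent.Lib.MP_3248c9_gt.Pn

open Set

variable {k : ℕ} {ε : ℝ} {A : ℝ → Ek k →L[ℝ] (Ek k →L[ℝ] Ek k)} {x y z : ℝ → Ek k}
  {q q1 : ℝ → ℝ}

/-- The span of the initial normal and of all the tangents. -/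
noncomputable def Z1 (ε : ℝ) (y z : ℝ → Ek k) : Submodule ℝ (Ek k) :=
  Submodule.span ℝ ({z 0} ∪ y '' Ioo (-ε) ε)

theorem PStar.comm_X (h : PStar ε A y z q q1) (hε : 0 < ε) (x0 : x 0 = 0)
    (hx : ∀ t ∈ Ioo (-ε) ε, HasDerivAt x (y t) t) {t : ℝ} (ht : t ∈ Ioo (-ε) ε) (c : Ek k) :
    A 0 c * A 0 (x t) = A 0 (x t) * A 0 c := by
  have h0 : (0 : ℝ) ∈ Ioo (-ε) ε := ⟨by linarith, hε⟩
  have hal := h.align hε x0 hx t ht c
  have hD : ∀ w w' : Ek k, inner ℝ ((1 - A 0 (x t) : Ek k →L[ℝ] Ek k) w) w' =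
      inner ℝ w ((1 - A 0 (x t) : Ek k →L[ℝ] Ek k) w') := by
    intro w w'
    change inner ℝ (w - A 0 (x t) w) w' = inner ℝ w (w' - A 0 (x t) w')
    rw [inner_sub_left, inner_sub_right, h.sym 0 h0]
  have hal2 : (1 - A 0 (x t)) * A t c = A 0 c := by
    refine ContinuousLinearMap.ext fun w => ext_inner_right ℝ fun w' => ?_
    change inner ℝ ((1 - A 0 (x t) : Ek k →L[ℝ] Ek k) (A t c w)) w' = inner ℝ (A 0 c w) w'
    rw [hD, h.sym t ht, h.sym 0 h0]
    congr 1
    exact congrArg (fun B : Ek k →L[ℝ] Ek k => B w') hal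
  have h1 : A 0 c * (1 - A 0 (x t)) = (1 - A 0 (x t)) * A 0 c := by
    conv_lhs => rw [← hal2, mul_assoc, hal]
  rw [mul_sub, sub_mul, mul_one, one_mul] at h1
  exact sub_right_injective h1

theorem PStar.comm_T (h : PStar ε A y z q q1) (hε : 0 < ε) {t : ℝ} (ht : t ∈ Ioo (-ε) ε)
    (c : Ek k) : A 0 c * A 0 (y t) = A 0 (y t) * A 0 c := by
  obtain ⟨x, x0, hx⟩ := h.exists_prim hε
  have h1 : HasDerivAt (fun s => A 0 (x s)) (A 0 (y t)) t :=
    (A 0).hasFDerivAt.comp_hasDerivAt t (hx t ht)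
  have h2 : HasDerivAt (fun s => A 0 c * A 0 (x s)) (A 0 c * A 0 (y t)) t :=
    h1.const_mul (A 0 c)
  have h3 : HasDerivAt (fun s => A 0 (x s) * A 0 c) (A 0 (y t) * A 0 c) t :=
    h1.mul_const (A 0 c)
  refine h2.unique (h3.congr_of_eventuallyEq ?_)
  filter_upwards [Ioo_mem_nhds ht.1 ht.2] with s hs
  exact h.comm_X hε x0 hx hs c

private theorem smul_comm_aux {B C : Ek k →L[ℝ] Ek k} (r : ℝ) (hBC : B * C = C * B) :
    (r • B) * C = C * (r • B) := by
  refine ContinuousLinearMap.ext fun w => ?_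
  change r • B (C w) = C (r • B w)
  rw [map_smul]
  exact congrArg (fun T : Ek k →L[ℝ] Ek k => r • T w) hBC

theorem PStar.comm_Z (h : PStar ε A y z q q1) (hε : 0 < ε) {c c' : Ek k} (hc : c ∈ Z1 ε y z)
    (hc' : c' ∈ Z1 ε y z) : A 0 c * A 0 c' = A 0 c' * A 0 c := by
  have hz : A 0 c * A 0 (z 0) = A 0 (z 0) * A 0 c := by
    induction hc using Submodule.span_induction with
    | mem w hw =>
      rcases hw with hw | ⟨t, ht, rfl⟩
      · rw [mem_singleton_iff.1 hw]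
      · exact (h.comm_T hε ht (z 0)).symm
    | zero => rw [map_zero, zero_mul, mul_zero]
    | add w w' _ _ hw hw' => rw [map_add, add_mul, mul_add, hw, hw']
    | smul r w _ hw =>
      rw [map_smul]
      exact smul_comm_aux r hw
  induction hc' using Submodule.span_induction with
  | mem w hw =>
    rcases hw with hw | ⟨t, ht, rfl⟩
    · rw [mem_singleton_iff.1 hw, hz]
    · exact h.comm_T hε ht c
  | zero => rw [map_zero, zero_mul, mul_zero]
  | add w w' _ _ hw hw' => rw [map_add, add_mul, mul_add, hw, hw']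
  | smul r w _ hw =>
    rw [map_smul]
    exact (smul_comm_aux r hw.symm).symm

theorem mem_y {t : ℝ} (ht : t ∈ Ioo (-ε) ε) : y t ∈ Z1 ε y z :=
  Submodule.subset_span (Or.inr ⟨t, ht, rfl⟩)

/-- A function with zero derivative is constant. -/
private theorem const_of {g : ℝ → ℝ} (hg : ∀ t ∈ Ioo (-ε) ε, HasDerivAt g 0 t) {t : ℝ}
    (ht : t ∈ Ioo (-ε) ε) (h0 : (0 : ℝ) ∈ Ioo (-ε) ε) : g t = g 0 :=
  isOpen_Ioo.is_const_of_deriv_eq_zero isPreconnected_Ioo
    (fun s hs => (hg s hs).differentiableAt.differentiableWithinAt)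
    (fun s hs => (hg s hs).deriv) ht h0

theorem PStar.mem_x (h : PStar ε A y z q q1) (hε : 0 < ε) (x0 : x 0 = 0)
    (hx : ∀ t ∈ Ioo (-ε) ε, HasDerivAt x (y t) t) {t : ℝ} (ht : t ∈ Ioo (-ε) ε) :
    x t ∈ Z1 ε y z := by
  have _ := h
  have h0 : (0 : ℝ) ∈ Ioo (-ε) ε := ⟨by linarith, hε⟩
  rw [← Submodule.orthogonal_orthogonal (Z1 ε y z), Submodule.mem_orthogonal]
  intro c hc
  have h1 : ∀ s ∈ Ioo (-ε) ε, HasDerivAt (fun s => (inner ℝ c (x s) : ℝ)) 0 s := by
    intro s hs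
    have h2 := (hasDerivAt_const s c).inner ℝ (hx s hs)
    rw [inner_zero_left, add_zero, Submodule.inner_left_of_mem_orthogonal (mem_y hs) hc] at h2
    exact h2
  have h3 := const_of h1 ht h0
  simp only [x0, inner_zero_right] at h3
  exact h3

theorem PStar.mem_z (h : PStar ε A y z q q1) (hε : 0 < ε) {t : ℝ} (ht : t ∈ Ioo (-ε) ε) :
    z t ∈ Z1 ε y z := by
  have h0 : (0 : ℝ) ∈ Ioo (-ε) ε := ⟨by linarith, hε⟩
  rw [← Submodule.orthogonal_orthogonal (Z1 ε y z), Submodule.mem_orthogonal]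
  intro c hc
  have h1 : ∀ s ∈ Ioo (-ε) ε, HasDerivAt (fun s => (inner ℝ c (z s) : ℝ)) 0 s := by
    intro s hs
    have h2 := (hasDerivAt_const s c).inner ℝ (h.hN s hs)
    rw [inner_zero_left, add_zero, inner_neg_right, inner_smul_right,
      Submodule.inner_left_of_mem_orthogonal (mem_y hs) hc, mul_zero, neg_zero] at h2
    exact h2
  have h3 := const_of h1 ht h0
  have h4 : z 0 ∈ Z1 ε y z := Submodule.subset_span (Or.inl rfl)
  have h5 : inner ℝ c (z 0) = 0 := Submodule.inner_left_of_mem_orthogonal h4 hc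
  rw [h5] at h3
  exact h3

end Pool.Agent.Lib.MP_3248c9_gt.Pn
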