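import Mathlib

/-!
# The picture in `R^k`: definitions

`d_i X = 1 + <a_i, X>` are affine functions on `R^k`, `P = prod d_i`, `c_i = prod_{j != i} d_j`,
`G = grad P = sum c_i a_i`, `K(X, N) = (1/3) <G, N>`.
State: a point `X`, a unit tangent `T`, a unit normal `N`. In the time `tau` (`dt = P dtau`, `t` = arclength) the system is
`X' = P T`, `T' = G - <G, T> T - 2 K N`, `N' = - K T`  (curvature in the direction `N`: `kappa = K/P`).
The polynomial versions live in `Rk k`, with the variables `X (0, j)`, `X (1, j)`, `X (2, j)` for the coordinates of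
`X`, `T`, `N`; `VF` is the polynomial vector field.
-/

set_option autoImplicit false

namespace Pool.Agent.Lib.MP_3248c9_gt.Pn

open Finset MvPolynomial

/-- Euclidean space. -/
abbrev Ek (k : ℕ) := EuclideanSpace ℝ (Fin k)

variable {ι : Type} [Fintype ι] [DecidableEq ι] {k : ℕ} (a : ι → Ek k)

/-- The affine function `d_i`. -/
noncomputable def dv (x : Ek k) (i : ι) : ℝ := 1 + inner ℝ (a i) x

/-- The product of the affine functions. -/
noncomputable def pv (x : Ek k) : ℝ := ∏ i, dv a x i

/-- The product of the `d_j`, `j != i`. -/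
noncomputable def cv (x : Ek k) (i : ι) : ℝ := ∏ j ∈ univ.erase i, dv a x j

/-- The gradient of the product. -/
noncomputable def Gv (x : Ek k) : Ek k := ∑ i, cv a x i • a i

/-- `K = (1/3) <grad P, N>`. -/
noncomputable def Kv (x y : Ek k) : ℝ := (1 / 3) * inner ℝ (Gv a x) y

/-- The polynomial ring in the coordinates of `X, T, N`. -/
abbrev Rk (k : ℕ) := MvPolynomial (Fin 3 × Fin k) ℝ

/-- The point of `R^(3k)` belonging to the state. -/
noncomputable def pt (x y z : Ek k) : Fin 3 × Fin k → ℝ := fun p => (![x, y, z] p.1) p.2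

/-- The polynomial `d_i`. -/
noncomputable def dP (i : ι) : Rk k := 1 + ∑ j, C (a i j) * X (0, j)

/-- The product of the `d_j`, `j != i`. -/
noncomputable def coP (i : ι) : Rk k := ∏ j ∈ univ.erase i, dP a j

/-- The product of all `d_i`. -/
noncomputable def PP : Rk k := ∏ i, dP a i

/-- The polynomial `<a_i, T>`. -/
noncomputable def aT (i : ι) : Rk k := ∑ j, C (a i j) * X (1, j)

/-- The polynomial `<a_i, N>`. -/
noncomputable def aN (i : ι) : Rk k := ∑ j, C (a i j) * X (2, j)

/-- The components of the gradient of `P`. -/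
noncomputable def GP (j : Fin k) : Rk k := ∑ i, C (a i j) * coP a i

/-- `<G, T>`: the logarithmic derivative of `P` along the field. -/
noncomputable def EP : Rk k := ∑ i, aT a i * coP a i

/-- The polynomial `K`. -/
noncomputable def KP : Rk k := C (1 / 3) * ∑ i, aN a i * coP a i

/-- The components of the polynomial vector field. -/
noncomputable def VFc (p : Fin 3 × Fin k) : Rk k :=
  if p.1 = 0 then PP a * X (1, p.2)
  else if p.1 = 1 then GP a p.2 - EP a * X (1, p.2) - 2 * KP a * X (2, p.2)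
  else -(KP a * X (1, p.2))

/-- The polynomial vector field, as a derivation. -/
noncomputable def VF : Derivation ℝ (Rk k) (Rk k) := mkDerivation ℝ (VFc a)

/-- `M = V K - K E`, so that `(K / P)' = M / P` along the field. -/
noncomputable def MP : Rk k := VF a (KP a) - KP a * EP a

/-- The polynomial form of the equation `(P k')' = P k (k^2 + sum (<a_i, N>/d_i)^2)`. -/
noncomputable def FP : Rk k :=
  VF a (MP a) - MP a * EP a - KP a ^ 3 - KP a * ∑ i, aN a i ^ 2 * coP a i ^ 2

/-- A ray in the time `tau` on the time set `I`; `q` is the curvature in the direction `N`, `m` its derivative. -/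
structure Ray (I : Set ℝ) (x y z : ℝ → Ek k) (q m : ℝ → ℝ) : Prop where
  hX : ∀ t ∈ I, HasDerivAt x (pv a (x t) • y t) t
  hT : ∀ t ∈ I, HasDerivAt y (Gv a (x t) - (inner ℝ (Gv a (x t)) (y t) : ℝ) • y t -
    (2 * (pv a (x t) * q t)) • z t) t
  hN : ∀ t ∈ I, HasDerivAt z (-((pv a (x t) * q t) • y t)) t
  hk : ∀ t ∈ I, HasDerivAt q (m t) t
  hm : ∀ t ∈ I, HasDerivAt m (pv a (x t) ^ 2 * q t *
    (q t ^ 2 + ∑ i, (inner ℝ (a i) (z t) / dv a (x t) i) ^ 2)) t
  TT : ∀ t ∈ I, ‖y t‖ = 1
  NN : ∀ t ∈ I, ‖z t‖ = 1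
  TN : ∀ t ∈ I, inner ℝ (y t) (z t) = 0
  pos : ∀ t ∈ I, ∀ i, 0 < dv a (x t) i
  ray : ∀ t ∈ I, q t = (1 / 3) * ∑ i, inner ℝ (a i) (z t) / dv a (x t) i
  k0 : 0 < q 0
  m0 : 0 < m 0

end Pool.Agent.Lib.MP_3248c9_gt.Pn
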