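import Pool.Agent.Lib.MP_3248c9_gt.Pn.Defs

/-!
# The derivation on the basic polynomials, and evaluations

Plain computations with `MvPolynomial.mkDerivation_X`, the Leibniz rule for products (see `Hy/PDer.lean` for the planar
case: same proofs) and `eval`. `PiLp.inner_apply` / `EuclideanSpace.inner_eq_star_dotProduct`: `inner ℝ (a i) x = sum_j a i j * x j`
(mind the order: `real_inner` on `EuclideanSpace` is `sum_j inner (a i j) (x j)`, and `inner ℝ r s = s * r` for reals).
-/

set_option autoImplicit false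

namespace Pool.Agent.Lib.MP_3248c9_gt.Pn

open Finset MvPolynomial

variable {ι : Type} [Fintype ι] [DecidableEq ι] {k : ℕ} (a : ι → Ek k)

/-- The inner product in coordinates. -/
theorem inner_eq (x y : Ek k) : inner ℝ x y = ∑ j, x j * y j := by
  rw [PiLp.inner_apply]
  refine sum_congr rfl fun j _ => ?_
  simp [mul_comm]

theorem VF_X0 (j : Fin k) : VF a (X (0, j)) = PP a * X (1, j) := by
  rw [VF, mkDerivation_X, VFc, if_pos rfl]
theorem VF_X1 (j : Fin k) : VF a (X (1, j)) =
    GP a j - EP a * X (1, j) - 2 * KP a * X (2, j) := by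
  rw [VF, mkDerivation_X, VFc, if_neg (by simp), if_pos rfl]
theorem VF_X2 (j : Fin k) : VF a (X (2, j)) = -(KP a * X (1, j)) := by
  rw [VF, mkDerivation_X, VFc, if_neg (by simp), if_neg (by simp)]

theorem VF_dP (i : ι) : VF a (dP a i) = PP a * aT a i := by
  have h1 : ∀ r : ℝ, VF a (C r) = 0 := fun r => derivation_C _ r
  rw [dP, map_add, Derivation.map_one_eq_zero, zero_add, map_sum, aT, mul_sum]
  refine sum_congr rfl fun j _ => ?_
  rw [Derivation.leibniz, h1, VF_X0, smul_zero, add_zero, smul_eq_mul]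
  ring

theorem VF_aN (i : ι) : VF a (aN a i) = -(KP a * aT a i) := by
  have h1 : ∀ r : ℝ, VF a (C r) = 0 := fun r => derivation_C _ r
  rw [aN, map_sum, aT, mul_sum, ← sum_neg_distrib]
  refine sum_congr rfl fun j _ => ?_
  rw [Derivation.leibniz, h1, VF_X2, smul_zero, add_zero, smul_eq_mul]
  ring

theorem dP_mul_coP (i : ι) : dP a i * coP a i = PP a := by
  exact Finset.mul_prod_erase univ (dP a) (mem_univ i)

theorem VF_PP : VF a (PP a) = PP a * EP a := by
  have h1 : ∀ t : Finset ι, VF a (∏ i ∈ t, dP a i) =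
      ∑ i ∈ t, (∏ j ∈ t.erase i, dP a j) * VF a (dP a i) := by
    intro t
    induction t using Finset.induction_on with
    | empty => rw [prod_empty, sum_empty, Derivation.map_one_eq_zero]
    | insert i t hi ih =>
      rw [prod_insert hi, Derivation.leibniz, ih, sum_insert hi, erase_insert hi, smul_eq_mul,
        smul_eq_mul, mul_sum, add_comm]
      congr 1
      refine sum_congr rfl fun j hj => ?_
      have hij : i ≠ j := fun h => hi (h ▸ hj)
      rw [erase_insert_of_ne hij, prod_insert (fun h => hi (mem_of_mem_erase h)), mul_assoc]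
  rw [PP, h1, EP, mul_sum]
  refine sum_congr rfl fun i _ => ?_
  rw [VF_dP, PP, coP]
  ring

theorem eval_dP (x y z : Ek k) (i : ι) : eval (pt x y z) (dP a i) = dv a x i := by
  rw [dP, dv, map_add, map_one, map_sum, inner_eq]
  congr 1
  refine sum_congr rfl fun j _ => ?_
  rw [map_mul, eval_C, eval_X]
  rfl
theorem eval_PP (x y z : Ek k) : eval (pt x y z) (PP a) = pv a x := by
  rw [PP, pv, map_prod]
  exact prod_congr rfl fun i _ => eval_dP a x y z i
theorem eval_coP (x y z : Ek k) (i : ι) : eval (pt x y z) (coP a i) = cv a x i := by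
  rw [coP, cv, map_prod]
  exact prod_congr rfl fun i _ => eval_dP a x y z i
theorem eval_aT (x y z : Ek k) (i : ι) : eval (pt x y z) (aT a i) = inner ℝ (a i) y := by
  rw [aT, map_sum, inner_eq]
  refine sum_congr rfl fun j _ => ?_
  rw [map_mul, eval_C, eval_X]
  rfl
theorem eval_aN (x y z : Ek k) (i : ι) : eval (pt x y z) (aN a i) = inner ℝ (a i) z := by
  rw [aN, map_sum, inner_eq]
  refine sum_congr rfl fun j _ => ?_
  rw [map_mul, eval_C, eval_X]
  rfl

private theorem Gv_apply (x : Ek k) (j : Fin k) : Gv a x j = ∑ i, cv a x i * a i j := by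
  rw [Gv]
  simp

private theorem Gv_inner (x y : Ek k) : inner ℝ (Gv a x) y = ∑ i, cv a x i * inner ℝ (a i) y := by
  rw [Gv, sum_inner]
  refine sum_congr rfl fun i _ => ?_
  rw [real_inner_smul_left]

theorem eval_GP (x y z : Ek k) (j : Fin k) : eval (pt x y z) (GP a j) = Gv a x j := by
  rw [GP, Gv_apply, map_sum]
  refine sum_congr rfl fun i _ => ?_
  rw [map_mul, eval_C, eval_coP, mul_comm]
theorem eval_EP (x y z : Ek k) : eval (pt x y z) (EP a) = inner ℝ (Gv a x) y := by
  rw [EP, Gv_inner, map_sum]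
  refine sum_congr rfl fun i _ => ?_
  rw [map_mul, eval_aT, eval_coP, mul_comm]
theorem eval_KP (x y z : Ek k) : eval (pt x y z) (KP a) = Kv a x z := by
  rw [KP, Kv, Gv_inner, map_mul, eval_C, map_sum]
  congr 1
  refine sum_congr rfl fun i _ => ?_
  rw [map_mul, eval_aN, eval_coP, mul_comm]

/-- `c_i = P / d_i`. -/
theorem cv_eq {x : Ek k} (i : ι) (hi : dv a x i ≠ 0) : cv a x i = pv a x / dv a x i := by
  rw [eq_div_iff hi, cv, pv]
  exact Finset.prod_erase_mul univ (dv a x) (mem_univ i)

/-- `K = P * (1/3) sum <a_i, z>/d_i`. -/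
theorem Kv_eq {x : Ek k} (z : Ek k) (hi : ∀ i, dv a x i ≠ 0) :
    Kv a x z = pv a x * ((1 / 3) * ∑ i, inner ℝ (a i) z / dv a x i) := by
  rw [Kv, Gv_inner, mul_sum, mul_sum, mul_sum]
  refine sum_congr rfl fun i _ => ?_
  rw [cv_eq a i (hi i)]
  ring

end Pool.Agent.Lib.MP_3248c9_gt.Pn
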