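import Mathlib

/-!
# Simultaneous diagonalisation of a linear family of commuting symmetric operators

Let `b_j` be a basis of `Z` (`Fin (finrank Z)`). The operators `A (b_j)` are symmetric and commute pairwise:
`LinearMap.IsSymmetric.directSum_isInternal_of_pairwise_commute`, `LinearMap.IsSymmetric.orthogonalFamily_iInf_eigenspaces`,
`DirectSum.IsInternal.subordinateOrthonormalBasis` give an orthonormal basis `e_i` of common eigenvectors of all `A (b_j)`, hence of all `A c`, `c ∈ Z`:
`A c (e_i) = l_i(c) e_i`, `l_i(c) = <e_i, A c e_i>` (linear in `c`). Let `a_i` be minus the orthogonal projection onto `Z` of the vector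
representing the functional `c ↦ <e_i, A c e_i>` (`InnerProductSpace.toDual`). The twin with two operators is `Hy/Diag.lean`.
(If the `iInf` version is awkward: induction on the dimension of `F`, or diagonalise one generic element.)
-/

set_option autoImplicit false

namespace Pool.Agent.Lib.MP_3248c9_gt.Pn

open Module

/-- A commuting family of symmetric operators has an orthonormal basis of common eigenvectors. -/
theorem Diag_common {F : Type} [NormedAddCommGroup F] [InnerProductSpace ℝ F]
    [FiniteDimensional ℝ F] {n : Type} (T : n → F →ₗ[ℝ] F) (hT : ∀ i, (T i).IsSymmetric)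
    (hC : ∀ i j, T i * T j = T j * T i) :
    ∃ (e : OrthonormalBasis (Fin (finrank ℝ F)) ℝ F) (l : Fin (finrank ℝ F) → n → ℝ),
      ∀ c i, T c (e i) = l i c • e i := by
  classical
  let V : (n → ℝ) → Submodule ℝ F := fun α => ⨅ j, End.eigenspace (T j) (α j)
  have hV : DirectSum.IsInternal V :=
    LinearMap.IsSymmetric.directSum_isInternal_of_pairwise_commute hT (fun i j _ => hC i j)
  have hO : OrthogonalFamily ℝ (fun α => V α) fun α => (V α).subtypeₗᵢ :=
    LinearMap.IsSymmetric.orthogonalFamily_iInf_eigenspaces hT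
  have hfin : Set.Finite {α | V α ≠ ⊥} :=
    WellFoundedGT.finite_ne_bot_of_iSupIndep hV.submodule_iSupIndep
  have : Fintype {α // V α ≠ ⊥} := hfin.fintype
  have hV' : DirectSum.IsInternal (fun α : {α // V α ≠ ⊥} => V α) :=
    DirectSum.isInternal_ne_bot_iff.mpr hV
  have hO' : OrthogonalFamily ℝ (fun α : {α // V α ≠ ⊥} => V α)
      fun α => (V α).subtypeₗᵢ := hO.comp Subtype.val_injective
  refine ⟨hV'.subordinateOrthonormalBasis rfl hO',
    fun i => (hV'.subordinateOrthonormalBasisIndex rfl i hO').1, ?_⟩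
  intro c i
  have h1 := hV'.subordinateOrthonormalBasis_subordinate rfl i hO'
  have h2 := (Submodule.mem_iInf _).mp h1 c
  rw [End.mem_eigenspace_iff] at h2
  exact h2

theorem simdiag {F : Type} [NormedAddCommGroup F] [InnerProductSpace ℝ F] [FiniteDimensional ℝ F]
    (Z : Submodule ℝ F) (A : F →L[ℝ] (F →L[ℝ] F))
    (hs : ∀ c ∈ Z, ∀ w w', inner ℝ (A c w) w' = inner ℝ w (A c w'))
    (hc : ∀ c ∈ Z, ∀ c' ∈ Z, A c * A c' = A c' * A c) :
    ∃ (e : OrthonormalBasis (Fin (finrank ℝ F)) ℝ F) (a : Fin (finrank ℝ F) → F),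
      (∀ i, a i ∈ Z) ∧ ∀ c ∈ Z, ∀ i, A c (e i) = (-(inner ℝ (a i) c : ℝ)) • e i := by
  obtain ⟨e, l, hl⟩ := Diag_common (fun c : Z => ((A c : F →L[ℝ] F) : F →ₗ[ℝ] F))
    (fun c w w' => hs c c.2 w w') (fun c c' => by
      ext w
      exact congrArg (fun T : F →L[ℝ] F => T w) (hc c c.2 c' c'.2))
  let f : Fin (finrank ℝ F) → StrongDual ℝ F := fun i =>
    (innerSL ℝ (e i)).comp (A.flip (e i))
  let w : Fin (finrank ℝ F) → F := fun i => (InnerProductSpace.toDual ℝ F).symm (f i)
  have hw : ∀ i c, inner ℝ (w i) c = inner ℝ (e i) (A c (e i)) := fun i c =>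
    InnerProductSpace.toDual_symm_apply
  refine ⟨e, fun i => -(Z.starProjection (w i)), ?_, ?_⟩
  · intro i
    exact Z.neg_mem (Submodule.starProjection_apply_mem Z (w i))
  · intro c hcZ i
    have h1 : A c (e i) = l i ⟨c, hcZ⟩ • e i := hl ⟨c, hcZ⟩ i
    have h2 : inner ℝ (Z.starProjection (w i)) c = inner ℝ (w i) c := by
      rw [Submodule.inner_starProjection_left_eq_right, Submodule.starProjection_eq_self_iff.mpr hcZ]
    have h3 : inner ℝ (w i) c = l i ⟨c, hcZ⟩ := by
      rw [hw, h1, inner_smul_right, real_inner_self_eq_norm_sq, e.orthonormal.1 i]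
      ring
    rw [inner_neg_left, neg_neg, h2, h3, h1]

end Pool.Agent.Lib.MP_3248c9_gt.Pn
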