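import Pool.Agent.Lib.MP_3248c9_gt.Pn.Defs
import Pool.Agent.Lib.MP_3248c9_gt.Hy.Sys

/-!
# Nested balls

`ctr t = x + (1/q) z`. Its derivative is `P y - (m/q^2) z - (1/q) P q y = -(m/q^2) z`, of norm `m/q^2`, the derivative of
`-1/q` (use `norm_image_sub_le_of_norm_deriv_le_segment'`-type lemmas, e.g.
`image_norm_le_of_norm_deriv_right_le_deriv_boundary`; see `Hy/Nest.lean`, same proof).
* `m_mono`: `m' = P^2 q (..) >= 0` as long as `q >= 0`; `Hy.pos_of_system` with `w = P^2 (q^2 + sum ..)` gives `q > 0` and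
  `m 0 <= m t` (file `Hy/Sys.lean`; its `m' = w k`). For `r <= t`: `m r <= m t` (monotone: derivative `>= 0`, `q > 0` known).
* `k_lower`: `q' = m >= m 0`.
* `bdd`: `|x t - x 0| <= |x t - ctr t| + |ctr t - ctr 0| + |ctr 0 - x 0| = 1/q t + (1/q 0 - 1/q t) + 1/q 0 = 2/q 0`.
-/

set_option autoImplicit false

namespace Pool.Agent.Lib.MP_3248c9_gt.Pn

open Finset

variable {ι : Type} [Fintype ι] [DecidableEq ι] {k : ℕ} {a : ι → Ek k} {x y z : ℝ → Ek k}
  {q m : ℝ → ℝ}

/-- The centre of curvature in the direction `z`. -/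
noncomputable def ctr (x z : ℝ → Ek k) (q : ℝ → ℝ) (t : ℝ) : Ek k := x t + (1 / q t) • z t

/-- Restriction of a ray to a smaller time set. -/
theorem Ray.subset {I I' : Set ℝ} (h : Ray a I x y z q m) (hI : I' ⊆ I) :
    Ray a I' x y z q m where
  hX t ht := h.hX t (hI ht)
  hT t ht := h.hT t (hI ht)
  hN t ht := h.hN t (hI ht)
  hk t ht := h.hk t (hI ht)
  hm t ht := h.hm t (hI ht)
  TT t ht := h.TT t (hI ht)
  NN t ht := h.NN t (hI ht)
  TN t ht := h.TN t (hI ht)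
  pos t ht := h.pos t (hI ht)
  ray t ht := h.ray t (hI ht)
  k0 := h.k0
  m0 := h.m0

private theorem Ray.pos_Nest {T : ℝ} (h : Ray a (Set.Icc 0 T) x y z q m) :
    ∀ t ∈ Set.Icc (0 : ℝ) T, 0 < q t ∧ m 0 ≤ m t := by
  refine Hy.pos_of_system q m (fun t => pv a (x t) ^ 2 *
    (q t ^ 2 + ∑ i, (inner ℝ (a i) (z t) / dv a (x t) i) ^ 2)) T h.hk ?_ ?_ h.k0 h.m0
  · intro t ht
    refine (h.hm t ht).congr_deriv ?_
    ring
  · intro t _
    exact mul_nonneg (sq_nonneg _)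
      (add_nonneg (sq_nonneg _) (Finset.sum_nonneg fun i _ => sq_nonneg _))

theorem Ray.q_pos {T : ℝ} (h : Ray a (Set.Icc 0 T) x y z q m) {t : ℝ}
    (ht : t ∈ Set.Icc (0 : ℝ) T) : 0 < q t := (h.pos_Nest t ht).1

theorem Ray.m_mono {T : ℝ} (h : Ray a (Set.Icc 0 T) x y z q m) {r t : ℝ} (hr : 0 ≤ r)
    (hrt : r ≤ t) (ht : t ≤ T) : m r ≤ m t := by
  have hmono : MonotoneOn m (Set.Icc 0 T) := by
    apply monotoneOn_of_deriv_nonneg (convex_Icc 0 T)
    · exact fun s hs => (h.hm s hs).continuousAt.continuousWithinAt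
    · exact fun s hs => (h.hm s (interior_subset hs)).differentiableAt.differentiableWithinAt
    · intro s hs
      have hs' := interior_subset hs
      rw [(h.hm s hs').deriv]
      exact mul_nonneg (mul_nonneg (sq_nonneg _) (h.q_pos hs').le)
        (add_nonneg (sq_nonneg _) (Finset.sum_nonneg fun i _ => sq_nonneg _))
  exact hmono ⟨hr, hrt.trans ht⟩ ⟨hr.trans hrt, ht⟩ hrt

theorem Ray.k_lower {T : ℝ} (h : Ray a (Set.Icc 0 T) x y z q m) {t : ℝ}
    (ht : t ∈ Set.Icc (0 : ℝ) T) : q 0 + m 0 * t ≤ q t := by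
  have hd : ∀ x ∈ Set.Icc (0 : ℝ) T, HasDerivAt (fun x => q x - m 0 * x) (m x - m 0) x := by
    intro x hx
    have h1 := (h.hk x hx).sub ((hasDerivAt_id x).const_mul (m 0))
    exact h1.congr_deriv (by simp)
  have hmono : MonotoneOn (fun x => q x - m 0 * x) (Set.Icc 0 T) := by
    apply monotoneOn_of_deriv_nonneg (convex_Icc 0 T)
    · exact fun x hx => (hd x hx).continuousAt.continuousWithinAt
    · exact fun x hx => (hd x (interior_subset hx)).differentiableAt.differentiableWithinAt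
    · intro x hx
      rw [(hd x (interior_subset hx)).deriv]
      have := (h.pos_Nest x (interior_subset hx)).2
      linarith
  have h0 : (0 : ℝ) ∈ Set.Icc (0 : ℝ) T := ⟨le_rfl, ht.1.trans ht.2⟩
  have := hmono h0 ht ht.1
  simp only [mul_zero, sub_zero] at this
  linarith

private theorem Ray.ctr_deriv_Nest {T : ℝ} (h : Ray a (Set.Icc 0 T) x y z q m) {t : ℝ}
    (ht : t ∈ Set.Icc (0 : ℝ) T) :
    HasDerivAt (ctr x z q) (-((m t / q t ^ 2) • z t)) t := by
  have hne : q t ≠ 0 := (h.q_pos ht).ne'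
  have h1 : HasDerivAt (fun s => 1 / q s) (-(m t / q t ^ 2)) t := by
    have h2 := (h.hk t ht).inv hne
    have h3 : (fun s => 1 / q s) = fun s => (q s)⁻¹ := by
      funext s
      rw [one_div]
    rw [h3]
    refine h2.congr_deriv ?_
    rw [neg_div]
  have h2 := (h.hX t ht).add (h1.smul (h.hN t ht))
  refine h2.congr_deriv ?_
  have h3 : (1 / q t) • (-((pv a (x t) * q t) • y t)) = -(pv a (x t) • y t) := by
    rw [smul_neg, smul_smul]
    congr 2
    field_simp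
  rw [h3, neg_smul]
  abel

theorem Ray.nested {T : ℝ} (h : Ray a (Set.Icc 0 T) x y z q m) {r t : ℝ}
    (hr : 0 ≤ r) (hrt : r ≤ t) (ht : t ≤ T) :
    ‖ctr x z q t - ctr x z q r‖ ≤ 1 / q r - 1 / q t := by
  have hmem : ∀ s ∈ Set.Icc r t, s ∈ Set.Icc (0 : ℝ) T := fun s hs =>
    ⟨hr.trans hs.1, hs.2.trans ht⟩
  have hf : ∀ s ∈ Set.Icc r t, HasDerivAt (fun s => ctr x z q s - ctr x z q r)
      (-((m s / q s ^ 2) • z s)) s := fun s hs =>
    (h.ctr_deriv_Nest (hmem s hs)).sub_const _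
  have hB : ∀ s ∈ Set.Icc r t, HasDerivAt (fun s => 1 / q r - 1 / q s) (m s / q s ^ 2) s := by
    intro s hs
    have hne : q s ≠ 0 := (h.q_pos (hmem s hs)).ne'
    have h1 := ((h.hk s (hmem s hs)).inv hne).const_sub (1 / q r)
    have h2 : (fun s => 1 / q r - 1 / q s) = fun s => 1 / q r - (q s)⁻¹ := by
      funext s; rw [one_div (q s)]
    rw [h2]
    refine h1.congr_deriv ?_
    field_simp
  have key := image_norm_le_of_norm_deriv_right_le_deriv_boundary'
    (f := fun s => ctr x z q s - ctr x z q r)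
    (f' := fun s => -((m s / q s ^ 2) • z s))
    (a := r) (b := t) (B := fun s => 1 / q r - 1 / q s) (B' := fun s => m s / q s ^ 2)
    (fun s hs => (hf s hs).continuousAt.continuousWithinAt)
    (fun s hs => (hf s ⟨hs.1, hs.2.le⟩).hasDerivWithinAt)
    (by simp)
    (fun s hs => (hB s hs).continuousAt.continuousWithinAt)
    (fun s hs => (hB s ⟨hs.1, hs.2.le⟩).hasDerivWithinAt)
    (by
      intro s hs
      have hs' := hmem s ⟨hs.1, hs.2.le⟩
      rw [norm_neg, norm_smul, h.NN s hs', mul_one, Real.norm_eq_abs, abs_of_nonneg]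
      exact div_nonneg (h.m0.le.trans (h.pos_Nest s hs').2) (sq_nonneg _))
  exact key ⟨hrt, le_rfl⟩

private theorem Ray.dist_Nest {T : ℝ} (h : Ray a (Set.Icc 0 T) x y z q m) {t : ℝ}
    (ht : t ∈ Set.Icc (0 : ℝ) T) : ‖x t - ctr x z q t‖ = 1 / q t := by
  rw [ctr, sub_add_cancel_left, norm_neg, norm_smul, h.NN t ht, mul_one, Real.norm_eq_abs,
    abs_of_pos (one_div_pos.2 (h.q_pos ht))]

/-- The curve stays within distance `2 / q 0` of its initial point. -/
theorem Ray.bdd {T : ℝ} (h : Ray a (Set.Icc 0 T) x y z q m) {t : ℝ}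
    (ht : t ∈ Set.Icc (0 : ℝ) T) : ‖x t - x 0‖ ≤ 2 / q 0 := by
  have hn := h.nested le_rfl ht.1 ht.2
  have h0 : (0 : ℝ) ∈ Set.Icc (0 : ℝ) T := ⟨le_rfl, ht.1.trans ht.2⟩
  have h1 := h.dist_Nest ht
  have h2 := h.dist_Nest h0
  have h3 : x t - x 0 = (x t - ctr x z q t) + (ctr x z q t - ctr x z q 0)
      - (x 0 - ctr x z q 0) := by abel
  have h4 : ‖x t - x 0‖ ≤ ‖x t - ctr x z q t‖ + ‖ctr x z q t - ctr x z q 0‖
      + ‖x 0 - ctr x z q 0‖ := by
    rw [h3]
    exact (norm_sub_le _ _).trans (add_le_add_left (norm_add_le _ _) _)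
  have h5 : 2 / q 0 = 1 / q 0 + 1 / q 0 := by ring
  rw [h1, h2] at h4
  linarith

end Pool.Agent.Lib.MP_3248c9_gt.Pn
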