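import Pool.Agent.Lib.MP_3248c9_gt.Pn.RayOf
import Pool.Agent.Lib.MP_3248c9_gt.Pn.Nest
import Pool.Agent.Lib.MP_3248c9_gt.Pn.Clamp

/-!
# The ray exists for all positive times

Let `k0 = eval (pt 0 y0 z0) (KP a) > 0`, `b = max (2/k0) 1`, `R = b + 1`. Take the solution `Z : ℝ → Fin 3 × Fin k → ℝ` of
`exists_clamped` for the components `VFc a` with `Z 0 = pt 0 y0 z0`, and let `x, y, z : ℝ → Ek k` be its three parts
(`WithLp.toLp 2 fun j => Z t (0, j)` etc.), so `Z t = pt (x t) (y t) (z t)`. As long as `‖Z‖ <= R` the clamp is the identity and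
`(x, y, z)` is a `Sol` (`mkDerivation_X`/`VF_X0..`, `eval_..`; the derivative of a curve in `EuclideanSpace` from its coordinates:
`hasDerivAt_euclidean`-type lemma, or `hasDerivAt_pi` transported by `WithLp`), so a `Ray` by `ray_of_solution`, and
`Ray.bdd`, `TT`, `NN` give `|x| <= 2/k0`, `|y| = |z| = 1`, so `‖Z t‖ <= b` (`|x j| <= ‖x‖`: `PiLp.norm_apply_le` or `EuclideanSpace.norm_eq`).
`stay` gives this for all `t >= 0`.
-/

set_option autoImplicit false

namespace Pool.Agent.Lib.MP_3248c9_gt.Pn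

open Finset MvPolynomial

variable {ι : Type} [Fintype ι] [DecidableEq ι] {k : ℕ} (a : ι → Ek k)

private theorem exi_norm_pt {k : ℕ} (x y z : Ek k) (b : ℝ) (hb : 0 ≤ b) (hx : ‖x‖ ≤ b)
    (hy : ‖y‖ ≤ b) (hz : ‖z‖ ≤ b) : ‖pt x y z‖ ≤ b := by
  rw [pi_norm_le_iff_of_nonneg hb]
  rintro ⟨i, j⟩
  fin_cases i
  · exact (PiLp.norm_apply_le x j).trans hx
  · exact (PiLp.norm_apply_le y j).trans hy
  · exact (PiLp.norm_apply_le z j).trans hz

private theorem exi_deriv {k : ℕ} (g : ℝ → Fin k → ℝ) (g' : Ek k) (t : ℝ)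
    (h : ∀ j, HasDerivAt (fun s => g s j) (g' j) t) :
    HasDerivAt (fun s => (WithLp.toLp 2 (g s) : Ek k)) g' t := by
  have h1 : HasDerivAt g (fun j => g' j) t := hasDerivAt_pi.mpr h
  exact (EuclideanSpace.equiv (Fin k) ℝ).symm.toContinuousLinearMap.hasFDerivAt.comp_hasDerivAt t h1

theorem exists_ray (y0 z0 : Ek k) (hy : ‖y0‖ = 1) (hz : ‖z0‖ = 1) (hyz : inner ℝ y0 z0 = 0)
    (hK : 0 < eval (pt 0 y0 z0) (KP a)) (hM : 0 < eval (pt 0 y0 z0) (MP a))
    (hF : ∀ j : ℕ, eval (pt 0 y0 z0) ((VF a)^[j] (FP a)) = 0) :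
    ∃ (x y z : ℝ → Ek k) (q m : ℝ → ℝ), Ray a (Set.Ici 0) x y z q m := by
  set b : ℝ := max (2 / eval (pt 0 y0 z0) (KP a)) 1 with hbdef
  have hb1 : 1 ≤ b := le_max_right _ _
  have hb0 : 0 ≤ b := by linarith
  obtain ⟨Z, hZ0, hZd⟩ := exists_clamped (b + 1) (by linarith) (VFc a) (pt 0 y0 z0)
  set x : ℝ → Ek k := fun t => WithLp.toLp 2 fun j => Z t (0, j) with hxdef
  set y : ℝ → Ek k := fun t => WithLp.toLp 2 fun j => Z t (1, j) with hydef
  set z : ℝ → Ek k := fun t => WithLp.toLp 2 fun j => Z t (2, j) with hzdef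
  have hZ : ∀ t, Z t = pt (x t) (y t) (z t) := by
    intro t
    funext p
    obtain ⟨i, j⟩ := p
    fin_cases i
    · rfl
    · rfl
    · rfl
  have hx0 : x 0 = 0 := by
    ext j
    change Z 0 (0, j) = 0
    rw [hZ0]
    rfl
  have hy0 : y 0 = y0 := by
    ext j
    change Z 0 (1, j) = y0 j
    rw [hZ0]
    rfl
  have hz0 : z 0 = z0 := by
    ext j
    change Z 0 (2, j) = z0 j
    rw [hZ0]
    rfl
  have hp : pv a (0 : Ek k) = 1 := by
    unfold pv
    refine Finset.prod_eq_one fun i _ => ?_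
    unfold dv
    rw [inner_zero_right, add_zero]
  -- as long as the curve stays in the ball it is a ray
  have key : ∀ T : ℝ, 0 ≤ T → (∀ t ∈ Set.Icc (0 : ℝ) T, ‖Z t‖ ≤ b + 1) →
      Ray a (Set.Icc 0 T) x y z (fun t => Kv a (x t) (z t) / pv a (x t))
        (fun t => eval (pt (x t) (y t) (z t)) (MP a) / pv a (x t)) := by
    intro T hT hbox
    have hd : ∀ t ∈ Set.Icc (0 : ℝ) T, ∀ p,
        HasDerivAt (fun s => Z s p) (eval (pt (x t) (y t) (z t)) (VFc a p)) t := by
      intro t ht p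
      have h := hZd t p
      rwa [cl_self (hbox t ht), hZ t] at h
    have hsol : Sol a (Set.Icc 0 T) x y z := by
      refine ⟨?_, ?_, ?_, hx0, by rw [hy0]; exact hy, by rw [hz0]; exact hz, by
        rw [hy0, hz0]; exact hyz⟩
      · intro t ht
        refine exi_deriv (fun s j => Z s (0, j)) _ t fun j => ?_
        have h := hd t ht (0, j)
        have e : eval (pt (x t) (y t) (z t)) (VFc a (0, j)) = (pv a (x t) • y t : Ek k) j := by
          rw [VFc, if_pos rfl, map_mul, eval_PP, eval_X]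
          rfl
        rwa [e] at h
      · intro t ht
        refine exi_deriv (fun s j => Z s (1, j)) _ t fun j => ?_
        have h := hd t ht (1, j)
        have e : eval (pt (x t) (y t) (z t)) (VFc a (1, j))
            = (Gv a (x t) - (inner ℝ (Gv a (x t)) (y t) : ℝ) • y t -
              (2 * Kv a (x t) (z t)) • z t : Ek k) j := by
          rw [VFc, if_neg (show ¬ (1 : Fin 3) = 0 by decide), if_pos rfl, map_sub, map_sub, map_mul, map_mul, map_mul,
            eval_GP, eval_EP, eval_KP, eval_X, eval_X, map_ofNat]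
          rfl
        rwa [e] at h
      · intro t ht
        refine exi_deriv (fun s j => Z s (2, j)) _ t fun j => ?_
        have h := hd t ht (2, j)
        have e : eval (pt (x t) (y t) (z t)) (VFc a (2, j))
            = (-(Kv a (x t) (z t) • y t) : Ek k) j := by
          rw [VFc, if_neg (show ¬ (2 : Fin 3) = 0 by decide), if_neg (show ¬ (2 : Fin 3) = 1 by decide), map_neg, map_mul, eval_KP, eval_X]
          rfl
        rwa [e] at h
    refine ray_of_solution hT hsol ?_ ?_ ?_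
    · rw [hy0, hz0]; exact hK
    · rw [hy0, hz0]; exact hM
    · rw [hy0, hz0]; exact hF
  have key2 : ∀ T : ℝ, 0 ≤ T → (∀ t ∈ Set.Icc (0 : ℝ) T, ‖Z t‖ ≤ b + 1) → ‖Z T‖ ≤ b := by
    intro T hT hbox
    have hr := key T hT hbox
    have h := hr.bdd (t := T) ⟨hT, le_rfl⟩
    have e : Kv a (x 0) (z 0) / pv a (x 0) = eval (pt 0 y0 z0) (KP a) := by
      rw [hx0, hz0, hp, div_one, eval_KP]
    beta_reduce at h
    rw [e, hx0, sub_zero] at h
    rw [hZ T]
    refine exi_norm_pt _ _ _ b hb0 (h.trans (le_max_left _ _)) ?_ ?_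
    · rw [hr.TT T ⟨hT, le_rfl⟩]; exact hb1
    · rw [hr.NN T ⟨hT, le_rfl⟩]; exact hb1
  have hZc : Continuous Z := continuous_pi fun p =>
    continuous_iff_continuousAt.mpr fun t => (hZd t p).continuousAt
  have h0 : ‖Z 0‖ ≤ b := by
    rw [hZ0]
    refine exi_norm_pt _ _ _ b hb0 ?_ ?_ ?_
    · rw [norm_zero]; exact hb0
    · rw [hy]; exact hb1
    · rw [hz]; exact hb1
  have hstay := stay (R := b + 1) (b := b) (by linarith) hZc h0 key2
  have hR' : ∀ T : ℝ, 0 ≤ T → Ray a (Set.Icc 0 T) x y z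
      (fun t => Kv a (x t) (z t) / pv a (x t))
      (fun t => eval (pt (x t) (y t) (z t)) (MP a) / pv a (x t)) :=
    fun T hT => key T hT fun t ht => (hstay t ht.1).trans (by linarith)
  exact ⟨x, y, z, fun t => Kv a (x t) (z t) / pv a (x t),
    fun t => eval (pt (x t) (y t) (z t)) (MP a) / pv a (x t),
    { hX := fun t ht => (hR' t ht).hX t ⟨ht, le_rfl⟩
      hT := fun t ht => (hR' t ht).hT t ⟨ht, le_rfl⟩
      hN := fun t ht => (hR' t ht).hN t ⟨ht, le_rfl⟩
      hk := fun t ht => (hR' t ht).hk t ⟨ht, le_rfl⟩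
      hm := fun t ht => (hR' t ht).hm t ⟨ht, le_rfl⟩
      TT := fun t ht => (hR' t ht).TT t ⟨ht, le_rfl⟩
      NN := fun t ht => (hR' t ht).NN t ⟨ht, le_rfl⟩
      TN := fun t ht => (hR' t ht).TN t ⟨ht, le_rfl⟩
      pos := fun t ht => (hR' t ht).pos t ⟨ht, le_rfl⟩
      ray := fun t ht => (hR' t ht).ray t ⟨ht, le_rfl⟩
      k0 := (hR' 0 le_rfl).k0
      m0 := (hR' 0 le_rfl).m0 }⟩

end Pool.Agent.Lib.MP_3248c9_gt.Pn
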