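import Pool.Agent.Lib.MP_3248c9_gt.Pn.GDefs

/-!
# Basic facts on patches with a parallel unit normal

Model: `Hy/GBasic.lean` (many proofs are the same; `GBasic_diff`, `GBasic_const`, `gfr_*` of `Hy` may be used).
* `Tf_symm`: `<w, Tf w'> = <w, Df (J w')> = <Tf w, Df (J w')> = <Tf w, Tf w'>` by `orth`; symmetric.
* `Tf_N`: `<Tf N, w'> = <N, Tf w'> = 0` by `normal`.  `J_of_Tf`: `J w = J (Df (J w)) = J (Tf w)`.
* `Sh w = - DN (J w)`: tangential by `par`, zero on normals by `J_of_Tf`.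
* `Sh_symm`: `<Sh w, w'> = <Sh w, Tf w'> = - <DN (J w), Df (J w')> = <N, D^2f (J w, J w')>` (differentiate `normal`), symmetric.
* `DJ`: differentiate `J (Df v) = v`.
* `gr_tan`: `<gr, w> = D ph (J w)` and `J w = J (Tf w)`.
-/

set_option autoImplicit false

namespace Pool.Agent.Lib.MP_3248c9_gt.Pn

open Set Pool.Agent.Lib.MP_3248c9_gt.Hy
open scoped ContDiff

variable {E F : Type} [NormedAddCommGroup E] [NormedSpace ℝ E] [FiniteDimensional ℝ E]
  [NormedAddCommGroup F] [InnerProductSpace ℝ F] [FiniteDimensional ℝ F] [CompleteSpace F]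
  {U : Set E} {f N : E → F} {J : E → F →L[ℝ] E} {x : E}

theorem Pat.f2_symm (h : Pat U f N J) (hx : x ∈ U) (v w : E) :
    fderiv ℝ (fderiv ℝ f) x v w = fderiv ℝ (fderiv ℝ f) x w v := by
  have h1 : ContDiffAt ℝ ∞ f x := h.fs.contDiffAt (h.op.mem_nhds hx)
  refine h1.isSymmSndFDerivAt ?_ v w
  rw [minSmoothness_of_isRCLikeNormedField]
  norm_cast

theorem Pat.N2_symm (h : Pat U f N J) (hx : x ∈ U) (v w : E) :
    fderiv ℝ (fderiv ℝ N) x v w = fderiv ℝ (fderiv ℝ N) x w v := by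
  have h1 : ContDiffAt ℝ ∞ N x := h.Ns.contDiffAt (h.op.mem_nhds hx)
  refine h1.isSymmSndFDerivAt ?_ v w
  rw [minSmoothness_of_isRCLikeNormedField]
  norm_cast

theorem Pat.Df_smooth (h : Pat U f N J) : ContDiffOn ℝ ∞ (fderiv ℝ f) U := by
  exact h.fs.fderiv_of_isOpen h.op (by simp)

theorem Pat.Tf_smooth (h : Pat U f N J) : ContDiffOn ℝ ∞ (Tf f J) U := by
  exact h.Df_smooth.clm_comp h.Js

theorem Pat.Sh_smooth (h : Pat U f N J) : ContDiffOn ℝ ∞ (Sh N J) U := by
  exact ((h.Ns.fderiv_of_isOpen h.op (by simp)).clm_comp h.Js).neg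

theorem Pat.ph_smooth (h : Pat U f N J) : ContDiffOn ℝ ∞ (ph N J) U := by
  exact tr_smooth.comp_contDiffOn h.Sh_smooth

theorem Pat.gr_smooth (h : Pat U f N J) : ContDiffOn ℝ ∞ (gr N J) U := by
  have h1 : ContDiffOn ℝ ∞ (fun x => (fderiv ℝ (ph N J) x).comp (J x)) U :=
    (h.ph_smooth.fderiv_of_isOpen h.op (by simp)).clm_comp h.Js
  exact (GBasic_dualL F).contDiff.comp_contDiffOn h1

theorem Pat.Tf_Df (h : Pat U f N J) (hx : x ∈ U) (v : E) :
    Tf f J x (fderiv ℝ f x v) = fderiv ℝ f x v := by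
  rw [Tf, ContinuousLinearMap.comp_apply, h.left x hx]

theorem Pat.Tf_Tf (h : Pat U f N J) (hx : x ∈ U) (w : F) : Tf f J x (Tf f J x w) = Tf f J x w := by
  have h1 : Tf f J x w = fderiv ℝ f x (J x w) := rfl
  rw [h1, h.Tf_Df hx]

theorem Pat.J_Tf (h : Pat U f N J) (hx : x ∈ U) (w : F) : J x (Tf f J x w) = J x w := by
  have h1 : Tf f J x w = fderiv ℝ f x (J x w) := rfl
  rw [h1, h.left x hx]

theorem Pat.Tf_symm (h : Pat U f N J) (hx : x ∈ U) (w w' : F) :
    inner ℝ (Tf f J x w) w' = inner ℝ w (Tf f J x w') := by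
  have key : ∀ w w' : F, inner ℝ w (Tf f J x w') = inner ℝ (Tf f J x w) (Tf f J x w') := by
    intro w w'
    have h1 : Tf f J x w' = fderiv ℝ f x (J x w') := rfl
    rw [h1, h.orth x hx]
  rw [key w w', real_inner_comm w', key w' w, real_inner_comm]

theorem Pat.Tf_N (h : Pat U f N J) (hx : x ∈ U) : Tf f J x (N x) = 0 := by
  have h1 : inner ℝ (Tf f J x (N x)) (Tf f J x (N x)) = (0 : ℝ) := by
    have h2 : Tf f J x (N x) = fderiv ℝ f x (J x (N x)) := rfl
    conv_lhs => rw [h2, ← h2]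
    have h3 : inner ℝ (Tf f J x (N x)) (fderiv ℝ f x (J x (N x))) = (0 : ℝ) := by
      rw [h.orth x hx, h.normal x hx]
    exact h3
  exact inner_self_eq_zero.1 h1

theorem Pat.J_of_Tf (h : Pat U f N J) (hx : x ∈ U) {w : F} (hw : Tf f J x w = 0) : J x w = 0 := by
  rw [← h.J_Tf hx w, hw, map_zero]

theorem Pat.DN_eq (h : Pat U f N J) (hx : x ∈ U) (v : E) :
    fderiv ℝ N x v = -Sh N J x (fderiv ℝ f x v) := by
  rw [Sh, ContinuousLinearMap.neg_apply, ContinuousLinearMap.comp_apply, h.left x hx, neg_neg]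

theorem Pat.Sh_nrm (h : Pat U f N J) (hx : x ∈ U) {w : F} (hw : Tf f J x w = 0) :
    Sh N J x w = 0 := by
  rw [Sh, ContinuousLinearMap.neg_apply, ContinuousLinearMap.comp_apply, h.J_of_Tf hx hw,
    map_zero, neg_zero]

theorem Pat.Sh_Tf (h : Pat U f N J) (hx : x ∈ U) (w : F) : Sh N J x (Tf f J x w) = Sh N J x w := by
  rw [Sh, ContinuousLinearMap.neg_apply, ContinuousLinearMap.comp_apply, h.J_Tf hx,
    ContinuousLinearMap.neg_apply, ContinuousLinearMap.comp_apply]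

theorem Pat.Tf_Sh (h : Pat U f N J) (hx : x ∈ U) (w : F) : Tf f J x (Sh N J x w) = Sh N J x w := by
  rw [Sh, ContinuousLinearMap.neg_apply, ContinuousLinearMap.comp_apply, map_neg, h.par x hx]

theorem Pat.DN_Df (h : Pat U f N J) (hx : x ∈ U) (v v' : E) :
    inner ℝ (fderiv ℝ N x v) (fderiv ℝ f x v') =
      -inner ℝ (N x) (fderiv ℝ (fderiv ℝ f) x v v') := by
  have h1 := GBasic_const (g := fun y => inner ℝ (N y) (fderiv ℝ f y v')) h.op
    (fun y hy => h.normal y hy v') hx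
  have h2 := GBasic_diff h.op h.Ns hx
  have h3 := GBasic_diff h.op h.Df_smooth hx
  have h4 : HasFDerivAt (fun y => fderiv ℝ f y v')
      ((ContinuousLinearMap.apply ℝ F v').comp (fderiv ℝ (fderiv ℝ f) x)) x :=
    (ContinuousLinearMap.apply ℝ F v').hasFDerivAt.comp x h3.hasFDerivAt
  have h5 := fderiv_inner_apply ℝ h2 h4.differentiableAt v
  rw [h1, ContinuousLinearMap.zero_apply, h4.fderiv, ContinuousLinearMap.comp_apply,
    ContinuousLinearMap.apply_apply] at h5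
  linarith

theorem Pat.Sh_symm (h : Pat U f N J) (hx : x ∈ U) (w w' : F) :
    inner ℝ (Sh N J x w) w' = inner ℝ w (Sh N J x w') := by
  have key : ∀ w w' : F, inner ℝ (Sh N J x w) w' =
      inner ℝ (N x) (fderiv ℝ (fderiv ℝ f) x (J x w) (J x w')) := by
    intro w w'
    have h2 : inner ℝ (Sh N J x w) w' = inner ℝ (Sh N J x w) (fderiv ℝ f x (J x w')) := by
      conv_lhs => rw [← h.Tf_Sh hx w, h.Tf_symm hx]
      rfl
    rw [h2, Sh, ContinuousLinearMap.neg_apply, ContinuousLinearMap.comp_apply, inner_neg_left,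
      h.DN_Df hx, neg_neg]
  rw [key, real_inner_comm (Sh N J x w') w, key, h.f2_symm hx]

theorem Pat.DJ (h : Pat U f N J) (hx : x ∈ U) (k v : E) :
    fderiv ℝ J x k (fderiv ℝ f x v) = -J x (fderiv ℝ (fderiv ℝ f) x k v) := by
  have h1 := GBasic_const (g := fun y => J y (fderiv ℝ f y v)) h.op
    (fun y hy => h.left y hy v) hx
  have h2 := GBasic_diff h.op h.Js hx
  have h3 := GBasic_diff h.op h.Df_smooth hx
  have h4 : HasFDerivAt (fun y => fderiv ℝ f y v)
      ((ContinuousLinearMap.apply ℝ F v).comp (fderiv ℝ (fderiv ℝ f) x)) x :=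
    (ContinuousLinearMap.apply ℝ F v).hasFDerivAt.comp x h3.hasFDerivAt
  have h5 := (h2.hasFDerivAt.clm_apply h4).fderiv
  rw [h1] at h5
  have h6 := congrArg (fun L : E →L[ℝ] E => L k) h5
  simp only [ContinuousLinearMap.zero_apply, ContinuousLinearMap.add_apply,
    ContinuousLinearMap.comp_apply, ContinuousLinearMap.flip_apply,
    ContinuousLinearMap.apply_apply] at h6
  rw [eq_neg_iff_add_eq_zero, add_comm]
  exact h6.symm

theorem Pat.gr_inner (h : Pat U f N J) (hx : x ∈ U) (w : F) :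
    inner ℝ (gr N J x) w = fderiv ℝ (ph N J) x (J x w) := by
  rw [gr, InnerProductSpace.toDual_symm_apply, ContinuousLinearMap.comp_apply]

theorem Pat.gr_tan (h : Pat U f N J) (hx : x ∈ U) : Tf f J x (gr N J x) = gr N J x := by
  refine ext_inner_right ℝ fun w => ?_
  rw [h.Tf_symm hx, h.gr_inner hx, h.gr_inner hx, h.J_Tf hx]

theorem Pat.dph (h : Pat U f N J) (hx : x ∈ U) (v : E) :
    fderiv ℝ (ph N J) x v = inner ℝ (gr N J x) (fderiv ℝ f x v) := by
  rw [h.gr_inner hx, h.left x hx]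

/-- Two tangent vectors with equal products with all `Df v` are equal. -/
theorem Pat.ext_tan (h : Pat U f N J) (hx : x ∈ U) {w w' : F}
    (hw : Tf f J x w = w) (hw' : Tf f J x w' = w')
    (hv : ∀ v, inner ℝ w (fderiv ℝ f x v) = inner ℝ w' (fderiv ℝ f x v)) : w = w' := by
  have h2 := hv (J x (w - w'))
  have h3 : fderiv ℝ f x (J x (w - w')) = w - w' := by
    have h4 : fderiv ℝ f x (J x (w - w')) = Tf f J x (w - w') := rfl
    rw [h4, map_sub, hw, hw']
  rw [h3] at h2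
  have h5 : inner ℝ (w - w') (w - w') = (0 : ℝ) := by
    rw [inner_sub_left, h2, sub_self]
  exact sub_eq_zero.1 (inner_self_eq_zero.1 h5)

end Pool.Agent.Lib.MP_3248c9_gt.Pn
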