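import Pool.Agent.Lib.MP_3248c9_gt.Pn.GTf

/-!
# The Codazzi equations of the parallel normal

Model: `Hy/GCod.lean`.
`cod_eq`: from `Sh = - DN ∘ J` and `DJ`: `(D_k Sh)(Df v) = - D^2N(k, v) + DN (J (D^2f(k, v)))`. `cod12`: symmetric in `k, v`.
`cod23`: `Sh` is symmetric on all of `F`, so its derivative is. `trace_DSh`: `tr (D_k Sh) = D_k ph` (`fderiv_tr`).
`tr_DSh_Tf`: differentiate `Sh Tf = Sh`: `D_k Sh = (D_k Sh) Tf + Sh (D_k Tf)`; the operator `A = Sh (D_k Tf)` satisfies `A Tf = 0`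
(`DT_tan`, `Sh_nrm`) and `Tf A = A`, so `tr A = tr (Tf A) = tr (A Tf) = 0`.
-/

set_option autoImplicit false

namespace Pool.Agent.Lib.MP_3248c9_gt.Pn

open Set Pool.Agent.Lib.MP_3248c9_gt.Hy
open scoped ContDiff

variable {E F : Type} [NormedAddCommGroup E] [NormedSpace ℝ E] [FiniteDimensional ℝ E]
  [NormedAddCommGroup F] [InnerProductSpace ℝ F] [FiniteDimensional ℝ F] [CompleteSpace F]
  {U : Set E} {f N : E → F} {J : E → F →L[ℝ] E} {x : E}

private theorem GCod_diffSh (h : Pat U f N J) (hx : x ∈ U) : DifferentiableAt ℝ (Sh N J) x :=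
  GBasic_diff h.op h.Sh_smooth hx

private theorem GCod_diffDN (h : Pat U f N J) (hx : x ∈ U) :
    DifferentiableAt ℝ (fderiv ℝ N) x := by
  have h1 : ContDiffOn ℝ ∞ (fderiv ℝ N) U := h.Ns.fderiv_of_isOpen h.op (by simp)
  exact GBasic_diff h.op h1 hx

theorem Pat.cod_eq (h : Pat U f N J) (hx : x ∈ U) (k v : E) :
    fderiv ℝ (Sh N J) x k (fderiv ℝ f x v) =
      -(fderiv ℝ (fderiv ℝ N) x k v) + fderiv ℝ N x (J x (fderiv ℝ (fderiv ℝ f) x k v)) := by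
  have h1 := ((GCod_diffDN h hx).hasFDerivAt.clm_comp (GBasic_diff h.op h.Js hx).hasFDerivAt).neg
  have h2 : HasFDerivAt (Sh N J) _ x := h1
  rw [h2.fderiv]
  simp only [neg_apply, add_apply,
    ContinuousLinearMap.comp_apply, ContinuousLinearMap.compL_apply,
    ContinuousLinearMap.flip_apply]
  rw [h.DJ hx, h.left x hx, map_neg]
  abel

theorem Pat.cod12 (h : Pat U f N J) (hx : x ∈ U) (k v : E) :
    fderiv ℝ (Sh N J) x k (fderiv ℝ f x v) = fderiv ℝ (Sh N J) x v (fderiv ℝ f x k) := by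
  rw [h.cod_eq hx, h.cod_eq hx, h.N2_symm hx k v, h.f2_symm hx k v]

theorem Pat.cod23 (h : Pat U f N J) (hx : x ∈ U) (k : E) (w w' : F) :
    inner ℝ (fderiv ℝ (Sh N J) x k w) w' = inner ℝ w (fderiv ℝ (Sh N J) x k w') := by
  obtain ⟨L, hL⟩ : ∃ L : (F →L[ℝ] F) →L[ℝ] ℝ, ∀ A, L A = inner ℝ w' (A w) :=
    ⟨(innerSL ℝ w').comp (ContinuousLinearMap.apply ℝ F w), fun _ => rfl⟩
  obtain ⟨R, hR⟩ : ∃ R : (F →L[ℝ] F) →L[ℝ] ℝ, ∀ A, R A = inner ℝ w (A w') :=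
    ⟨(innerSL ℝ w).comp (ContinuousLinearMap.apply ℝ F w'), fun _ => rfl⟩
  have h1 := (GCod_diffSh h hx).hasFDerivAt
  have h2 : HasFDerivAt (fun y => L (Sh N J y)) (L.comp (fderiv ℝ (Sh N J) x)) x :=
    L.hasFDerivAt.comp x h1
  have h3 : HasFDerivAt (fun y => R (Sh N J y)) (R.comp (fderiv ℝ (Sh N J) x)) x :=
    R.hasFDerivAt.comp x h1
  have h4 : (fun y => L (Sh N J y)) =ᶠ[nhds x] fun y => R (Sh N J y) := by
    filter_upwards [h.op.mem_nhds hx] with y hy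
    rw [hL, hR, real_inner_comm]
    exact h.Sh_symm hy w w'
  have h5 := h2.unique (h3.congr_of_eventuallyEq h4)
  have h6 := congrArg (fun A : E →L[ℝ] ℝ => A k) h5
  simp only [ContinuousLinearMap.comp_apply, hL, hR] at h6
  rw [real_inner_comm]
  exact h6

theorem Pat.trace_DSh (h : Pat U f N J) (hx : x ∈ U) (k : E) :
    tr (fderiv ℝ (Sh N J) x k) = fderiv ℝ (ph N J) x k := by
  exact (fderiv_tr (GCod_diffSh h hx) k).symm

theorem Pat.tr_DSh_Tf (h : Pat U f N J) (hx : x ∈ U) (k : E) :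
    tr (fderiv ℝ (Sh N J) x k * Tf f J x) = fderiv ℝ (ph N J) x k := by
  have h1 := (GCod_diffSh h hx).hasFDerivAt
  have h2 := (GBasic_diff h.op h.Tf_smooth hx).hasFDerivAt
  have h3 : HasFDerivAt (Sh N J)
      (((ContinuousLinearMap.compL ℝ F F F) (Sh N J x)).comp (fderiv ℝ (Tf f J) x) +
        ((ContinuousLinearMap.compL ℝ F F F).flip (Tf f J x)).comp (fderiv ℝ (Sh N J) x)) x := by
    refine (h1.clm_comp h2).congr_of_eventuallyEq ?_
    filter_upwards [h.op.mem_nhds hx] with y hy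
    ext w
    exact (h.Sh_Tf hy w).symm
  have h4 := congrArg (fun A : E →L[ℝ] F →L[ℝ] F => A k) (h1.unique h3)
  have h5 : fderiv ℝ (Sh N J) x k = Sh N J x * fderiv ℝ (Tf f J) x k
      + fderiv ℝ (Sh N J) x k * Tf f J x := h4
  have h6 : tr (Sh N J x * fderiv ℝ (Tf f J) x k) = 0 := by
    have h7 : Tf f J x * (Sh N J x * fderiv ℝ (Tf f J) x k) = Sh N J x * fderiv ℝ (Tf f J) x k := by
      ext w
      exact h.Tf_Sh hx _
    have h8 : (Sh N J x * fderiv ℝ (Tf f J) x k) * Tf f J x = 0 := by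
      ext w
      change Sh N J x (fderiv ℝ (Tf f J) x k (Tf f J x w)) = 0
      exact h.Sh_nrm hx (h.DT_tan hx k (h.Tf_Tf hx w))
    have h9 : tr (Tf f J x * (Sh N J x * fderiv ℝ (Tf f J) x k))
        = tr ((Sh N J x * fderiv ℝ (Tf f J) x k) * Tf f J x) :=
      LinearMap.trace_mul_comm ℝ (Tf f J x : F →ₗ[ℝ] F)
        ((Sh N J x * fderiv ℝ (Tf f J) x k : F →L[ℝ] F) : F →ₗ[ℝ] F)
    rw [h7, h8] at h9
    rw [h9, tr]
    exact map_zero _
  have h10 : tr (fderiv ℝ (Sh N J) x k * Tf f J x)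
      = tr (fderiv ℝ (Sh N J) x k) - tr (Sh N J x * fderiv ℝ (Tf f J) x k) := by
    rw [← tr_sub]
    congr 1
    rw [eq_sub_iff_add_eq, add_comm]
    exact h5.symm
  rw [h10, h6, sub_zero, h.trace_DSh hx]

end Pool.Agent.Lib.MP_3248c9_gt.Pn
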