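import Pool.Agent.Lib.MP_3248c9_gt.Pn.GOp
import Pool.Agent.Lib.MP_3248c9_gt.Hy.GEvS

/-!
# The evolution of the operators `A_c` along the curves of `e`

Model: `Hy/GEvS.lean` (`symm2`).
`A_c w = DQ(J (Q w)) (c - Q c)`; in the direction `eh = J e` the derivative of `Q` vanishes (`dQ`), so with `c' = c - Q c`, `u = J (Q w)`:
`(D_{eh} A_c) w = D^2Q(eh, u) c' + DQ((D_{eh} J)(Q w)) c'`.
Differentiate the identity `DQ(y)(J y (e y)) = 0` (valid on `V` by `dQ`) in the direction `u`: `D^2Q(u, eh) + DQ((D_u J) e + J (D_u e)) = 0`.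
`D^2Q` is symmetric; by `DJ`: `(D_u J) e = (D_u J)(Df eh) = - J D^2f(u, eh)` and `(D_{eh} J)(Q w) = (D_{eh} J)(Df u) = - J D^2f(eh, u)` are equal. So
`(D_{eh} A_c) w = - DQ(J (D_u e)) c' = - DQ(J (Q (D_u e))) c'` (`de_W`) `= DQ(J (Q (A_e w))) c' = A_c (A_e w)` (`Ao_e`).
-/

set_option autoImplicit false

namespace Pool.Agent.Lib.MP_3248c9_gt.Pn

open Set Pool.Agent.Lib.MP_3248c9_gt.Hy
open scoped ContDiff

variable {E F : Type} [NormedAddCommGroup E] [NormedSpace ℝ E] [FiniteDimensional ℝ E]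
  [NormedAddCommGroup F] [InnerProductSpace ℝ F] [FiniteDimensional ℝ F] [CompleteSpace F]
  {V : Set E} {f N : E → F} {J : E → F →L[ℝ] E} {e : E → F} {kp om : E → ℝ} {x : E}

theorem FrP.Ao_der (h : FrP V f N J e kp om) (hx : x ∈ V)
    (hi : ∀ y ∈ V, Function.Injective (Pg f N J e kp y)) (c : F) :
    fderiv ℝ (fun y => Ao f J e y c) x (J x (e x)) = Ao f J e x c * Ao f J e x (e x) := by
  have hn := h.op.mem_nhds hx
  have hQs : ContDiffOn ℝ ∞ (Qf f J e) V := h.Qf_smooth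
  have hMs : ContDiffOn ℝ ∞ (fderiv ℝ (Qf f J e)) V := hQs.fderiv_of_isOpen h.op (by simp)
  have hQ := gfr_diff h.op hQs hx
  have hM := gfr_diff h.op hMs hx
  have hJ := gfr_diff h.op h.Js hx
  have he := gfr_diff h.op h.es hx
  have hA : DifferentiableAt ℝ (fun y => Ao f J e y c) x :=
    (gfr_diff h.op h.Ao_smooth hx).clm_apply (differentiableAt_const c)
  ext w
  have hQw : DifferentiableAt ℝ (fun y => Qf f J e y w) x :=
    hQ.clm_apply (differentiableAt_const w)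
  have hQc : DifferentiableAt ℝ (fun y => Qf f J e y c) x :=
    hQ.clm_apply (differentiableAt_const c)
  have hDQw : ∀ (b : F) (v : E), fderiv ℝ (fun y => Qf f J e y b) x v =
      fderiv ℝ (Qf f J e) x v b := by
    intro b v
    rw [gfr_app hQ (differentiableAt_const b)]
    simp
  have hu : DifferentiableAt ℝ (fun y => J y (Qf f J e y w)) x := hJ.clm_apply hQw
  -- the left hand side
  have h1 : fderiv ℝ (fun y => Ao f J e y c) x (J x (e x)) w =
      fderiv ℝ (fun y => Ao f J e y c w) x (J x (e x)) := by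
    rw [gfr_app hA (differentiableAt_const w)]
    simp
  have h2 : (fun y => Ao f J e y c w) = fun y =>
      (fderiv ℝ (Qf f J e) y (J y (Qf f J e y w))) (c - Qf f J e y c) := by
    funext y
    exact Ao_apply f J e y c w
  have hMu : DifferentiableAt ℝ (fun y => fderiv ℝ (Qf f J e) y (J y (Qf f J e y w))) x :=
    hM.clm_apply hu
  have hcc : DifferentiableAt ℝ (fun y => c - Qf f J e y c) x :=
    (differentiableAt_const c).sub hQc
  have hdQ : fderiv ℝ (Qf f J e) x (J x (e x)) = 0 := h.dQ hx (hi x hx)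
  have h3 : fderiv ℝ (fun y => c - Qf f J e y c) x (J x (e x)) = 0 := by
    rw [fderiv_fun_sub (differentiableAt_const c) hQc]
    simp [hDQw, hdQ]
  have h4 : fderiv ℝ (fun y => J y (Qf f J e y w)) x (J x (e x)) =
      fderiv ℝ J x (J x (e x)) (Qf f J e x w) := by
    rw [gfr_app hJ hQw, hDQw, hdQ]
    simp
  have h5 : fderiv ℝ (fun y => fderiv ℝ (Qf f J e) y (J y (Qf f J e y w))) x (J x (e x)) =
      fderiv ℝ (Qf f J e) x (fderiv ℝ J x (J x (e x)) (Qf f J e x w)) +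
        fderiv ℝ (fderiv ℝ (Qf f J e)) x (J x (e x)) (J x (Qf f J e x w)) := by
    rw [gfr_app hM hu, h4]
  have h6 : fderiv ℝ (fun y => Ao f J e y c w) x (J x (e x)) =
      (fderiv ℝ (Qf f J e) x (fderiv ℝ J x (J x (e x)) (Qf f J e x w)) +
        fderiv ℝ (fderiv ℝ (Qf f J e)) x (J x (e x)) (J x (Qf f J e x w)))
        (c - Qf f J e x c) := by
    rw [h2, gfr_app hMu hcc, h3, map_zero, zero_add, h5]
  -- the identity
  have hje : DifferentiableAt ℝ (fun y => J y (e y)) x := hJ.clm_apply he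
  have h7 := gfr_congr h.op (g := fun y => fderiv ℝ (Qf f J e) y (J y (e y)))
    (g' := fun _ => (0 : F →L[ℝ] F)) (fun y hy => h.dQ hy (hi y hy)) hx
  have h8 := gfr_app hM hje (J x (Qf f J e x w))
  rw [h7, gfr_app hJ he] at h8
  have h8' : (0 : F →L[ℝ] F) = fderiv ℝ (Qf f J e) x
      (J x (fderiv ℝ e x (J x (Qf f J e x w))) + fderiv ℝ J x (J x (Qf f J e x w)) (e x)) +
      fderiv ℝ (fderiv ℝ (Qf f J e)) x (J x (Qf f J e x w)) (J x (e x)) := by
    rw [← h8]
    simp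
  have h9 : fderiv ℝ (fderiv ℝ (Qf f J e)) x (J x (Qf f J e x w)) (J x (e x)) =
      fderiv ℝ (fderiv ℝ (Qf f J e)) x (J x (e x)) (J x (Qf f J e x w)) :=
    symm2 (hQs.contDiffAt hn) _ _
  -- the derivatives of `J`
  have hTe : fderiv ℝ f x (J x (e x)) = e x := h.et x hx
  have hTQ : fderiv ℝ f x (J x (Qf f J e x w)) = Qf f J e x w := h.Tf_Q hx w
  have h10 : fderiv ℝ J x (J x (Qf f J e x w)) (e x) =
      fderiv ℝ J x (J x (e x)) (Qf f J e x w) := by
    have a1 := h.toPat.DJ hx (J x (Qf f J e x w)) (J x (e x))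
    have a2 := h.toPat.DJ hx (J x (e x)) (J x (Qf f J e x w))
    rw [hTe] at a1
    rw [hTQ] at a2
    rw [a1, a2, h.toPat.f2_symm hx]
  rw [h9, h10, map_add] at h8'
  rw [h1, h6]
  have h11 : fderiv ℝ (Qf f J e) x (fderiv ℝ J x (J x (e x)) (Qf f J e x w)) +
      fderiv ℝ (fderiv ℝ (Qf f J e)) x (J x (e x)) (J x (Qf f J e x w)) =
      -(fderiv ℝ (Qf f J e) x (J x (fderiv ℝ e x (J x (Qf f J e x w))))) := by
    rw [eq_neg_iff_add_eq_zero]
    rw [h8']
    abel
  rw [h11]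
  -- the right hand side
  have h12 : (Ao f J e x c * Ao f J e x (e x)) w = Ao f J e x c (Ao f J e x (e x) w) := rfl
  rw [h12, Ao_apply f J e x c, h.Q_Ao hx, h.Ao_e hx (hi x hx), map_neg, map_neg]

end Pool.Agent.Lib.MP_3248c9_gt.Pn
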