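import Pool.Agent.Lib.MP_3248c9_gt.Pn.One

/-!
# Exactly one affine function cannot vanish at the end point: the ray

Apply `one_real` with `d = d_i (x t)`, `R = c_i (x t)`, `u = <a_i, y>`, `v = <a_i, z>`, `al = |a_i|^2`, `Re = c_i e`,
`Q = sum_{j != i} <a_j, z>/d_j`. See the docstring of `One.lean`. `G_split`: `G = c_i a_i + sum_{j != i} c_j a_j` and
`c_j = d_i * prod_{l != i, j} d_l` for `j != i`, so `|G - c_i a_i| <= C d_i` eventually (the `d_l` are bounded).
-/

set_option autoImplicit false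

namespace Pool.Agent.Lib.MP_3248c9_gt.Pn

open Finset Filter Topology

variable {ι : Type} [Fintype ι] [DecidableEq ι] {k : ℕ} {a : ι → Ek k} {x y z : ℝ → Ek k}
  {q m : ℝ → ℝ} {e : Ek k}

theorem Ray.G_split (h : Ray a (Set.Ici 0) x y z q m) (he : EndPt x z q e) (i : ι) :
    ∃ C : ℝ, ∀ᶠ t in atTop, ‖Gv a (x t) - cv a (x t) i • a i‖ ≤ C * dv a (x t) i := by
  refine ⟨∑ j ∈ univ.erase i, (∏ l ∈ (univ.erase j).erase i, (dv a e l + 1)) * ‖a j‖, ?_⟩
  have hev : ∀ᶠ t in atTop, ∀ j, dv a (x t) j < dv a e j + 1 := by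
    rw [eventually_all]
    intro j
    exact (h.d_tendsto he j).eventually_lt_const (by linarith)
  filter_upwards [hev, eventually_ge_atTop (0 : ℝ)] with t ht ht0
  have hpos := h.pos t ht0
  have h1 : Gv a (x t) - cv a (x t) i • a i = ∑ j ∈ univ.erase i, cv a (x t) j • a j := by
    rw [Gv, ← Finset.add_sum_erase univ (fun j => cv a (x t) j • a j) (Finset.mem_univ i)]
    exact add_sub_cancel_left _ _
  rw [h1, Finset.sum_mul]
  refine (norm_sum_le _ _).trans (Finset.sum_le_sum fun j hj => ?_)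
  have hij : i ∈ univ.erase j :=
    Finset.mem_erase.2 ⟨(Finset.ne_of_mem_erase hj).symm, Finset.mem_univ i⟩
  have h2 : cv a (x t) j = dv a (x t) i * ∏ l ∈ (univ.erase j).erase i, dv a (x t) l :=
    (Finset.mul_prod_erase (univ.erase j) (fun l => dv a (x t) l) hij).symm
  have h3 : 0 ≤ ∏ l ∈ (univ.erase j).erase i, dv a (x t) l :=
    Finset.prod_nonneg fun l _ => (hpos l).le
  have h4 : ∏ l ∈ (univ.erase j).erase i, dv a (x t) l ≤
      ∏ l ∈ (univ.erase j).erase i, (dv a e l + 1) :=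
    Finset.prod_le_prod (fun l _ => (hpos l).le) fun l _ => (ht l).le
  rw [norm_smul, h2, Real.norm_eq_abs, abs_of_nonneg (mul_nonneg (hpos i).le h3)]
  calc dv a (x t) i * (∏ l ∈ (univ.erase j).erase i, dv a (x t) l) * ‖a j‖
      = ((∏ l ∈ (univ.erase j).erase i, dv a (x t) l) * ‖a j‖) * dv a (x t) i := by ring
    _ ≤ ((∏ l ∈ (univ.erase j).erase i, (dv a e l + 1)) * ‖a j‖) * dv a (x t) i := by
        gcongr
        exact (hpos i).le

private theorem oneB_bessel (b y z : Ek k) (hy : ‖y‖ = 1) (hz : ‖z‖ = 1)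
    (hyz : inner ℝ y z = (0 : ℝ)) :
    (inner ℝ b y : ℝ) ^ 2 + (inner ℝ b z : ℝ) ^ 2 ≤ ‖b‖ ^ 2 := by
  have hyy : (inner ℝ y y : ℝ) = 1 := by rw [real_inner_self_eq_norm_sq, hy, one_pow]
  have hzz : (inner ℝ z z : ℝ) = 1 := by rw [real_inner_self_eq_norm_sq, hz, one_pow]
  have hzy : (inner ℝ z y : ℝ) = 0 := by rw [real_inner_comm]; exact hyz
  have h0 : (0 : ℝ) ≤ inner ℝ (b - (inner ℝ b y : ℝ) • y - (inner ℝ b z : ℝ) • z)
    (b - (inner ℝ b y : ℝ) • y - (inner ℝ b z : ℝ) • z) := real_inner_self_nonneg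
  simp only [inner_sub_left, inner_sub_right, real_inner_smul_left, real_inner_smul_right,
    real_inner_comm b y, real_inner_comm b z, hyy, hzz, hyz, hzy] at h0
  rw [real_inner_self_eq_norm_sq] at h0
  nlinarith [h0]

private theorem oneB_pv (a : ι → Ek k) (w : Ek k) (i : ι) :
    pv a w = dv a w i * cv a w i :=
  (Finset.mul_prod_erase univ (fun l => dv a w l) (Finset.mem_univ i)).symm

private theorem oneB_G (a : ι → Ek k) (w n : Ek k) (hp : ∀ i, dv a w i ≠ 0) :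
    pv a w * ∑ i, (inner ℝ (a i) n : ℝ) / dv a w i = inner ℝ (Gv a w) n := by
  rw [Finset.mul_sum, Gv, sum_inner]
  refine Finset.sum_congr rfl fun i _ => ?_
  rw [real_inner_smul_left, oneB_pv a w i]
  have := hp i
  field_simp

omit [Fintype ι] [DecidableEq ι] in
private theorem oneB_d (a : ι → Ek k) (w : Ek k) (i : ι) (t : ℝ) {x : ℝ → Ek k}
    (hx : HasDerivAt x w t) : HasDerivAt (fun t => (inner ℝ (a i) (x t) : ℝ))
      (inner ℝ (a i) w) t := by
  have h1 := (hasDerivAt_const t (a i)).inner ℝ hx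
  refine h1.congr_deriv ?_
  rw [inner_zero_left, add_zero]

theorem Ray.not_one (h : Ray a (Set.Ici 0) x y z q m) (he : EndPt x z q e) {i : ι}
    (hi : dv a e i = 0) (hj : ∀ j, j ≠ i → 0 < dv a e j) : False := by
  obtain ⟨C₁, hC₁⟩ := h.G_split he i
  have hai : a i ≠ 0 := by
    intro h0
    rw [dv, h0, inner_zero_left, add_zero] at hi
    exact one_ne_zero hi
  have hal : 0 < ‖a i‖ ^ 2 := by positivity
  obtain ⟨CQ, hCQ⟩ : ∃ CQ : ℝ, CQ = ∑ j ∈ univ.erase i, ‖a j‖ / (dv a e j / 2) := ⟨_, rfl⟩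
  have hev : ∀ᶠ t in atTop, ∀ j, j ≠ i → dv a e j / 2 < dv a (x t) j := by
    rw [eventually_all]
    intro j
    by_cases hji : j = i
    · exact Eventually.of_forall fun t h1 => absurd hji h1
    · have h1 := hj j hji
      have h2 : dv a e j / 2 < dv a e j := by linarith
      exact ((h.d_tendsto he j).eventually_const_lt h2).mono fun t ht _ => ht
  have hd0 : Tendsto (fun t => dv a (x t) i) atTop (𝓝 0) := by
    have h1 := h.d_tendsto he i
    rwa [hi] at h1
  have hpi : ∀ t, 0 ≤ t → pv a (x t) = dv a (x t) i * cv a (x t) i := fun t _ => oneB_pv a _ i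
  have hbes : ∀ t, 0 ≤ t → (inner ℝ (a i) (y t) : ℝ) ^ 2 + (inner ℝ (a i) (z t) : ℝ) ^ 2 ≤
      ‖a i‖ ^ 2 := fun t ht => oneB_bessel _ _ _ (h.TT t ht) (h.NN t ht) (h.TN t ht)
  refine one_real (fun t => dv a (x t) i) (fun t => inner ℝ (a i) (y t))
    (fun t => inner ℝ (a i) (z t)) q
    (fun t => ∑ j ∈ univ.erase i, (inner ℝ (a j) (z t) : ℝ) / dv a (x t) j)
    (fun t => cv a (x t) i) (fun t => inner ℝ (a i) (pv a (x t) • y t))
    (fun t => inner ℝ (a i) (Gv a (x t) - (inner ℝ (Gv a (x t)) (y t) : ℝ) • y t -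
      (2 * (pv a (x t) * q t)) • z t))
    (fun t => inner ℝ (a i) (-((pv a (x t) * q t) • y t))) (‖a i‖ ^ 2) (cv a e i)
    (max CQ (3 * ‖a i‖ * C₁)) hal (Finset.prod_pos fun j hj' => hj j (Finset.ne_of_mem_erase hj'))
    (fun t ht => h.pos t ht i) hd0 (fun t ht => Finset.prod_pos fun j _ => h.pos t ht j)
    (tendsto_finsetProd _ fun j _ => h.d_tendsto he j) (fun t ht => h.k_pos ht) h.k_tendsto
    ?_ (fun t ht => ?_) (fun t ht => ?_) (fun t ht => ?_) (fun t ht => ?_) (fun t ht => ?_)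
    (fun t ht => ?_) ?_ hbes
  · filter_upwards [hev, eventually_ge_atTop (0 : ℝ)] with t ht ht0
    refine le_trans ?_ (le_max_left _ _)
    rw [hCQ]
    refine (Finset.abs_sum_le_sum_abs _ _).trans (Finset.sum_le_sum fun j hj' => ?_)
    have hj'' := Finset.ne_of_mem_erase hj'
    have h1 := hj j hj''
    rw [abs_div, abs_of_pos (h.pos t ht0 j)]
    refine div_le_div₀ (norm_nonneg _) ?_ (by linarith) (ht j hj'').le
    have h2 := abs_real_inner_le_norm (a j) (z t)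
    rwa [h.NN t ht0, mul_one] at h2
  · rw [h.ray t ht, ← Finset.add_sum_erase univ
      (fun j => (inner ℝ (a j) (z t) : ℝ) / dv a (x t) j) (Finset.mem_univ i)]
    ring
  · exact (oneB_d a _ i t (h.hX t ht)).const_add 1
  · rw [real_inner_smul_right, hpi t ht]
  · exact oneB_d a _ i t (h.hN t ht)
  · rw [inner_neg_right, real_inner_smul_right, hpi t ht]
  · exact oneB_d a _ i t (h.hT t ht)
  · filter_upwards [hC₁, eventually_ge_atTop (0 : ℝ)] with t hE ht0
    have hdp := h.pos t ht0 i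
    obtain ⟨E, hEd⟩ : ∃ E : Ek k, E = Gv a (x t) - cv a (x t) i • a i := ⟨_, rfl⟩
    have hG : Gv a (x t) = cv a (x t) i • a i + E := by rw [hEd]; abel
    rw [← hEd] at hE
    have hPq : pv a (x t) * q t = (1 / 3) * inner ℝ (Gv a (x t)) (z t) := by
      rw [h.ray t ht0, ← oneB_G a (x t) (z t) fun j => (h.pos t ht0 j).ne']
      ring
    have e1 : |(inner ℝ (a i) E : ℝ)| ≤ ‖a i‖ * ‖E‖ := abs_real_inner_le_norm _ _
    have e2 : |(inner ℝ E (y t) : ℝ)| ≤ ‖E‖ := by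
      have h2 := abs_real_inner_le_norm E (y t)
      rwa [h.TT t ht0, mul_one] at h2
    have e3 : |(inner ℝ E (z t) : ℝ)| ≤ ‖E‖ := by
      have h2 := abs_real_inner_le_norm E (z t)
      rwa [h.NN t ht0, mul_one] at h2
    have e4 : |(inner ℝ (a i) (y t) : ℝ)| ≤ ‖a i‖ := by
      have h2 := abs_real_inner_le_norm (a i) (y t)
      rwa [h.TT t ht0, mul_one] at h2
    have e5 : |(inner ℝ (a i) (z t) : ℝ)| ≤ ‖a i‖ := by
      have h2 := abs_real_inner_le_norm (a i) (z t)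
      rwa [h.NN t ht0, mul_one] at h2
    have e6 : |(inner ℝ E (y t) : ℝ) * inner ℝ (a i) (y t)| ≤ ‖a i‖ * ‖E‖ := by
      rw [abs_mul, mul_comm]
      exact mul_le_mul e4 e2 (abs_nonneg _) (norm_nonneg _)
    have e7 : |(inner ℝ E (z t) : ℝ) * inner ℝ (a i) (z t)| ≤ ‖a i‖ * ‖E‖ := by
      rw [abs_mul, mul_comm]
      exact mul_le_mul e5 e3 (abs_nonneg _) (norm_nonneg _)
    have hx1 : (inner ℝ (a i) (Gv a (x t) - (inner ℝ (Gv a (x t)) (y t) : ℝ) • y t -
        (2 * (pv a (x t) * q t)) • z t) : ℝ) =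
        cv a (x t) i * (‖a i‖ ^ 2 - (inner ℝ (a i) (y t) : ℝ) ^ 2 -
          (inner ℝ (a i) (z t) : ℝ) ^ 2) +
        (1 / 3) * cv a (x t) i * (inner ℝ (a i) (z t) : ℝ) ^ 2 +
        ((inner ℝ (a i) E : ℝ) - (inner ℝ E (y t) : ℝ) * inner ℝ (a i) (y t) -
          (2 / 3) * ((inner ℝ E (z t) : ℝ) * inner ℝ (a i) (z t))) := by
      rw [hPq, hG]
      simp only [inner_sub_right, inner_add_right, inner_add_left, real_inner_smul_left,
        real_inner_smul_right, real_inner_self_eq_norm_sq]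
      ring
    rw [hx1]
    have h8 : ‖a i‖ * ‖E‖ ≤ ‖a i‖ * (C₁ * dv a (x t) i) :=
      mul_le_mul_of_nonneg_left hE (norm_nonneg _)
    have h9 : 3 * ‖a i‖ * C₁ * dv a (x t) i ≤ max CQ (3 * ‖a i‖ * C₁) * dv a (x t) i :=
      mul_le_mul_of_nonneg_right (le_max_right _ _) hdp.le
    have h10 := (abs_le.1 e1).1
    have h11 := (abs_le.1 e6).2
    have h12 := (abs_le.1 e7).2
    have h13 : 0 ≤ ‖a i‖ * ‖E‖ := by positivity
    nlinarith [h8, h9, h10, h11, h12, h13]

end Pool.Agent.Lib.MP_3248c9_gt.Pn
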