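import Pool.Agent.Lib.MP_3248c9_gt.Pn.TwoA

/-!
# Two affine functions cannot vanish at the end point

`m' >= P^2 q^3 =: w` and `m <= 2 C`. Let `L = lim m` (monotone bounded), so `L - m t1 -> 0`. `q t >= m0 t`, `1/r <= c + C t`, `1/r >= q/2`.
For `t >= 1`: `1/(r^4 q^3) <= C' t`. For every `A > 0`: `P/r^2 <= (A/2) P^2 q^3 + (1/(2A))/(r^4 q^3)` (from `2 u v <= A u^2 + v^2/A`, `u = P q^(3/2)`,
`v = 1/(r^2 q^(3/2))`; without roots: `2 P/r^2 <= A P^2 q^3 + 1/(A r^4 q^3)` is `(A P q^3 r^2 - 1)^2 >= 0` divided by `A r^4 q^3`).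
So by `inv_deriv` the function `t ↦ 1/r t - (A/2) m t - C' t^2/(4A)` is nonincreasing on `[t1, oo)` (`t1 >= 1`):
`1/r t2 <= 1/r t1 + (A/2) (m t2 - m t1) + C' t2^2/(4A)`. Take `A = K t2`: `1/r t2 <= 1/r t1 + (K (L - m t1)/2 + C'/(4K)) t2`.
Choose `K` with `C'/(4K) <= m0/8`, then `t1` with `K (L - m t1)/2 <= m0/8`, then `t2` large: `m0 t2/2 <= q t2/2 <= 1/r t2 <= 1/r t1 + m0 t2/4`: contradiction.
The abstract lemma `absd` isolates this real variable argument (`R = 1/r`, `p = P`).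
-/

set_option autoImplicit false

namespace Pool.Agent.Lib.MP_3248c9_gt.Pn

open Finset Filter Topology

private theorem twob_mono {f f' : ℝ → ℝ} {t1 : ℝ} (hf : ∀ t, t1 ≤ t → HasDerivAt f (f' t) t)
    (h0 : ∀ t, t1 ≤ t → 0 ≤ f' t) {r t : ℝ} (hr : t1 ≤ r) (hrt : r ≤ t) : f r ≤ f t := by
  have h1 : MonotoneOn f (Set.Ici t1) := by
    refine monotoneOn_of_deriv_nonneg (convex_Ici t1)
      (fun z hz => (hf z hz).continuousAt.continuousWithinAt) ?_ ?_
    · intro z hz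
      rw [interior_Ici] at hz
      exact (hf z (le_of_lt hz)).differentiableAt.differentiableWithinAt
    · intro z hz
      rw [interior_Ici] at hz
      rw [(hf z (le_of_lt hz)).deriv]
      exact h0 z (le_of_lt hz)
  exact h1 hr (hr.trans hrt) hrt

/-- The real variable argument. `R` stands for `1/r`. -/
theorem absd (R D p q m m' : ℝ → ℝ) (C m0 c : ℝ) (hC : 0 < C) (hm0 : 0 < m0)
    (hR : ∀ t, 0 ≤ t → HasDerivAt R (D t) t) (hD : ∀ t, 0 ≤ t → D t ≤ p t * R t ^ 2)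
    (hm : ∀ t, 0 ≤ t → HasDerivAt m (m' t) t) (hm' : ∀ t, 0 ≤ t → p t ^ 2 * q t ^ 3 ≤ m' t)
    (hb : ∀ t, 0 ≤ t → m t ≤ C) (hR0 : ∀ t, 0 ≤ t → 0 < R t)
    (hRc : ∀ t, 0 ≤ t → R t ≤ c + C * t)
    (hq : ∀ t, 0 ≤ t → m0 * t < q t) (hqR : ∀ t, 0 ≤ t → q t ≤ 2 * R t) : False := by
  have hqpos : ∀ t, 1 ≤ t → 0 < q t := fun t ht => by
    have h1 := hq t (by linarith)
    have h2 : 0 < m0 * t := mul_pos hm0 (by linarith)
    linarith
  have hm'0 : ∀ t, 1 ≤ t → 0 ≤ m' t := fun t ht => by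
    have h1 := hm' t (by linarith)
    have h2 := hqpos t ht
    have h3 : 0 ≤ p t ^ 2 * q t ^ 3 := by positivity
    linarith
  -- the constant
  obtain ⟨C1, hC1, hC10⟩ : ∃ C1 : ℝ, C1 = (|c| + C) ^ 4 / m0 ^ 3 ∧ 0 < C1 := by
    refine ⟨_, rfl, ?_⟩
    have h1 : 0 < |c| + C := by
      have := abs_nonneg c
      linarith
    positivity
  have hR4 : ∀ t, 1 ≤ t → R t ^ 4 ≤ C1 * t * q t ^ 3 := by
    intro t ht
    have h1 := hR0 t (by linarith)
    have h2 := hRc t (by linarith)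
    have h3 := hq t (by linarith)
    have h4 : R t ≤ (|c| + C) * t := by
      have h5 : c ≤ |c| * t := (le_abs_self c).trans (le_mul_of_one_le_right (abs_nonneg c) ht)
      linarith
    have h5 : R t ^ 4 ≤ ((|c| + C) * t) ^ 4 := pow_le_pow_left₀ h1.le h4 4
    have h6 : (m0 * t) ^ 3 ≤ q t ^ 3 := pow_le_pow_left₀ (by positivity) h3.le 3
    have h7 : ((|c| + C) * t) ^ 4 = C1 * t * (m0 * t) ^ 3 := by
      rw [hC1]
      field_simp
    rw [h7] at h5
    refine h5.trans (mul_le_mul_of_nonneg_left h6 ?_)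
    positivity
  -- the basic inequality
  have key : ∀ A : ℝ, 0 < A → ∀ s t : ℝ, 1 ≤ s → s ≤ t →
      R t - A / 2 * m t - C1 / (4 * A) * t ^ 2 ≤ R s - A / 2 * m s - C1 / (4 * A) * s ^ 2 := by
    intro A hA s t hs hst
    have h1 := twob_mono (f := fun t => A / 2 * m t + C1 / (4 * A) * t ^ 2 - R t)
      (f' := fun t => A / 2 * m' t + C1 / (4 * A) * (2 * t) - D t) (t1 := 1)
      (fun r hr => by
        have e1 := (hm r (by linarith)).const_mul (A / 2)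
        have e2 := ((hasDerivAt_pow 2 r).const_mul (C1 / (4 * A)))
        refine (e1.add e2 |>.sub (hR r (by linarith))).congr_deriv ?_
        push_cast
        ring)
      (fun r hr => by
        have f1 := hD r (by linarith)
        have f2 := hm' r (by linarith)
        have f3 := hqpos r hr
        have f4 := hR4 r hr
        have f5 : 0 < q r ^ 3 := by positivity
        have f6 : p r * R r ^ 2 ≤ A / 2 * (p r ^ 2 * q r ^ 3) + C1 / (4 * A) * (2 * r) := by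
          have g1 : p r * R r ^ 2 * (2 * A * q r ^ 3) ≤
              (A / 2 * (p r ^ 2 * q r ^ 3) + C1 / (4 * A) * (2 * r)) * (2 * A * q r ^ 3) := by
            have g2 : (A / 2 * (p r ^ 2 * q r ^ 3) + C1 / (4 * A) * (2 * r)) * (2 * A * q r ^ 3) =
                (A * p r * q r ^ 3) ^ 2 + C1 * r * q r ^ 3 := by
              field_simp
              ring
            rw [g2]
            have g3 := sq_nonneg (A * p r * q r ^ 3 - R r ^ 2)
            have g4 : (A * p r * q r ^ 3 - R r ^ 2) ^ 2 = (A * p r * q r ^ 3) ^ 2 -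
                p r * R r ^ 2 * (2 * A * q r ^ 3) + R r ^ 4 := by ring
            linarith
          exact le_of_mul_le_mul_right g1 (by positivity)
        have f7 : A / 2 * (p r ^ 2 * q r ^ 3) ≤ A / 2 * m' r :=
          mul_le_mul_of_nonneg_left f2 (by positivity)
        linarith) hs hst
    have h2 : A / 2 * m s + C1 / (4 * A) * s ^ 2 - R s ≤
        A / 2 * m t + C1 / (4 * A) * t ^ 2 - R t := h1
    linarith
  -- the tail of `m`
  have hmm : ∀ s t, 1 ≤ s → s ≤ t → m s ≤ m t := fun s t hs hst =>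
    twob_mono (f := m) (f' := m') (t1 := 1) (fun r hr => hm r (by linarith)) hm'0 hs hst
  have htail : ∀ ε : ℝ, 0 < ε → ∃ t1, 1 ≤ t1 ∧ ∀ t, t1 ≤ t → m t - m t1 ≤ ε := by
    intro ε hε
    have hne : (m '' Set.Ici 1).Nonempty := ⟨m 1, 1, Set.mem_Ici.2 le_rfl, rfl⟩
    have hbd : BddAbove (m '' Set.Ici 1) := by
      refine ⟨C, ?_⟩
      rintro _ ⟨t, ht, rfl⟩
      exact hb t (by linarith [Set.mem_Ici.1 ht])
    obtain ⟨_, ⟨t1, ht1, rfl⟩, h1⟩ := exists_lt_of_lt_csSup hne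
      (show sSup (m '' Set.Ici 1) - ε < sSup (m '' Set.Ici 1) by linarith)
    refine ⟨t1, ht1, fun t ht => ?_⟩
    have h2 : m t ≤ sSup (m '' Set.Ici 1) :=
      le_csSup hbd ⟨t, Set.mem_Ici.2 (le_trans (Set.mem_Ici.1 ht1) ht), rfl⟩
    linarith
  obtain ⟨K, hK, hK0⟩ : ∃ K : ℝ, K = 2 * C1 / m0 ∧ 0 < K := ⟨_, rfl, by positivity⟩
  obtain ⟨t1, ht1, ht⟩ := htail (m0 / (4 * K)) (by positivity)
  obtain ⟨t2, ht2, ht2'⟩ : ∃ t2, t1 ≤ t2 ∧ 4 * R t1 / m0 ≤ t2 :=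
    ⟨max t1 (4 * R t1 / m0), le_max_left _ _, le_max_right _ _⟩
  have ht20 : 0 < t2 := by linarith
  have h1 := key (K * t2) (by positivity) t1 t2 ht1 ht2
  have h2 := ht t2 ht2
  have h3 := hq t2 ht20.le
  have h4 := hqR t2 ht20.le
  have h5 : C1 / (4 * (K * t2)) * t2 ^ 2 = m0 / 8 * t2 := by
    rw [hK]
    field_simp
    ring
  have h6 : 0 ≤ C1 / (4 * (K * t2)) * t1 ^ 2 := by positivity
  have h7 : K * t2 / 2 * m t2 - K * t2 / 2 * m t1 ≤ m0 / 8 * t2 := by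
    have e1 : K * t2 / 2 * (m t2 - m t1) ≤ K * t2 / 2 * (m0 / (4 * K)) :=
      mul_le_mul_of_nonneg_left h2 (by positivity)
    have e2 : K * t2 / 2 * (m0 / (4 * K)) = m0 / 8 * t2 := by
      field_simp
      ring
    rw [e2] at e1
    linarith
  rw [div_le_iff₀ hm0] at ht2'
  linarith

variable {ι : Type} [Fintype ι] [DecidableEq ι] {k : ℕ} {a : ι → Ek k} {x y z : ℝ → Ek k}
  {q m : ℝ → ℝ} {e : Ek k}

theorem Ray.not_two (h : Ray a (Set.Ici 0) x y z q m) (he : EndPt x z q e) {i j : ι}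
    (hij : i ≠ j) (hi : dv a e i = 0) (hj : dv a e j = 0) : False := by
  obtain ⟨C, hC0, hC⟩ := h.P_le he hij hi hj
  have h1 : ∀ t : ℝ, ∃ D : ℝ, 0 ≤ t → HasDerivAt (fun s => ‖x s - e‖⁻¹) D t ∧
      D ≤ pv a (x t) / ‖x t - e‖ ^ 2 := by
    intro t
    by_cases ht : 0 ≤ t
    · obtain ⟨D, hD⟩ := h.inv_deriv hi ht
      exact ⟨D, fun _ => hD⟩
    · exact ⟨0, fun h => absurd h ht⟩
  choose D hD using h1
  refine absd (fun t => ‖x t - e‖⁻¹) D (fun t => pv a (x t)) q m (fun t => pv a (x t) ^ 2 * q t *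
    (q t ^ 2 + ∑ i, (inner ℝ (a i) (z t) / dv a (x t) i) ^ 2)) (2 * C) (m 0) (‖x 0 - e‖⁻¹)
    (by positivity) h.m0 (fun t ht => (hD t ht).1) (fun t ht => ?_)
    (fun t ht => h.hm t (Set.mem_Ici.2 ht)) (fun t ht => ?_) (fun t ht => h.m_bdd he hi hC0 hC ht)
    (fun t ht => inv_pos.2 (h.dist_pos hi ht)) (fun t ht => ?_) (fun t ht => ?_) (fun t ht => ?_)
  · refine (hD t ht).2.trans (le_of_eq ?_)
    rw [inv_pow, div_eq_mul_inv]
  · have e1 := h.k_pos ht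
    have e2 : 0 ≤ ∑ i, (inner ℝ (a i) (z t) / dv a (x t) i) ^ 2 :=
      Finset.sum_nonneg fun _ _ => sq_nonneg _
    have e3 : 0 ≤ pv a (x t) ^ 2 * q t * ∑ i, (inner ℝ (a i) (z t) / dv a (x t) i) ^ 2 := by
      positivity
    have e4 : pv a (x t) ^ 2 * q t * (q t ^ 2 + ∑ i, (inner ℝ (a i) (z t) / dv a (x t) i) ^ 2) =
        pv a (x t) ^ 2 * q t ^ 3 +
          pv a (x t) ^ 2 * q t * ∑ i, (inner ℝ (a i) (z t) / dv a (x t) i) ^ 2 := by ring
    rw [e4]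
    linarith
  · have e1 := h.inv_le hi hC le_rfl ht
    have e2 : 0 ≤ C * t := by positivity
    linarith
  · have e1 := h.k_ge ht
    have e2 := h.k0
    linarith
  · have e1 := h.q_le he ht
    have e2 := h.dist_pos hi ht
    rw [← div_eq_mul_inv, le_div_iff₀ e2]
    exact e1

end Pool.Agent.Lib.MP_3248c9_gt.Pn
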