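import Pool.Agent.Lib.MP_3248c9_gt.Pn.Exi
import Pool.Agent.Lib.MP_3248c9_gt.Pn.TwoB
import Pool.Agent.Lib.MP_3248c9_gt.Pn.OneB

/-!
# The theorem in `R^k`
-/

set_option autoImplicit false

namespace Pool.Agent.Lib.MP_3248c9_gt.Pn

open Finset MvPolynomial

variable {ι : Type} [Fintype ι] [DecidableEq ι] {k : ℕ} (a : ι → Ek k)

theorem kdim (y0 z0 : Ek k) (hy : ‖y0‖ = 1) (hz : ‖z0‖ = 1) (hyz : inner ℝ y0 z0 = 0)
    (hK : 0 < eval (pt 0 y0 z0) (KP a)) (hM : 0 < eval (pt 0 y0 z0) (MP a))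
    (hF : ∀ j : ℕ, eval (pt 0 y0 z0) ((VF a)^[j] (FP a)) = 0) : False := by
  obtain ⟨x, y, z, q, m, h⟩ := exists_ray a y0 z0 hy hz hyz hK hM hF
  obtain ⟨e, he1, he2⟩ := h.limit
  have he : EndPt x z q e := ⟨he1, he2⟩
  obtain ⟨i, hi⟩ := h.exists_zero he
  by_cases hu : ∀ j, j ≠ i → 0 < dv a e j
  · exact h.not_one he hi hu
  · push Not at hu
    obtain ⟨j, hj, hj2⟩ := hu
    exact h.not_two he hj (le_antisymm hj2 (h.d_nonneg he j)) hi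

end Pool.Agent.Lib.MP_3248c9_gt.Pn
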