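import Pool.Agent.Lib.MP_3248c9_gt.Pn.SDefs
import Pool.Agent.Lib.MP_3248c9_gt.Pn.Der
import Pool.Agent.Lib.MP_3248c9_gt.Hy.Noe

/-!
# The vanishing of all `V^j F` at the initial point

Along the curve `Z t = pt (x t) (y t) (z t)` in arclength, `Z' = V(Z)/P` (`K = P q` by `ray`, `c_i = P/d_i`,
`G = P sum a_i/d_i`). By `Hy.hasDerivAt_eval` with `r = 1/P`:
* `eval Z KP = P q`; differentiating: `V K = E K + P^2 q1`, so `eval Z MP = P^2 q1`;
* differentiating again: `V M = 2 P^2 E q1 + P^3 q2`, `q2 = q (q^2 + sum (<a_i,z>/d_i)^2) - q1 E/P`, so `eval Z FP = 0` for all `t`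
  in the interval (`sum <a_i, y>/d_i = E/P`);
* by induction `eval Z (V^j F) = 0` on the interval: the derivative of `0` is `0 = (1/P) eval Z (V (V^j F))`.
Same as `Hy/Scd.lean` (copy).
-/

set_option autoImplicit false

namespace Pool.Agent.Lib.MP_3248c9_gt.Pn

open Finset MvPolynomial

variable {ι : Type} [Fintype ι] [DecidableEq ι] {k : ℕ} {a : ι → Ek k} {δ : ℝ}
  {x y z : ℝ → Ek k} {q q1 : ℝ → ℝ}

theorem Scd.pv_pos (h : Scd a δ x y z q q1) {t : ℝ} (ht : t ∈ Set.Ioo (-δ) δ) :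
    0 < pv a (x t) := Finset.prod_pos fun i _ => h.pos t ht i

/-- The Euclidean coordinates of a derivative. -/
theorem Scd.coord {w : ℝ → Ek k} {w' : Ek k} {t : ℝ} (h : HasDerivAt w w' t) (j : Fin k) :
    HasDerivAt (fun s => w s j) (w' j) t :=
  (EuclideanSpace.proj j : Ek k →L[ℝ] ℝ).hasFDerivAt.comp_hasDerivAt t h

theorem Scd.co (h : Scd a δ x y z q q1) {t : ℝ} (ht : t ∈ Set.Ioo (-δ) δ) (i : ι) :
    cv a (x t) i = pv a (x t) / dv a (x t) i := cv_eq a i (h.pos t ht i).ne'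

theorem Scd.evalK (h : Scd a δ x y z q q1) {t : ℝ} (ht : t ∈ Set.Ioo (-δ) δ) :
    eval (pt (x t) (y t) (z t)) (KP a) = pv a (x t) * q t := by
  rw [eval_KP, Kv_eq a (z t) fun i => (h.pos t ht i).ne', h.ray t ht]

theorem Scd.evalE (h : Scd a δ x y z q q1) {t : ℝ} (ht : t ∈ Set.Ioo (-δ) δ) :
    eval (pt (x t) (y t) (z t)) (EP a) =
      pv a (x t) * ∑ i, inner ℝ (a i) (y t) / dv a (x t) i := by
  unfold EP
  rw [map_sum, Finset.mul_sum]
  refine Finset.sum_congr rfl fun i _ => ?_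
  rw [map_mul, eval_aT, eval_coP, h.co ht i]
  ring

/-- The derivative along the curve of a polynomial in the point. -/
theorem Scd.deriv_eval (h : Scd a δ x y z q q1) {t : ℝ} (ht : t ∈ Set.Ioo (-δ) δ) (Q : Rk k) :
    HasDerivAt (fun s => eval (pt (x s) (y s) (z s)) Q)
      ((pv a (x t))⁻¹ * eval (pt (x t) (y t) (z t)) (VF a Q)) t := by
  have hp := (h.pv_pos ht).ne'
  refine Hy.hasDerivAt_eval (VF a) (fun s => pt (x s) (y s) (z s)) t _ (fun p => ?_) Q
  obtain ⟨i, j⟩ := p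
  show HasDerivAt (fun s => pt (x s) (y s) (z s) (i, j))
    ((pv a (x t))⁻¹ * eval (pt (x t) (y t) (z t)) (VF a (X (i, j)))) t
  fin_cases i
  · show HasDerivAt (fun s => x s j)
      ((pv a (x t))⁻¹ * eval (pt (x t) (y t) (z t)) (VF a (X (0, j)))) t
    have e : (pv a (x t))⁻¹ * eval (pt (x t) (y t) (z t)) (VF a (X (0, j))) = y t j := by
      rw [VF_X0, map_mul, eval_PP, eval_X, inv_mul_cancel_left₀ hp]
      rfl
    rw [e]
    exact Scd.coord (h.hX t ht) j
  · show HasDerivAt (fun s => y s j)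
      ((pv a (x t))⁻¹ * eval (pt (x t) (y t) (z t)) (VF a (X (1, j)))) t
    have e : (pv a (x t))⁻¹ * eval (pt (x t) (y t) (z t)) (VF a (X (1, j))) =
        (∑ i, (dv a (x t) i)⁻¹ • a i - (∑ i, inner ℝ (a i) (y t) / dv a (x t) i) • y t -
          (2 * q t) • z t) j := by
      have e1 : eval (pt (x t) (y t) (z t)) (X (1, j) : Rk k) = y t j := by
        rw [eval_X]
        rfl
      have e2 : eval (pt (x t) (y t) (z t)) (X (2, j) : Rk k) = z t j := by
        rw [eval_X]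
        rfl
      have e3 : Gv a (x t) j = pv a (x t) * ∑ i, (dv a (x t) i)⁻¹ * a i j := by
        unfold Gv
        rw [WithLp.ofLp_sum, Finset.sum_apply, Finset.mul_sum]
        refine Finset.sum_congr rfl fun i _ => ?_
        rw [PiLp.smul_apply, smul_eq_mul, h.co ht i]
        ring
      have e4 : (∑ i, (dv a (x t) i)⁻¹ • a i : Ek k) j = ∑ i, (dv a (x t) i)⁻¹ * a i j := by
        rw [WithLp.ofLp_sum, Finset.sum_apply]
        exact Finset.sum_congr rfl fun i _ => by rw [PiLp.smul_apply, smul_eq_mul]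
      have e5 : eval (pt (x t) (y t) (z t)) (2 : Rk k) = 2 := map_ofNat _ 2
      rw [VF_X1, map_sub, map_sub, map_mul, map_mul, map_mul, eval_GP, h.evalE ht, h.evalK ht, e1,
        e2, e3, e5, PiLp.sub_apply, PiLp.sub_apply, PiLp.smul_apply, PiLp.smul_apply, e4,
        smul_eq_mul, smul_eq_mul]
      field_simp
    rw [e]
    exact Scd.coord (h.hT t ht) j
  · show HasDerivAt (fun s => z s j)
      ((pv a (x t))⁻¹ * eval (pt (x t) (y t) (z t)) (VF a (X (2, j)))) t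
    have e : (pv a (x t))⁻¹ * eval (pt (x t) (y t) (z t)) (VF a (X (2, j))) =
        (-(q t • y t) : Ek k) j := by
      have e1 : eval (pt (x t) (y t) (z t)) (X (1, j) : Rk k) = y t j := by
        rw [eval_X]
        rfl
      rw [VF_X2, map_neg, map_mul, h.evalK ht, e1, PiLp.neg_apply, PiLp.smul_apply, smul_eq_mul]
      field_simp
    rw [e]
    exact Scd.coord (h.hN t ht) j

/-- The derivative of `P` along the curve. -/
theorem Scd.hasDerivAt_pv (h : Scd a δ x y z q q1) {t : ℝ} (ht : t ∈ Set.Ioo (-δ) δ) :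
    HasDerivAt (fun s => pv a (x s)) (eval (pt (x t) (y t) (z t)) (EP a)) t := by
  have h1 := h.deriv_eval ht (PP a)
  rw [VF_PP, map_mul, eval_PP, inv_mul_cancel_left₀ (h.pv_pos ht).ne'] at h1
  simp only [eval_PP] at h1
  exact h1

theorem Scd.nhds (_ : Scd a δ x y z q q1) {t : ℝ} (ht : t ∈ Set.Ioo (-δ) δ) :
    Set.Ioo (-δ) δ ∈ nhds t := isOpen_Ioo.mem_nhds ht

theorem Scd.evalM (h : Scd a δ x y z q q1) {t : ℝ} (ht : t ∈ Set.Ioo (-δ) δ) :
    eval (pt (x t) (y t) (z t)) (MP a) = pv a (x t) ^ 2 * q1 t := by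
  have hp := (h.pv_pos ht).ne'
  have h1 := h.deriv_eval ht (KP a)
  have h2 : HasDerivAt (fun s => eval (pt (x s) (y s) (z s)) (KP a))
      (eval (pt (x t) (y t) (z t)) (EP a) * q t + pv a (x t) * q1 t) t :=
    ((h.hasDerivAt_pv ht).mul (h.hq t ht)).congr_of_eventuallyEq
      (Filter.eventuallyEq_of_mem (h.nhds ht) fun s hs => h.evalK hs)
  have h3 := h1.unique h2
  have h4 : eval (pt (x t) (y t) (z t)) (VF a (KP a)) = pv a (x t) *
      (eval (pt (x t) (y t) (z t)) (EP a) * q t + pv a (x t) * q1 t) := by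
    rw [← h3, mul_inv_cancel_left₀ hp]
  unfold MP
  rw [map_sub, map_mul, h4, h.evalK ht]
  ring

theorem Scd.evalF (h : Scd a δ x y z q q1) {t : ℝ} (ht : t ∈ Set.Ioo (-δ) δ) :
    eval (pt (x t) (y t) (z t)) (FP a) = 0 := by
  have hp := (h.pv_pos ht).ne'
  have h1 := h.deriv_eval ht (MP a)
  have h2 := (((h.hasDerivAt_pv ht).pow 2).mul (h.hq1 t ht)).congr_of_eventuallyEq
      (Filter.eventuallyEq_of_mem (h.nhds ht) fun s hs => h.evalM hs)
  have h3 := h1.unique h2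
  obtain ⟨p, hp'⟩ : ∃ p, p = pv a (x t) := ⟨_, rfl⟩
  obtain ⟨H, hH⟩ : ∃ H, H = ∑ i, inner ℝ (a i) (y t) / dv a (x t) i := ⟨_, rfl⟩
  obtain ⟨S, hS⟩ : ∃ S, S = ∑ i, (inner ℝ (a i) (z t) / dv a (x t) i) ^ 2 := ⟨_, rfl⟩
  have hE := h.evalE ht
  rw [← hH, ← hp'] at hE
  have h5 : ∑ i, eval (pt (x t) (y t) (z t)) (aN a i ^ 2 * coP a i ^ 2) = p ^ 2 * S := by
    rw [hS, Finset.mul_sum]
    refine Finset.sum_congr rfl fun i _ => ?_
    rw [map_mul, map_pow, map_pow, eval_aN, eval_coP, h.co ht i, ← hp']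
    ring
  have h4 : eval (pt (x t) (y t) (z t)) (VF a (MP a)) = p *
      (2 * p * (p * H) * q1 t + p ^ 2 * (q t * (q t ^ 2 + S) - q1 t * H)) := by
    rw [← hp'] at h3 hp
    rw [← hS, ← hH, hE] at h3
    rw [← mul_inv_cancel_left₀ hp (eval (pt (x t) (y t) (z t)) (VF a (MP a))), h3]
    simp only [Pi.pow_apply, ← hp']
    push_cast
    ring
  unfold FP
  rw [map_sub, map_sub, map_sub, map_mul, map_mul, map_pow, map_sum, h4, h5, h.evalK ht,
    h.evalM ht, hE, ← hp']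
  ring

theorem Scd.evalVF (h : Scd a δ x y z q q1) (j : ℕ) : ∀ t ∈ Set.Ioo (-δ) δ,
    eval (pt (x t) (y t) (z t)) ((VF a)^[j] (FP a)) = 0 := by
  induction j with
  | zero => exact fun t ht => h.evalF ht
  | succ j ih =>
    intro t ht
    have h1 := h.deriv_eval ht ((VF a)^[j] (FP a))
    have h2 : HasDerivAt (fun s => eval (pt (x s) (y s) (z s)) ((VF a)^[j] (FP a))) 0 t :=
      (hasDerivAt_const t (0 : ℝ)).congr_of_eventuallyEq
        (Filter.eventuallyEq_of_mem (h.nhds ht) fun s hs => ih s hs)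
    have h3 := h1.unique h2
    rw [Function.iterate_succ_apply']
    exact (mul_eq_zero.mp h3).resolve_left (inv_ne_zero (h.pv_pos ht).ne')

theorem Scd.initial (h : Scd a δ x y z q q1) (hδ : 0 < δ) :
    eval (pt 0 (y 0) (z 0)) (KP a) = q 0 ∧ eval (pt 0 (y 0) (z 0)) (MP a) = q1 0 ∧
      ∀ j : ℕ, eval (pt 0 (y 0) (z 0)) ((VF a)^[j] (FP a)) = 0 := by
  have h0 : (0 : ℝ) ∈ Set.Ioo (-δ) δ := ⟨neg_lt_zero.mpr hδ, hδ⟩
  have hp : pv a (0 : Ek k) = 1 := by
    unfold pv dv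
    exact Finset.prod_eq_one fun i _ => by rw [inner_zero_right, add_zero]
  have h1 := h.evalK h0
  have h2 := h.evalM h0
  rw [h.x0, hp] at h1 h2
  refine ⟨by rw [h1, one_mul], by rw [h2, one_pow, one_mul], fun j => ?_⟩
  have h3 := h.evalVF j 0 h0
  rwa [h.x0] at h3

end Pool.Agent.Lib.MP_3248c9_gt.Pn
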