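import Pool.Agent.Lib.MP_3248c9_gt.Pn.ScdOf
import Pool.Agent.Lib.MP_3248c9_gt.Pn.Scd
import Pool.Agent.Lib.MP_3248c9_gt.Pn.PEnd

/-!
# The operator system has no solution with `q q1 != 0`

Signs: `(A, y, z, q, q1) -> (A, y, -z, -q, -q1)` and `(A(-t), -y(-t), z(-t), q(-t), -q1(-t))` preserve the system; so we may assume
`q 0 > 0`, `q1 0 > 0` when `q 0 * q1 0 != 0`. Twin: the end of `Hy/Star.lean`.
-/

set_option autoImplicit false

namespace Pool.Agent.Lib.MP_3248c9_gt.Pn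

open Set

variable {k : ℕ} {ε : ℝ} {A : ℝ → Ek k →L[ℝ] (Ek k →L[ℝ] Ek k)} {y z : ℝ → Ek k}
  {q q1 : ℝ → ℝ}

/-- The trace of the opposite. -/
theorem send_tr (B : Ek k →L[ℝ] Ek k) : Hy.tr (-B) = -Hy.tr B := by
  simp only [Hy.tr, ContinuousLinearMap.toLinearMap_neg, map_neg]

theorem send_mul (B C : Ek k →L[ℝ] Ek k) : B * -C = -(B * C) :=
  ContinuousLinearMap.ext fun w => map_neg B (C w)

theorem send_neg_mul (B C : Ek k →L[ℝ] Ek k) : -B * -C = B * C :=
  ContinuousLinearMap.ext fun w => by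
    change -(B (-(C w))) = B (C w)
    rw [map_neg, neg_neg]

theorem PStar.neg (h : PStar ε A y z q q1) :
    PStar ε A y (fun t => -z t) (fun t => -q t) (fun t => -q1 t) := by
  refine ⟨h.sym, h.hA, fun t ht c => ?_, fun t ht => ?_, fun t ht => ?_, fun t ht => ?_,
    fun t ht => ?_, h.TT, fun t ht => ?_, fun t ht => ?_⟩
  · refine (h.hT t ht c).congr_deriv ?_
    rw [inner_neg_left]
    ring
  · refine (h.hN t ht).fun_neg.congr_deriv ?_
    rw [neg_smul]
  · exact (h.hq t ht).fun_neg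
  · refine (h.hq1 t ht).fun_neg.congr_deriv ?_
    rw [map_neg, send_neg_mul]
    ring
  · have h1 := h.trz t ht
    rw [map_neg, send_tr, h1]
    ring
  · rw [norm_neg]
    exact h.NN t ht
  · rw [inner_neg_right, h.TN t ht, neg_zero]

theorem PStar.rev (h : PStar ε A y z q q1) :
    PStar ε (fun t => A (-t)) (fun t => -y (-t)) (fun t => z (-t)) (fun t => q (-t))
      (fun t => -q1 (-t)) := by
  have hm : ∀ t ∈ Ioo (-ε) ε, -t ∈ Ioo (-ε) ε := fun t ht => ⟨by linarith [ht.2], by linarith [ht.1]⟩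
  refine ⟨fun t ht => h.sym _ (hm t ht), fun t ht c => ?_, fun t ht c => ?_, fun t ht => ?_,
    fun t ht => ?_, fun t ht => ?_, fun t ht => h.trz _ (hm t ht), fun t ht => ?_,
    fun t ht => h.NN _ (hm t ht), fun t ht => ?_⟩
  · have h1 := (h.hA _ (hm t ht) c).scomp t (hasDerivAt_neg t)
    refine h1.congr_deriv ?_
    rw [neg_one_smul, map_neg, send_mul]
  · have h1 := (h.hT _ (hm t ht) c).scomp t (hasDerivAt_neg t)
    have h2 := h1.fun_neg
    have h3 : (fun s => (inner ℝ (-y (-s)) c : ℝ)) =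
        fun s => -((fun s => (inner ℝ (y s) c : ℝ)) ∘ Neg.neg) s := by
      funext s
      rw [inner_neg_left]
      rfl
    rw [h3]
    refine h2.congr_deriv ?_
    rw [map_neg, send_tr, inner_neg_left, smul_eq_mul]
    ring
  · have h1 := (h.hN _ (hm t ht)).scomp t (hasDerivAt_neg t)
    refine h1.congr_deriv ?_
    rw [neg_one_smul, smul_neg]
  · have h1 := (h.hq _ (hm t ht)).scomp t (hasDerivAt_neg t)
    refine h1.congr_deriv ?_
    rw [neg_one_smul]
  · have h1 := (h.hq1 _ (hm t ht)).scomp t (hasDerivAt_neg t)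
    refine h1.fun_neg.congr_deriv ?_
    rw [neg_one_smul, neg_neg, map_neg, send_tr]
    ring
  · rw [norm_neg]
    exact h.TT _ (hm t ht)
  · rw [inner_neg_left, h.TN _ (hm t ht), neg_zero]

theorem PStar.false_of_pos (h : PStar ε A y z q q1) (hε : 0 < ε) (k0 : 0 < q 0)
    (k10 : 0 < q1 0) : False := by
  obtain ⟨a, δ, x, hδ, hs⟩ := h.scd hε
  obtain ⟨h1, h2, h3⟩ := hs.initial hδ
  have h0 : (0 : ℝ) ∈ Ioo (-δ) δ := ⟨by linarith, hδ⟩
  exact kdim a (y 0) (z 0) (hs.TT 0 h0) (hs.NN 0 h0) (hs.TN 0 h0) (h1 ▸ k0) (h2 ▸ k10) h3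

theorem PStar.mul_eq_zero (h : PStar ε A y z q q1) (hε : 0 < ε) : q 0 * q1 0 = 0 := by
  by_contra hne
  have hk : q 0 ≠ 0 := left_ne_zero_of_mul hne
  have hk1 : q1 0 ≠ 0 := right_ne_zero_of_mul hne
  rcases lt_or_gt_of_ne hk with h1 | h1 <;> rcases lt_or_gt_of_ne hk1 with h2 | h2
  · exact h.neg.false_of_pos hε (by simpa using h1) (by simpa using h2)
  · exact h.neg.rev.false_of_pos hε (by simpa using h1) (by simpa using h2)
  · exact h.rev.false_of_pos hε (by simpa using h1) (by simpa using h2)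
  · exact h.false_of_pos hε h1 h2

end Pool.Agent.Lib.MP_3248c9_gt.Pn
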