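import Pool.Agent.Lib.MP_3248c9_gt.Pn.GTrc
import Pool.Agent.Lib.MP_3248c9_gt.Pn.GDer
import Pool.Agent.Lib.MP_3248c9_gt.Pn.SEnd
import Pool.Agent.Lib.MP_3248c9_gt.Hy.GCurve

/-!
# The integral curve and the contradiction

Model: `Hy/GCurve.lean` (`exists_curve`, chain rule). Integral curve `z(t)` of the smooth field `y ↦ J y (e y)` through `x`.
`pstar`: `A t c = Ao (z t) c`, `y t = e (z t)`, `z t = N (z t)`, `q t = kp (z t)`, `q1 t = -(om (z t)/2)`; `hA` is `Ao_der`, `hT` is `Ao_tr`,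
`hN` is `dN_eh`, `hq` is `dk_eh`, `hq1` is `normal_eq`, `trz` is `Ao_trN`.
`false_of_simple`: `PStar.mul_eq_zero`.
-/

set_option autoImplicit false

namespace Pool.Agent.Lib.MP_3248c9_gt.Pn

open Set Pool.Agent.Lib.MP_3248c9_gt.Hy
open scoped ContDiff

variable {E : Type} [NormedAddCommGroup E] [NormedSpace ℝ E] [FiniteDimensional ℝ E] {k : ℕ}
  {V : Set E} {f N : E → Ek k} {J : E → Ek k →L[ℝ] E} {e : E → Ek k} {kp om : E → ℝ} {x : E}

/-- the chain rule along the curve -/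
private theorem GCur_chain {G : Type} [NormedAddCommGroup G] [NormedSpace ℝ G] {V : Set E}
    (hV : IsOpen V) {A : E → G} (hA : ContDiffOn ℝ ∞ A V) {z : ℝ → E} {v : E} {t : ℝ}
    (hzV : z t ∈ V) (hz : HasDerivAt z v t) :
    HasDerivAt (fun r => A (z r)) (fderiv ℝ A (z t) v) t := by
  have h1 : DifferentiableAt ℝ A (z t) :=
    (hA.contDiffAt (hV.mem_nhds hzV)).differentiableAt (by simp)
  exact h1.hasFDerivAt.comp_hasDerivAt t hz

theorem FrP.pstar (h : FrP V f N J e kp om)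
    (hi : ∀ y ∈ V, Function.Injective (Pg f N J e kp y)) {ε : ℝ} {z : ℝ → E}
    (hzV : ∀ t ∈ Ioo (-ε) ε, z t ∈ V)
    (hz : ∀ t ∈ Ioo (-ε) ε, HasDerivAt z (J (z t) (e (z t))) t) :
    PStar ε (fun t => Ao f J e (z t)) (fun t => e (z t)) (fun t => N (z t)) (fun t => kp (z t))
      (fun t => -(om (z t) / 2)) where
  sym := fun t ht c w w' => h.Ao_symm (hzV t ht) (hi _ (hzV t ht)) c w w'
  hA := fun t ht c => by
    have h0 : ContDiffOn ℝ ∞ (fun y => Ao f J e y c) V := h.Ao_smooth.clm_apply contDiffOn_const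
    have h1 := GCur_chain h.op h0 (hzV t ht) (hz t ht)
    rw [h.Ao_der (hzV t ht) hi c] at h1
    exact h1
  hT := fun t ht c => by
    have h1 := GCur_chain h.op h.es (hzV t ht) (hz t ht)
    have h2 := h1.inner ℝ (hasDerivAt_const t c)
    rw [inner_zero_right, zero_add, h.Ao_tr (hzV t ht) (hi _ (hzV t ht)) c] at h2
    exact h2
  hN := fun t ht => by
    have h1 := GCur_chain h.op h.Ns (hzV t ht) (hz t ht)
    rw [h.DN_eq (hzV t ht), h.e_tan (hzV t ht), h.She _ (hzV t ht)] at h1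
    exact h1
  hq := fun t ht => by
    have h1 := GCur_chain h.op h.ks (hzV t ht) (hz t ht)
    rw [h.dk_eh (hzV t ht)] at h1
    exact h1
  hq1 := fun t ht => by
    have h0 : ContDiffOn ℝ ∞ (fun y => -(om y / 2)) V := (h.os.div_const 2).neg
    have h1 := GCur_chain h.op h0 (hzV t ht) (hz t ht)
    rw [h.normal_eq (hzV t ht) (hi _ (hzV t ht))] at h1
    exact h1
  trz := fun t ht => h.Ao_trN (hzV t ht) (hi _ (hzV t ht))
  TT := fun t ht => by
    have h1 := h.ee _ (hzV t ht)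
    rw [real_inner_self_eq_norm_sq] at h1
    have h2 := norm_nonneg (e (z t))
    nlinarith
  NN := fun t ht => by
    have h1 := h.unit _ (hzV t ht)
    rw [real_inner_self_eq_norm_sq] at h1
    have h2 := norm_nonneg (N (z t))
    nlinarith
  TN := fun t ht => by
    rw [real_inner_comm]
    exact h.eN (hzV t ht)

theorem FrP.false_of_simple (h : FrP V f N J e kp om) (hx : x ∈ V)
    (hi : ∀ y ∈ V, Function.Injective (Pg f N J e kp y)) (hk : kp x ≠ 0) : False := by
  have hX : ContDiffOn ℝ ∞ (fun y => J y (e y)) V := h.Js.clm_apply h.es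
  obtain ⟨ε, z, hε, hz0, hzV, hz⟩ := exists_curve h.op hX hx
  have h1 := (h.pstar hi hzV hz).mul_eq_zero hε
  rw [hz0] at h1
  have h2 := h.om0 x hx
  rcases mul_eq_zero.1 h1 with h3 | h3
  · exact hk h3
  · apply h2
    linarith

end Pool.Agent.Lib.MP_3248c9_gt.Pn
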