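import Pool.Agent.Lib.MP_3248c9_gt.Hy.GBasic

/-!
# Immersed patches of any codimension with a parallel unit normal field, coordinate free

`f : E → F` is a smooth map on the open set `U` with injective derivative (left inverse `J x`), `Tf = Df ∘ J` is the
orthogonal projection on the tangent space (`orth`), `N` is a unit normal field whose derivatives are tangential (`par`).
`Sh N J x = - DN(x) ∘ J(x)`, its trace `ph` and the gradient `gr` of `ph` are those of the folder `Hy`.
For a normal vector `nu`, `Hs f J x nu : w ↦ (D_{J w} Tf) nu` is the shape operator of `nu` (extended by zero), for a tangent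
vector `w`, `(D_v Tf) w` is the second fundamental form `II(Df v, w)`.
-/

set_option autoImplicit false

namespace Pool.Agent.Lib.MP_3248c9_gt.Pn

open Set Pool.Agent.Lib.MP_3248c9_gt.Hy
open scoped ContDiff

variable {E F : Type} [NormedAddCommGroup E] [NormedSpace ℝ E] [FiniteDimensional ℝ E]
  [NormedAddCommGroup F] [InnerProductSpace ℝ F] [FiniteDimensional ℝ F] [CompleteSpace F]

/-- The projection on the tangent space. -/
noncomputable def Tf (f : E → F) (J : E → F →L[ℝ] E) (x : E) : F →L[ℝ] F :=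
  (fderiv ℝ f x).comp (J x)

/-- An immersed patch with left inverse `J` of the derivative and parallel unit normal `N`. -/
structure Pat (U : Set E) (f N : E → F) (J : E → F →L[ℝ] E) : Prop where
  op : IsOpen U
  fs : ContDiffOn ℝ ∞ f U
  Ns : ContDiffOn ℝ ∞ N U
  Js : ContDiffOn ℝ ∞ J U
  left : ∀ x ∈ U, ∀ v, J x (fderiv ℝ f x v) = v
  orth : ∀ x ∈ U, ∀ w v, inner ℝ (Tf f J x w) (fderiv ℝ f x v) = inner ℝ w (fderiv ℝ f x v)
  unit : ∀ x ∈ U, inner ℝ (N x) (N x) = 1
  normal : ∀ x ∈ U, ∀ v, inner ℝ (N x) (fderiv ℝ f x v) = 0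
  par : ∀ x ∈ U, ∀ v, Tf f J x (fderiv ℝ N x v) = fderiv ℝ N x v

/-- `w ↦ (D_{J w} Tf) nu`: the shape operator of the normal vector `nu`. -/
noncomputable def Hs (f : E → F) (J : E → F →L[ℝ] E) (x : E) (nu : F) : F →L[ℝ] F :=
  ((fderiv ℝ (Tf f J) x).flip nu).comp (J x)

/-- A patch which satisfies the biharmonic equations, with mean curvature vector `ph N`. -/
structure BihP (U : Set E) (f N : E → F) (J : E → F →L[ℝ] E) : Prop extends Pat U f N J where
  tang : ∀ x ∈ U, Sh N J x (gr N J x) = -(ph N J x / 2) • gr N J x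
  nrml : ∀ x ∈ U, tr ((fderiv ℝ (gr N J) x).comp (J x)) =
    ph N J x * tr (Sh N J x * Sh N J x)
  mean : ∀ x ∈ U, ∀ nu, tr (Hs f J x nu) = ph N J x * inner ℝ (N x) nu

/-- A patch with a principal unit vector field `e` with principal curvature `kp` such that
`grad kp = -(om/2) e`, the normal equation and the mean curvature vector `-2 kp N`. -/
structure FrP (V : Set E) (f N : E → F) (J : E → F →L[ℝ] E) (e : E → F) (kp om : E → ℝ) : Prop
    extends Pat V f N J where
  es : ContDiffOn ℝ ∞ e V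
  ks : ContDiffOn ℝ ∞ kp V
  os : ContDiffOn ℝ ∞ om V
  ee : ∀ x ∈ V, inner ℝ (e x) (e x) = 1
  et : ∀ x ∈ V, Tf f J x (e x) = e x
  She : ∀ x ∈ V, Sh N J x (e x) = kp x • e x
  dk : ∀ x ∈ V, ∀ v, fderiv ℝ kp x v = -(om x / 2) * inner ℝ (e x) (fderiv ℝ f x v)
  om0 : ∀ x ∈ V, om x ≠ 0
  trk : ∀ x ∈ V, tr (Sh N J x) = -2 * kp x
  nrm : ∀ x ∈ V, fderiv ℝ om x (J x (e x)) + om x * tr ((fderiv ℝ e x).comp (J x)) =
    -2 * kp x * tr (Sh N J x * Sh N J x)
  mean : ∀ x ∈ V, ∀ nu, tr (Hs f J x nu) = -2 * kp x * inner ℝ (N x) nu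

/-- The projection on the orthogonal complement `W` of `e` in the tangent space. -/
noncomputable def Qf (f : E → F) (J : E → F →L[ℝ] E) (e : E → F) (x : E) : F →L[ℝ] F :=
  Tf f J x - rk (e x)

/-- The operator which is injective iff `kp` is a simple principal curvature. -/
noncomputable def Pg (f N : E → F) (J : E → F →L[ℝ] E) (e : E → F) (kp : E → ℝ) (x : E) :
    F →L[ℝ] F := Sh N J x - kp x • Tf f J x + (1 - Qf f J e x)

/-- `Mq x nu w = - (D_{J Q w} Q) nu`: for `nu` in the kernel of `Q` this is (minus) the second fundamental form of the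
level sets of `kp` in `F`, with respect to the normal vector `nu`. -/
noncomputable def Mq (f : E → F) (J : E → F →L[ℝ] E) (e : E → F) (x : E) :
    F →L[ℝ] F →L[ℝ] F :=
  -(((ContinuousLinearMap.compL ℝ F E F).flip ((J x).comp (Qf f J e x))).comp
    (fderiv ℝ (Qf f J e) x).flip)

omit [CompleteSpace F] [FiniteDimensional ℝ F] [FiniteDimensional ℝ E] in
theorem Mq_apply (f : E → F) (J : E → F →L[ℝ] E) (e : E → F) (x : E) (nu w : F) :
    Mq f J e x nu w = -(fderiv ℝ (Qf f J e) x (J x (Qf f J e x w)) nu) := by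
  rfl

end Pool.Agent.Lib.MP_3248c9_gt.Pn
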