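import Pool.Agent.Lib.MP_3248c9_gt.Pn.GCod
import Pool.Agent.Lib.MP_3248c9_gt.Hy.GFrame

/-!
# The frame equations

Model: `Hy/GFrame.lean` (same statements, same proofs; `e_tan` is now `et`).
-/

set_option autoImplicit false

namespace Pool.Agent.Lib.MP_3248c9_gt.Pn

open Set Pool.Agent.Lib.MP_3248c9_gt.Hy
open scoped ContDiff

variable {E F : Type} [NormedAddCommGroup E] [NormedSpace ℝ E] [FiniteDimensional ℝ E]
  [NormedAddCommGroup F] [InnerProductSpace ℝ F] [FiniteDimensional ℝ F] [CompleteSpace F]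
  {V : Set E} {f N : E → F} {J : E → F →L[ℝ] E} {e : E → F} {kp om : E → ℝ} {x : E}

theorem FrP.e_tan (h : FrP V f N J e kp om) (hx : x ∈ V) : fderiv ℝ f x (J x (e x)) = e x := by
  exact h.et x hx

theorem FrP.eN (h : FrP V f N J e kp om) (hx : x ∈ V) : inner ℝ (N x) (e x) = 0 := by
  rw [← h.et x hx]
  exact h.normal x hx _

theorem FrP.de_e (h : FrP V f N J e kp om) (hx : x ∈ V) (v : E) :
    inner ℝ (fderiv ℝ e x v) (e x) = 0 := by
  have he := gfr_diff h.op h.es hx
  have h1 := gfr_inner he he v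
  have h2 := gfr_congr h.op (g := fun y => (inner ℝ (e y) (e y) : ℝ)) (g' := fun _ => 1)
    (fun y hy => h.ee y hy) hx
  rw [h2, fderiv_fun_const, Pi.zero_apply, zero_apply,
    real_inner_comm (fderiv ℝ e x v) (e x)] at h1
  linarith

theorem FrP.de_N (h : FrP V f N J e kp om) (hx : x ∈ V) (v : E) :
    inner ℝ (fderiv ℝ e x v) (N x) = kp x * inner ℝ (e x) (fderiv ℝ f x v) := by
  have he := gfr_diff h.op h.es hx
  have hN := gfr_diff h.op h.Ns hx
  have h1 := gfr_inner hN he v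
  have h2 := gfr_congr h.op (g := fun y => (inner ℝ (N y) (e y) : ℝ)) (g' := fun _ => 0)
    (fun y hy => h.eN hy) hx
  rw [h2, fderiv_fun_const, Pi.zero_apply, zero_apply, h.DN_eq hx,
    inner_neg_left, h.Sh_symm hx, h.She x hx, inner_smul_right] at h1
  rw [real_inner_comm (N x), real_inner_comm (fderiv ℝ f x v)]
  linarith

theorem FrP.hess (h : FrP V f N J e kp om) (hx : x ∈ V) {v w : E}
    (hv : inner ℝ (e x) (fderiv ℝ f x v) = 0) (hw : inner ℝ (e x) (fderiv ℝ f x w) = 0) :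
    inner ℝ (fderiv ℝ e x v) (fderiv ℝ f x w) = inner ℝ (fderiv ℝ e x w) (fderiv ℝ f x v) := by
  have he := gfr_diff h.op h.es hx
  have ho := gfr_diff h.op h.os hx
  have hf' := gfr_diff h.op h.Df_smooth hx
  have hk' : DifferentiableAt ℝ (fderiv ℝ kp) x :=
    ((h.ks.contDiffAt (h.op.mem_nhds hx)).fderiv_right (m := 1) (by
      norm_cast)).differentiableAt one_ne_zero
  -- the second derivative of `kp`
  have key : ∀ a b : E, inner ℝ (e x) (fderiv ℝ f x b) = 0 →
      fderiv ℝ (fderiv ℝ kp) x a b = -(om x / 2) *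
        (inner ℝ (e x) (fderiv ℝ (fderiv ℝ f) x a b) +
          inner ℝ (fderiv ℝ e x a) (fderiv ℝ f x b)) := by
    intro a b hb
    have h1 : fderiv ℝ (fun y => fderiv ℝ kp y b) x a = fderiv ℝ (fderiv ℝ kp) x a b := by
      rw [gfr_app hk' (differentiableAt_const b)]
      simp
    have h2 : fderiv ℝ (fun y => fderiv ℝ f y b) x a = fderiv ℝ (fderiv ℝ f) x a b := by
      rw [gfr_app hf' (differentiableAt_const b)]
      simp
    have hfb : DifferentiableAt ℝ (fun y => fderiv ℝ f y b) x :=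
      hf'.clm_apply (differentiableAt_const b)
    have h3 := gfr_congr h.op (g := fun y => fderiv ℝ kp y b)
      (g' := fun y => -(om y / 2) • (inner ℝ (e y) (fderiv ℝ f y b) : ℝ))
      (fun y hy => by rw [h.dk y hy, smul_eq_mul]) hx
    have hom : DifferentiableAt ℝ (fun y => -(om y / 2)) x := by
      have h5 : (fun y => -(om y / 2)) = fun y => (-(1 / 2 : ℝ)) * om y := by
        funext y
        ring
      rw [h5]
      exact ho.const_mul _
    have h4 := gfr_smul hom (he.inner ℝ hfb) a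
    rw [← h1, h3, h4, gfr_inner he hfb, h2, hb, smul_zero, add_zero, smul_eq_mul]
  have hsk : fderiv ℝ (fderiv ℝ kp) x v w = fderiv ℝ (fderiv ℝ kp) x w v :=
    ((h.ks.contDiffAt (h.op.mem_nhds hx)).isSymmSndFDerivAt (by simp; norm_cast)).eq v w
  rw [key v w hw, key w v hv, h.f2_symm hx v w] at hsk
  have h0 := h.om0 x hx
  have h5 : -(om x / 2) ≠ 0 := by
    intro h6
    apply h0
    linarith
  have h6 := mul_left_cancel₀ h5 hsk
  linarith

theorem FrP.cod_e (h : FrP V f N J e kp om) (hx : x ∈ V) (v : E) :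
    fderiv ℝ (Sh N J) x v (e x) =
      fderiv ℝ kp x v • e x + kp x • fderiv ℝ e x v - Sh N J x (fderiv ℝ e x v) := by
  have he := gfr_diff h.op h.es hx
  have hk := gfr_diff h.op h.ks hx
  have hS := gfr_diff h.op h.Sh_smooth hx
  have h1 := gfr_congr h.op (g := fun y => Sh N J y (e y)) (g' := fun y => kp y • e y)
    (fun y hy => h.She y hy) hx
  have h2 := gfr_app hS he v
  have h3 := gfr_smul hk he v
  rw [h1, h3] at h2
  rw [eq_sub_iff_add_eq, add_comm (fderiv ℝ kp x v • e x), h2, add_comm]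

theorem FrP.dk_eh (h : FrP V f N J e kp om) (hx : x ∈ V) :
    fderiv ℝ kp x (J x (e x)) = -(om x / 2) := by
  rw [h.dk x hx, h.e_tan hx, h.ee x hx, mul_one]

theorem FrP.geo0 (h : FrP V f N J e kp om) (hx : x ∈ V) (w : E) :
    inner ℝ (kp x • fderiv ℝ e x (J x (e x)) - Sh N J x (fderiv ℝ e x (J x (e x))))
      (fderiv ℝ f x w) = 0 := by
  have h1 := h.cod_e hx (J x (e x))
  have h2 : kp x • fderiv ℝ e x (J x (e x)) - Sh N J x (fderiv ℝ e x (J x (e x))) =
      fderiv ℝ (Sh N J) x (J x (e x)) (e x) - fderiv ℝ kp x (J x (e x)) • e x := by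
    rw [h1]
    abel
  rw [h2, inner_sub_left, h.cod23 hx, h.cod12 hx, h.e_tan hx, h.cod_e hx w, inner_sub_right,
    inner_add_right, inner_smul_right, inner_smul_right, inner_smul_left, ← h.Sh_symm hx,
    h.She x hx, inner_smul_left, h.ee x hx, h.dk_eh hx, h.dk x hx]
  simp only [conj_trivial]
  ring

theorem FrP.simple_dir (h : FrP V f N J e kp om) (hx : x ∈ V) {v : E}
    (hv : inner ℝ (e x) (fderiv ℝ f x v) = 0)
    (hs : Sh N J x (fderiv ℝ f x v) = kp x • fderiv ℝ f x v) :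
    inner ℝ (fderiv ℝ (Sh N J) x (J x (e x)) (fderiv ℝ f x v)) (fderiv ℝ f x v) = 0 := by
  rw [h.cod12 hx, h.e_tan hx, h.cod_e hx v, inner_sub_left, inner_add_left, inner_smul_left,
    inner_smul_left, h.Sh_symm hx, hs, inner_smul_right, hv]
  simp only [conj_trivial]
  ring

end Pool.Agent.Lib.MP_3248c9_gt.Pn
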