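import Pool.Agent.Lib.MP_3248c9_gt.Pn.GSim

/-!
# The projection `Q` on `W` and its constancy along the curves of `e`, at simple points

`Q w = Tf w - <e, w> e`. Model: `Hy/GGeod.lean`.
* `Q_apply`, `Q_Q`, `Q_symm`, `Q_e`, `Q_N`, `Tf_Q`, `e_Q`: algebra with `Tf_Tf`, `Tf_symm`, `et`, `ee`, `Tf_N`, `eN`.
* `Pg_W`: for `w` in `W` (`Tf w = w`, `<e, w> = 0`) there is `u` in `W` with `Sh u - kp u = w`: `Pg` is injective on the finite dimensional
  space `F`, hence surjective, `w = Pg u`; `Pg` is symmetric and `Pg e = e`, so `<u, e> = <u, Pg e> = <w, e> = 0`; `Tf (Pg u) = Pg u = w` gives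
  `u - Tf u = 0` (`Sh u`, `Tf u`, `e` are tangential).
* `geod`: `p = Tf (D_{eh} e)`: `geo0` gives `Tf (kp D_{eh} e - Sh (D_{eh} e)) = 0` (product with `Df (J ..)`, `orth`), i.e. `kp p - Sh p = 0` (`Sh_Tf`, `Tf_Sh`);
  `<e, p> = <Tf e, D_{eh} e> = 0` (`de_e`), so `Pg p = 0`.
* `DT_e`: `D_v Tf e = D_v e - Tf (D_v e)` (differentiate `et`).  `DT_ee`: hence `D_{eh} Tf e = D_{eh} e` by `geod`.
* `ric_e`: write `w = Sh u - kp u` (`Pg_W`); `ric` with the directions `eh` and `J u`: `(D_{eh} Tf)(Sh u) = (D_{J u} Tf)(Sh e) = kp (D_{J u} Tf) e = kp (D_{eh} Tf) u`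
  (`DT_swap`, `Df (J u) = Tf u = u`, `e_tan`). `DT_We`: `DT_swap` once more.
* `de_W`: `D_v e - Tf (D_v e) = D_v Tf e = 0` for `v = J w` by `DT_We`, and `<e, D_v e> = 0`.
* `dQ`: `D_{eh} Q = D_{eh} Tf - D_{eh} (rk e)`, `D_{eh} (rk e) w = <p, w> e + <e, w> p`, `p = D_{eh} e` (normal by `geod`). On `w ∈ W`: all terms are `0`
  (`ric_e`). On `e`: `p - p = 0` (`DT_ee`). On a normal `nu`: `(D_{eh} Tf) nu` is tangential (`DT_nrm`), its product with `w' ∈ W` is
  `<nu, (D_{eh} Tf) w'> = 0` and with `e` it is `<nu, p>`; so `(D_{eh} Tf) nu = <nu, p> e`: the difference is `0`. `w = Q w + <e, w> e + (w - Tf w)`.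
-/

set_option autoImplicit false

namespace Pool.Agent.Lib.MP_3248c9_gt.Pn

open Set Pool.Agent.Lib.MP_3248c9_gt.Hy
open scoped ContDiff

variable {E F : Type} [NormedAddCommGroup E] [NormedSpace ℝ E] [FiniteDimensional ℝ E]
  [NormedAddCommGroup F] [InnerProductSpace ℝ F] [FiniteDimensional ℝ F] [CompleteSpace F]
  {V : Set E} {f N : E → F} {J : E → F →L[ℝ] E} {e : E → F} {kp om : E → ℝ} {x : E}

theorem Q_apply (f : E → F) (J : E → F →L[ℝ] E) (e : E → F) (x : E) (w : F) :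
    Qf f J e x w = Tf f J x w - (inner ℝ (e x) w : ℝ) • e x := by
  rfl

private theorem FrP.GGeo_eT (h : FrP V f N J e kp om) (hx : x ∈ V) (w : F) :
    inner ℝ (e x) (Tf f J x w) = inner ℝ (e x) w := by
  rw [← h.Tf_symm hx, h.et x hx]

theorem FrP.Q_Q (h : FrP V f N J e kp om) (hx : x ∈ V) (w : F) :
    Qf f J e x (Qf f J e x w) = Qf f J e x w := by
  rw [Q_apply f J e x w, Q_apply, map_sub, map_smul, h.et x hx, h.Tf_Tf hx, inner_sub_right,
    inner_smul_right, h.ee x hx, h.GGeo_eT hx, mul_one, sub_self, zero_smul, sub_zero]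

theorem FrP.Q_symm (h : FrP V f N J e kp om) (hx : x ∈ V) (w w' : F) :
    inner ℝ (Qf f J e x w) w' = inner ℝ w (Qf f J e x w') := by
  rw [Q_apply, Q_apply, inner_sub_left, inner_sub_right, h.Tf_symm hx, inner_smul_left,
    inner_smul_right, real_inner_comm (e x) w, conj_trivial, mul_comm]

theorem FrP.Q_e (h : FrP V f N J e kp om) (hx : x ∈ V) : Qf f J e x (e x) = 0 := by
  rw [Q_apply, h.et x hx, h.ee x hx, one_smul, sub_self]

theorem FrP.Q_N (h : FrP V f N J e kp om) (hx : x ∈ V) : Qf f J e x (N x) = 0 := by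
  rw [Q_apply, h.Tf_N hx, real_inner_comm, h.eN hx, zero_smul, sub_zero]

theorem FrP.Tf_Q (h : FrP V f N J e kp om) (hx : x ∈ V) (w : F) :
    Tf f J x (Qf f J e x w) = Qf f J e x w := by
  rw [Q_apply, map_sub, map_smul, h.Tf_Tf hx, h.et x hx]

theorem FrP.e_Q (h : FrP V f N J e kp om) (hx : x ∈ V) (w : F) :
    inner ℝ (e x) (Qf f J e x w) = 0 := by
  rw [Q_apply, inner_sub_right, inner_smul_right, h.ee x hx, h.GGeo_eT hx, mul_one, sub_self]

theorem FrP.Pg_W (h : FrP V f N J e kp om) (hx : x ∈ V)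
    (hi : Function.Injective (Pg f N J e kp x)) {w : F} (hw : Tf f J x w = w)
    (he : inner ℝ (e x) w = 0) :
    ∃ u, Tf f J x u = u ∧ inner ℝ (e x) u = 0 ∧ Sh N J x u - kp x • u = w := by
  have hs : Function.Surjective (Pg f N J e kp x) := LinearMap.surjective_of_injective
    (f := (Pg f N J e kp x : F →ₗ[ℝ] F)) hi
  obtain ⟨u, hu⟩ := hs w
  have h0 : ∀ u, Pg f N J e kp x u = Sh N J x u - kp x • Tf f J x u + (u - Qf f J e x u) :=
    fun _ => rfl
  rw [h0] at hu
  have heu : inner ℝ (e x) u = 0 := by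
    have h1 : inner ℝ (e x) (Sh N J x u) = kp x * inner ℝ (e x) u := by
      rw [← h.Sh_symm hx, h.She x hx, inner_smul_left, conj_trivial]
    have h2 := congrArg (fun z => (inner ℝ (e x) z : ℝ)) hu
    simp only [inner_add_right, inner_sub_right, inner_smul_right] at h2
    rw [h1, h.GGeo_eT hx, he, h.e_Q hx] at h2
    linarith
  have hQ : Qf f J e x u = Tf f J x u := by
    rw [Q_apply, heu, zero_smul, sub_zero]
  have hT : Tf f J x u = u := by
    have h1 := congrArg (Tf f J x) hu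
    rw [hw, hQ, map_add, map_sub, map_sub, map_smul, h.Tf_Sh hx, h.Tf_Tf hx, sub_self,
      add_zero] at h1
    rw [hQ, ← h1] at hu
    have h2 := add_eq_left.1 hu
    exact (sub_eq_zero.1 h2).symm
  refine ⟨u, hT, heu, ?_⟩
  rw [hQ, hT, sub_self, add_zero] at hu
  exact hu

theorem FrP.geod (h : FrP V f N J e kp om) (hx : x ∈ V)
    (hi : Function.Injective (Pg f N J e kp x)) :
    Tf f J x (fderiv ℝ e x (J x (e x))) = 0 := by
  set q : F := fderiv ℝ e x (J x (e x)) with hq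
  have hqe : inner ℝ (e x) (Tf f J x q) = 0 := by
    rw [h.GGeo_eT hx, real_inner_comm]
    exact h.de_e hx (J x (e x))
  have h1 : Sh N J x (Tf f J x q) - kp x • Tf f J x q = 0 := by
    have h2 : kp x • Tf f J x q - Sh N J x q = 0 := by
      refine h.ext_tan hx ?_ (map_zero _) ?_
      · rw [map_sub, map_smul, h.Tf_Tf hx, h.Tf_Sh hx]
      · intro v
        have h3 := h.geo0 hx v
        rw [inner_sub_left, inner_smul_left, ← hq] at h3
        rw [inner_sub_left, inner_smul_left, h.orth x hx, h3, inner_zero_left]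
    rw [h.Sh_Tf hx, ← neg_sub, h2, neg_zero]
  have hP : Pg f N J e kp x (Tf f J x q) = 0 := by
    have h0 : Pg f N J e kp x (Tf f J x q) = Sh N J x (Tf f J x q) -
      kp x • Tf f J x (Tf f J x q) + (Tf f J x q - Qf f J e x (Tf f J x q)) := rfl
    rw [h0, h.Tf_Tf hx, h1, Q_apply, hqe, zero_smul, sub_zero, h.Tf_Tf hx, sub_self, add_zero]
  exact hi (by rw [hP, map_zero])

theorem FrP.DT_e (h : FrP V f N J e kp om) (hx : x ∈ V) (v : E) :
    fderiv ℝ (Tf f J) x v (e x) = fderiv ℝ e x v - Tf f J x (fderiv ℝ e x v) := by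
  exact eq_sub_of_add_eq (h.gtf_D hx (gfr_diff h.op h.es hx) (fun y hy => h.et y hy) v)

theorem FrP.DT_ee (h : FrP V f N J e kp om) (hx : x ∈ V)
    (hi : Function.Injective (Pg f N J e kp x)) :
    fderiv ℝ (Tf f J) x (J x (e x)) (e x) = fderiv ℝ e x (J x (e x)) := by
  rw [h.DT_e hx, h.geod hx hi, sub_zero]

theorem FrP.ric_e (h : FrP V f N J e kp om) (hx : x ∈ V)
    (hi : Function.Injective (Pg f N J e kp x)) {w : F} (hw : Tf f J x w = w)
    (he : inner ℝ (e x) w = 0) :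
    fderiv ℝ (Tf f J) x (J x (e x)) w = 0 := by
  obtain ⟨u, hu1, hu2, hu3⟩ := h.Pg_W hx hi hw he
  have e1 : fderiv ℝ f x (J x u) = u := hu1
  have h1 := h.toPat.ric hx (J x (e x)) (J x u)
  rw [e1, h.e_tan hx, h.She x hx, map_smul, h.toPat.DT_swap hx hu1 (h.et x hx)] at h1
  rw [← hu3, map_sub, map_smul, h1, sub_self]

theorem FrP.DT_We (h : FrP V f N J e kp om) (hx : x ∈ V)
    (hi : Function.Injective (Pg f N J e kp x)) {w : F} (hw : Tf f J x w = w)
    (he : inner ℝ (e x) w = 0) :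
    fderiv ℝ (Tf f J) x (J x w) (e x) = 0 := by
  rw [h.toPat.DT_swap hx hw (h.et x hx)]
  exact h.ric_e hx hi hw he

theorem FrP.de_W (h : FrP V f N J e kp om) (hx : x ∈ V)
    (hi : Function.Injective (Pg f N J e kp x)) {w : F} (hw : Tf f J x w = w)
    (he : inner ℝ (e x) w = 0) :
    Qf f J e x (fderiv ℝ e x (J x w)) = fderiv ℝ e x (J x w) := by
  have h1 := h.DT_e hx (J x w)
  rw [h.DT_We hx hi hw he] at h1
  rw [Q_apply, real_inner_comm, h.de_e hx, zero_smul, sub_zero]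
  exact (sub_eq_zero.1 h1.symm).symm

theorem FrP.dN_eh (h : FrP V f N J e kp om) (hx : x ∈ V) :
    fderiv ℝ N x (J x (e x)) = -(kp x • e x) := by
  rw [h.toPat.DN_eq hx, h.e_tan hx, h.She x hx]

/-- `Q` is constant along the integral curves of `e`. -/
theorem FrP.dQ (h : FrP V f N J e kp om) (hx : x ∈ V)
    (hi : Function.Injective (Pg f N J e kp x)) :
    fderiv ℝ (Qf f J e) x (J x (e x)) = 0 := by
  have hed := gfr_diff h.op h.es hx
  have hT := gfr_diff h.op h.Tf_smooth hx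
  have hrd : Differentiable ℝ (fun u : F => rk u) := rk_smooth.differentiable (by simp)
  have h1 : DifferentiableAt ℝ (fun y => rk (e y)) x := (hrd (e x)).comp x hed
  have h3 : HasFDerivAt (Qf f J e) (fderiv ℝ (Tf f J) x - fderiv ℝ (fun y => rk (e y)) x) x :=
    hT.hasFDerivAt.sub h1.hasFDerivAt
  have hee := h.DT_ee hx hi
  have hgeo := h.geod hx hi
  -- the derivative of `Tf` on a normal vector
  have hnrm : ∀ nu : F, Tf f J x nu = 0 → fderiv ℝ (Tf f J) x (J x (e x)) nu =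
      (inner ℝ (fderiv ℝ e x (J x (e x))) nu : ℝ) • e x := by
    intro nu hnu
    have h4 := h.toPat.DT_nrm hx (J x (e x)) hnu
    have h5 : (inner ℝ (Qf f J e x (fderiv ℝ (Tf f J) x (J x (e x)) nu))
        (Qf f J e x (fderiv ℝ (Tf f J) x (J x (e x)) nu)) : ℝ) = 0 := by
      rw [h.Q_symm hx, h.Q_Q hx, h.toPat.DT_symm hx, h.ric_e hx hi (h.Tf_Q hx _) (h.e_Q hx _),
        inner_zero_right]
    have h6 := inner_self_eq_zero.1 h5
    rw [Q_apply, h4, ← h.toPat.DT_symm hx, hee] at h6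
    exact sub_eq_zero.1 h6
  rw [h3.fderiv]
  ext w
  simp only [sub_apply, zero_apply, fderiv_rk hed]
  have h7 : w = Qf f J e x w + (inner ℝ (e x) w : ℝ) • e x + (w - Tf f J x w) := by
    rw [Q_apply]
    abel
  have h8 : fderiv ℝ (Tf f J) x (J x (e x)) w =
      (inner ℝ (e x) w : ℝ) • fderiv ℝ e x (J x (e x)) +
        (inner ℝ (fderiv ℝ e x (J x (e x))) w : ℝ) • e x := by
    conv_lhs => rw [h7]
    rw [map_add, map_add, h.ric_e hx hi (h.Tf_Q hx w) (h.e_Q hx w), map_smul, hee, zero_add,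
      hnrm _ (by rw [map_sub, h.toPat.Tf_Tf hx, sub_self]), inner_sub_right,
      ← h.toPat.Tf_symm hx, hgeo, inner_zero_left, sub_zero]
  rw [h8]
  abel

end Pool.Agent.Lib.MP_3248c9_gt.Pn
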