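import Pool.Agent.Lib.MP_3248c9_gt.Pn.GCur
import Pool.Agent.Lib.MP_3248c9_gt.Hy.GMain

/-!
# A biharmonic patch with parallel unit mean curvature vector is empty if the mean curvature is nonzero

Model: `Hy/GMain.lean` (same proofs).
* `BihP.frame`: on `V = {x ∈ U | gr x != 0}` take `om = ‖gr‖`, `e = gr/‖gr‖`, `kp = - ph/2` (`gr_tan` for `et`; `mean`: `ph = -2 kp`).
* `gr_eq_zero`: `exists_simple`, `isOpen_simple`, `FrP.subset`, `false_of_simple`.
* `BihP.empty`: `gr = 0` on the open set `U` so `D gr = 0` and `ph * tr (Sh Sh) = 0`; `tr (Sh Sh) = sum |Sh b_i|^2` (symmetric), so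
  `Sh = 0` and `ph = tr Sh = 0`.
-/

set_option autoImplicit false

namespace Pool.Agent.Lib.MP_3248c9_gt.Pn

open Set Pool.Agent.Lib.MP_3248c9_gt.Hy
open scoped ContDiff

variable {E : Type} [NormedAddCommGroup E] [NormedSpace ℝ E] [FiniteDimensional ℝ E] {k : ℕ}
  {U : Set E} {f N : E → Ek k} {J : E → Ek k →L[ℝ] E} {x : E}

private theorem gmainP_tr_smulRight (p : Ek k →L[ℝ] ℝ) (u : Ek k) : tr (p.smulRight u) = p u := by
  have h1 := LinearMap.trace_smulRight (p : Ek k →ₗ[ℝ] ℝ) u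
  exact h1

private theorem gmainP_tr_add (A B : Ek k →L[ℝ] Ek k) : tr (A + B) = tr A + tr B :=
  map_add (LinearMap.trace ℝ (Ek k)) (A : Ek k →ₗ[ℝ] Ek k) (B : Ek k →ₗ[ℝ] Ek k)

private theorem gmainP_open (h : BihP U f N J) : IsOpen {y | y ∈ U ∧ gr N J y ≠ 0} := by
  have h1 : ContinuousOn (gr N J) U := h.toPat.gr_smooth.continuousOn
  have h2 := h1.isOpen_inter_preimage h.op (isOpen_compl_singleton (x := (0 : Ek k)))
  exact h2

theorem BihP.frame (h : BihP U f N J) :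
    FrP {y | y ∈ U ∧ gr N J y ≠ 0} f N J (fun y => ‖gr N J y‖⁻¹ • gr N J y)
      (fun y => -(ph N J y / 2)) (fun y => ‖gr N J y‖) := by
  have hV := gmainP_open h
  have hsub : {y | y ∈ U ∧ gr N J y ≠ 0} ⊆ U := fun y hy => hy.1
  have hg : ContDiffOn ℝ ∞ (gr N J) {y | y ∈ U ∧ gr N J y ≠ 0} :=
    h.toPat.gr_smooth.mono hsub
  have hn : ContDiffOn ℝ ∞ (fun y => ‖gr N J y‖) {y | y ∈ U ∧ gr N J y ≠ 0} :=
    hg.norm ℝ fun y hy => hy.2
  have hph : ContDiffOn ℝ ∞ (ph N J) {y | y ∈ U ∧ gr N J y ≠ 0} :=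
    h.toPat.ph_smooth.mono hsub
  have hes : ContDiffOn ℝ ∞ (fun y => ‖gr N J y‖⁻¹ • gr N J y) {y | y ∈ U ∧ gr N J y ≠ 0} :=
    (hn.inv fun y hy => norm_ne_zero_iff.mpr hy.2).smul hg
  refine
    { op := hV
      fs := h.fs.mono hsub
      Ns := h.Ns.mono hsub
      Js := h.Js.mono hsub
      left := fun y hy => h.left y hy.1
      orth := fun y hy => h.orth y hy.1
      par := fun y hy => h.par y hy.1
      unit := fun y hy => h.unit y hy.1
      normal := fun y hy => h.normal y hy.1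
      es := hes
      ks := (hph.div_const 2).neg
      os := hn
      ee := ?_
      et := ?_
      She := ?_
      dk := ?_
      om0 := fun y hy => norm_ne_zero_iff.mpr hy.2
      trk := ?_
      nrm := ?_
      mean := ?_ }
  · intro y hy
    have h0 : ‖gr N J y‖ ≠ 0 := norm_ne_zero_iff.mpr hy.2
    rw [real_inner_smul_left, real_inner_smul_right, real_inner_self_eq_norm_sq]
    field_simp
  · intro y hy
    rw [map_smul, h.toPat.gr_tan hy.1]
  · intro y hy
    rw [map_smul, h.tang y hy.1, smul_comm]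
  · intro y hy v
    have hd : DifferentiableAt ℝ (ph N J) y :=
      (hph.contDiffAt (hV.mem_nhds hy)).differentiableAt (by simp)
    have h1 : HasFDerivAt (fun y => -(ph N J y / 2)) (-((2 : ℝ)⁻¹ • fderiv ℝ (ph N J) y)) y := by
      have h2 := (hd.hasFDerivAt.const_smul (2 : ℝ)⁻¹).neg
      refine h2.congr_of_eventuallyEq (Filter.Eventually.of_forall fun z => ?_)
      simp only [Pi.neg_apply, Pi.smul_apply, smul_eq_mul]
      ring
    have h0 : ‖gr N J y‖ ≠ 0 := norm_ne_zero_iff.mpr hy.2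
    rw [h1.fderiv, real_inner_smul_left]
    simp only [neg_apply, smul_apply, smul_eq_mul]
    rw [h.toPat.dph hy.1]
    field_simp
  · intro y hy
    change ph N J y = -2 * -(ph N J y / 2)
    ring
  · intro y hy
    have h0 : ‖gr N J y‖ ≠ 0 := norm_ne_zero_iff.mpr hy.2
    have hdn : DifferentiableAt ℝ (fun y => ‖gr N J y‖) y :=
      (hn.contDiffAt (hV.mem_nhds hy)).differentiableAt (by simp)
    have hde : DifferentiableAt ℝ (fun y => ‖gr N J y‖⁻¹ • gr N J y) y :=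
      (hes.contDiffAt (hV.mem_nhds hy)).differentiableAt (by simp)
    have hprod := hdn.hasFDerivAt.smul hde.hasFDerivAt
    have hev : gr N J =ᶠ[nhds y] fun z => ‖gr N J z‖ • (‖gr N J z‖⁻¹ • gr N J z) := by
      filter_upwards [hV.mem_nhds hy] with z hz
      rw [smul_smul, mul_inv_cancel₀ (norm_ne_zero_iff.mpr hz.2), one_smul]
    have hgr := (hprod.congr_of_eventuallyEq hev).fderiv
    have hn2 := h.nrml y hy.1
    rw [hgr] at hn2
    have hcomp : ((‖gr N J y‖ • fderiv ℝ (fun y => ‖gr N J y‖⁻¹ • gr N J y) y +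
        (fderiv ℝ (fun y => ‖gr N J y‖) y).smulRight (‖gr N J y‖⁻¹ • gr N J y)).comp (J y)) =
        ‖gr N J y‖ • ((fderiv ℝ (fun y => ‖gr N J y‖⁻¹ • gr N J y) y).comp (J y)) +
        ((fderiv ℝ (fun y => ‖gr N J y‖) y).comp (J y)).smulRight
          (‖gr N J y‖⁻¹ • gr N J y) := by
      ext w
      simp
    rw [hcomp, gmainP_tr_add, tr_smul, gmainP_tr_smulRight] at hn2
    have e1 : -2 * -(ph N J y / 2) = ph N J y := by ring
    change fderiv ℝ (fun y => ‖gr N J y‖) y (J y (‖gr N J y‖⁻¹ • gr N J y)) +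
      ‖gr N J y‖ * tr ((fderiv ℝ (fun y => ‖gr N J y‖⁻¹ • gr N J y) y).comp (J y)) =
      -2 * -(ph N J y / 2) * tr (Sh N J y * Sh N J y)
    rw [e1, ← hn2, add_comm]
    rfl
  · intro y hy nu
    have e1 : -2 * -(ph N J y / 2) = ph N J y := by ring
    change tr (Hs f J y nu) = -2 * -(ph N J y / 2) * inner ℝ (N y) nu
    rw [e1]
    exact h.mean y hy.1 nu

theorem BihP.gr_eq_zero (h : BihP U f N J) (hp : ∀ y ∈ U, ph N J y ≠ 0) (hx : x ∈ U) :
    gr N J x = 0 := by
  by_contra hg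
  have hF := h.frame
  obtain ⟨y, hy, hi⟩ := hF.exists_simple (x := x) ⟨hx, hg⟩
  have hF' := hF.subset (V' := {y | y ∈ {y | y ∈ U ∧ gr N J y ≠ 0} ∧ Function.Injective
    (Pg f N J (fun y => ‖gr N J y‖⁻¹ • gr N J y) (fun y => -(ph N J y / 2)) y)})
    (fun y hy => hy.1) hF.isOpen_simple
  refine hF'.false_of_simple (x := y) ⟨hy, hi⟩ (fun z hz => hz.2) ?_
  have := hp y hy.1
  intro h0
  apply this
  linarith

theorem BihP.empty (h : BihP U f N J) (hp : ∀ y ∈ U, ph N J y ≠ 0) : U = ∅ := by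
  by_contra hne
  obtain ⟨x, hx⟩ := Set.nonempty_iff_ne_empty.mpr hne
  have hev : gr N J =ᶠ[nhds x] fun _ => (0 : Ek k) := by
    filter_upwards [h.op.mem_nhds hx] with y hy
    exact h.gr_eq_zero hp hy
  have h1 := h.nrml x hx
  have h2 : fderiv ℝ (gr N J) x = 0 := by
    rw [hev.fderiv_eq]
    simp
  have h3 : tr ((fderiv ℝ (gr N J) x).comp (J x)) = 0 := by
    rw [h2, ContinuousLinearMap.zero_comp]
    exact map_zero (LinearMap.trace ℝ (Ek k))
  rw [h3] at h1
  have h4 : tr (Sh N J x * Sh N J x) = 0 := by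
    rcases mul_eq_zero.mp h1.symm with h5 | h5
    · exact absurd h5 (hp x hx)
    · exact h5
  have h6 : tr (Sh N J x * Sh N J x) =
      ∑ i, inner ℝ (Sh N J x (stdOrthonormalBasis ℝ (Ek k) i))
        (Sh N J x (stdOrthonormalBasis ℝ (Ek k) i)) := by
    have h7 := LinearMap.trace_eq_sum_inner
      ((Sh N J x * Sh N J x : Ek k →L[ℝ] Ek k) : Ek k →ₗ[ℝ] Ek k) (stdOrthonormalBasis ℝ (Ek k))
    rw [show tr (Sh N J x * Sh N J x) = LinearMap.trace ℝ (Ek k)
      ((Sh N J x * Sh N J x : Ek k →L[ℝ] Ek k) : Ek k →ₗ[ℝ] Ek k) from rfl, h7]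
    refine Finset.sum_congr rfl fun i _ => ?_
    exact (h.toPat.Sh_symm hx _ _).symm
  rw [h6] at h4
  have h8 : ∀ i, Sh N J x (stdOrthonormalBasis ℝ (Ek k) i) = 0 := by
    intro i
    have h9 := (Finset.sum_eq_zero_iff_of_nonneg
      (fun i _ => real_inner_self_nonneg)).mp h4 i (Finset.mem_univ i)
    exact inner_self_eq_zero.mp h9
  apply hp x hx
  have h10 : Sh N J x = 0 := by
    ext w
    rw [← (stdOrthonormalBasis ℝ (Ek k)).sum_repr w, map_sum]
    simp only [map_smul, h8, smul_zero, Finset.sum_const_zero, zero_apply]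
  unfold ph
  rw [h10]
  exact map_zero (LinearMap.trace ℝ (Ek k))

end Pool.Agent.Lib.MP_3248c9_gt.Pn
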