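import Pool.Agent.Lib.MP_3248c9_gt.Pn.GGeo

/-!
# The operators `A_c` of the leaves

`Ao x c w = (D_{J Q w} Q)(c - Q c)`: the shape operator of the leaf of `W` through `x`, in the direction of the component of `c` in the kernel of `Q`
(extended by zero). Let `v = J (Q w)`, so `Df v = Tf (Q w) = Q w` (`Tf_Q`), and `c' = c - Q c`, `Q c' = 0`.
* `DQ_prod`: differentiate `Q Q = Q`. `DQ_symm`: differentiate `Q_symm`. `DQ_apply`: `Q = Tf - rk e`, `fderiv_rk` of `Hy`.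
* `Ao_Q`: `Q Q = Q`. `Q_Ao`: `DQ_prod` applied to `c'`.
* `Ao_eq`: `c' = nu + <e, c> e`, `nu = c - Tf c`; `(D_v Q) c' = (D_v Tf) c' - (<D_v e, c'> e + <e, c'> D_v e)`, `<e, c'> = <e, c>` (`Q_e`, `Q_symm`),
  `<D_v e, c'> = <Q (D_v e), c'> = <D_v e, Q c'> = 0` (`de_W`), `(D_v Tf) e = 0` (`DT_We`).
* `Ao_e`: `Ao_eq` with `c = e`: `nu = 0`. `Ao_N`: `nu = N`, `<e, N> = 0`, `DT_N`, `Df v = Q w`.
* `Ao_symm`: `<A_c w, w'> = <Q (A_c w), w'> = <(D_v Q) c', Q w'> = <c', (D_{J Q w} Q)(Q w')>` (`Q_Ao`, `DQ_symm`), and for `u, u' ∈ W`: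
  `(D_{J u} Q) u' = (D_{J u} Tf) u' - <D_{J u} e, u'> e` is symmetric in `u, u'`: `DT_swap` and `hess`
  (`u' = Df (J u')`).
* `Ao_smooth`: `Qf_smooth`, `fderiv_of_isOpen`, `Js`.
-/

set_option autoImplicit false

namespace Pool.Agent.Lib.MP_3248c9_gt.Pn

open Set Pool.Agent.Lib.MP_3248c9_gt.Hy
open scoped ContDiff

variable {E F : Type} [NormedAddCommGroup E] [NormedSpace ℝ E] [FiniteDimensional ℝ E]
  [NormedAddCommGroup F] [InnerProductSpace ℝ F] [FiniteDimensional ℝ F] [CompleteSpace F]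
  {V : Set E} {f N : E → F} {J : E → F →L[ℝ] E} {e : E → F} {kp om : E → ℝ} {x : E}

/-- `Ao x c w = (D_{J Q w} Q)(c - Q c)`. -/
noncomputable def Ao (f : E → F) (J : E → F →L[ℝ] E) (e : E → F) (x : E) :
    F →L[ℝ] F →L[ℝ] F := -((Mq f J e x).comp (1 - Qf f J e x))

omit [CompleteSpace F] [FiniteDimensional ℝ F] [FiniteDimensional ℝ E] in
theorem Ao_apply (f : E → F) (J : E → F →L[ℝ] E) (e : E → F) (x : E) (c w : F) :
    Ao f J e x c w = fderiv ℝ (Qf f J e) x (J x (Qf f J e x w)) (c - Qf f J e x c) := by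
  change -(Mq f J e x (c - Qf f J e x c) w) = _
  rw [Mq_apply, neg_neg]

theorem FrP.Ao_smooth (h : FrP V f N J e kp om) : ContDiffOn ℝ ∞ (Ao f J e) V := by
  have hQ := h.Qf_smooth
  have hDQ : ContDiffOn ℝ ∞ (fderiv ℝ (Qf f J e)) V := hQ.fderiv_of_isOpen h.op (by simp)
  rw [contDiffOn_clm_apply]
  intro c
  rw [contDiffOn_clm_apply]
  intro w
  simp_rw [Ao_apply]
  exact (hDQ.clm_apply (h.Js.clm_apply (hQ.clm_apply contDiffOn_const))).clm_apply
    (contDiffOn_const.sub (hQ.clm_apply contDiffOn_const))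

theorem GOp_app (h : FrP V f N J e kp om) (hx : x ∈ V) (v : E) (w : F) :
    fderiv ℝ (fun y => Qf f J e y w) x v = fderiv ℝ (Qf f J e) x v w := by
  have hQ := gfr_diff h.op h.Qf_smooth hx
  rw [gfr_app hQ (differentiableAt_const w)]
  simp

theorem FrP.DQ_apply (h : FrP V f N J e kp om) (hx : x ∈ V) (v : E) (w : F) :
    fderiv ℝ (Qf f J e) x v w = fderiv ℝ (Tf f J) x v w -
      ((inner ℝ (fderiv ℝ e x v) w : ℝ) • e x + (inner ℝ (e x) w : ℝ) • fderiv ℝ e x v) := by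
  have hT := gfr_diff h.op h.Tf_smooth hx
  have he := gfr_diff h.op h.es hx
  have hr : DifferentiableAt ℝ (fun y => rk (e y)) x :=
    ((rk_smooth (F := F)).contDiffAt.differentiableAt (by simp)).comp x he
  have h1 : fderiv ℝ (Qf f J e) x = fderiv ℝ (Tf f J) x - fderiv ℝ (fun y => rk (e y)) x :=
    fderiv_fun_sub hT hr
  rw [h1, sub_apply, sub_apply, fderiv_rk he]

theorem FrP.DQ_prod (h : FrP V f N J e kp om) (hx : x ∈ V) (v : E) (w : F) :
    Qf f J e x (fderiv ℝ (Qf f J e) x v w) + fderiv ℝ (Qf f J e) x v (Qf f J e x w) =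
      fderiv ℝ (Qf f J e) x v w := by
  have hQ := gfr_diff h.op h.Qf_smooth hx
  have hQw : DifferentiableAt ℝ (fun y => Qf f J e y w) x := hQ.clm_apply (differentiableAt_const w)
  have h1 := gfr_app hQ hQw v
  have h2 := gfr_congr h.op (g := fun y => Qf f J e y (Qf f J e y w)) (g' := fun y => Qf f J e y w)
    (fun y hy => h.Q_Q hy w) hx
  rw [h2, GOp_app h hx] at h1
  exact h1.symm

theorem FrP.DQ_symm (h : FrP V f N J e kp om) (hx : x ∈ V) (v : E) (w w' : F) :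
    inner ℝ (fderiv ℝ (Qf f J e) x v w) w' = inner ℝ w (fderiv ℝ (Qf f J e) x v w') := by
  have hQ := gfr_diff h.op h.Qf_smooth hx
  have hQw : ∀ w, DifferentiableAt ℝ (fun y => Qf f J e y w) x := fun w =>
    hQ.clm_apply (differentiableAt_const w)
  have h1 := gfr_inner (hQw w) (differentiableAt_const w') v
  have h2 := gfr_inner (differentiableAt_const w) (hQw w') v
  have h3 := gfr_congr h.op (g := fun y => (inner ℝ (Qf f J e y w) w' : ℝ))
    (g' := fun y => (inner ℝ w (Qf f J e y w') : ℝ)) (fun y hy => h.Q_symm hy w w') hx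
  rw [h3, h2, GOp_app h hx, GOp_app h hx] at h1
  simpa using h1.symm

theorem FrP.Ao_Q (h : FrP V f N J e kp om) (hx : x ∈ V) (c w : F) :
    Ao f J e x c (Qf f J e x w) = Ao f J e x c w := by
  rw [Ao_apply, Ao_apply, h.Q_Q hx]

theorem FrP.Q_Ao (h : FrP V f N J e kp om) (hx : x ∈ V) (c w : F) :
    Qf f J e x (Ao f J e x c w) = Ao f J e x c w := by
  rw [Ao_apply]
  have h1 := h.DQ_prod hx (J x (Qf f J e x w)) (c - Qf f J e x c)
  have h2 : Qf f J e x (c - Qf f J e x c) = 0 := by rw [map_sub, h.Q_Q hx, sub_self]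
  rw [h2, map_zero, add_zero] at h1
  exact h1

theorem FrP.Ao_eq (h : FrP V f N J e kp om) (hx : x ∈ V)
    (hi : Function.Injective (Pg f N J e kp x)) (c w : F) :
    Ao f J e x c w = fderiv ℝ (Tf f J) x (J x (Qf f J e x w)) (c - Tf f J x c) -
      (inner ℝ (e x) c : ℝ) • fderiv ℝ e x (J x (Qf f J e x w)) := by
  have hq := h.Tf_Q hx w
  have hq0 := h.e_Q hx w
  have h1 : (inner ℝ (e x) (c - Qf f J e x c) : ℝ) = inner ℝ (e x) c := by
    rw [inner_sub_right, h.e_Q hx, sub_zero]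
  have h2 : (inner ℝ (fderiv ℝ e x (J x (Qf f J e x w))) (c - Qf f J e x c) : ℝ) = 0 := by
    rw [← h.de_W hx hi hq hq0, h.Q_symm hx, map_sub, h.Q_Q hx, sub_self, inner_zero_right]
  have h3 : c - Qf f J e x c = (c - Tf f J x c) + (inner ℝ (e x) c : ℝ) • e x := by
    rw [Q_apply]
    abel
  rw [Ao_apply, h.DQ_apply hx, h1, h2, zero_smul, zero_add, h3, map_add, map_smul,
    h.DT_We hx hi hq hq0, smul_zero, add_zero]

theorem FrP.Ao_e (h : FrP V f N J e kp om) (hx : x ∈ V)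
    (hi : Function.Injective (Pg f N J e kp x)) (w : F) :
    Ao f J e x (e x) w = -(fderiv ℝ e x (J x (Qf f J e x w))) := by
  rw [h.Ao_eq hx hi, h.et x hx, sub_self, map_zero, zero_sub, h.ee x hx, one_smul]

theorem FrP.Ao_N (h : FrP V f N J e kp om) (hx : x ∈ V)
    (hi : Function.Injective (Pg f N J e kp x)) (w : F) :
    Ao f J e x (N x) w = Sh N J x (Qf f J e x w) := by
  have h1 : (inner ℝ (e x) (N x) : ℝ) = 0 := by
    rw [real_inner_comm]
    exact h.eN hx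
  have h2 : fderiv ℝ f x (J x (Qf f J e x w)) = Qf f J e x w := h.Tf_Q hx w
  rw [h.Ao_eq hx hi, h.Tf_N hx, sub_zero, h1, zero_smul, sub_zero, h.DT_N hx, h2]

theorem FrP.Ao_symm (h : FrP V f N J e kp om) (hx : x ∈ V)
    (hi : Function.Injective (Pg f N J e kp x)) (c w w' : F) :
    inner ℝ (Ao f J e x c w) w' = inner ℝ w (Ao f J e x c w') := by
  have key : ∀ w w' : F, (inner ℝ (Ao f J e x c w) w' : ℝ) = inner ℝ (c - Qf f J e x c)
      (fderiv ℝ (Qf f J e) x (J x (Qf f J e x w)) (Qf f J e x w')) := by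
    intro w w'
    rw [← h.Q_Ao hx c w, h.Q_symm hx, Ao_apply, h.DQ_symm hx]
  have hsw : fderiv ℝ (Qf f J e) x (J x (Qf f J e x w)) (Qf f J e x w') =
      fderiv ℝ (Qf f J e) x (J x (Qf f J e x w')) (Qf f J e x w) := by
    have h1 : fderiv ℝ f x (J x (Qf f J e x w)) = Qf f J e x w := h.Tf_Q hx w
    have h2 : fderiv ℝ f x (J x (Qf f J e x w')) = Qf f J e x w' := h.Tf_Q hx w'
    have h3 := h.hess hx (v := J x (Qf f J e x w)) (w := J x (Qf f J e x w'))
      (by rw [h1, h.e_Q hx]) (by rw [h2, h.e_Q hx])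
    rw [h1, h2] at h3
    rw [h.DQ_apply hx, h.DQ_apply hx, h.e_Q hx, h.e_Q hx, zero_smul, zero_smul, h3,
      h.DT_swap hx (h.Tf_Q hx w) (h.Tf_Q hx w')]
  rw [key, hsw, ← key, real_inner_comm]

end Pool.Agent.Lib.MP_3248c9_gt.Pn
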