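import Pool.Agent.Lib.MP_3248c9_gt.Pn.GFr
import Pool.Agent.Lib.MP_3248c9_gt.Hy.GSimple

/-!
# The principal curvature `kp` is simple somewhere

Model: `Hy/GSimple.lean` (`pert`, `rk_smooth`, `fderiv_rk`, `rk_symm` of `Hy` may be used).
`Pg w = Sh w - kp Tf w + w - Tf w + <e, w> e`.
* `Pg_ker`: the product with `e` gives `<e, w> = 0` (`<e, Sh w> = kp <e, w>`, `<e, Tf w> = <e, w>`); then apply `1 - Tf`: `w = Tf w`; then `Sh w = kp w`.
* `Pg_deriv`: for `w` in the kernel `<(D_{eh} Pg) w, w> = <(D_{eh} Sh) w, w> - (D_{eh} kp) <w, w> - (kp + 1) <(D_{eh} Tf) w, w> + 2 <D_{eh} e, w> <e, w>`,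
  the third term is `0` by `DT_tan` (`<DT w, w> = <DT w, Tf w> = <Tf DT w, w>`), the first by `simple_dir` (`w = Df (J w)`).
* `exists_simple`: `pert` for `t ↦ Pg (x + t eh)`.
-/

set_option autoImplicit false

namespace Pool.Agent.Lib.MP_3248c9_gt.Pn

open Set Pool.Agent.Lib.MP_3248c9_gt.Hy
open scoped ContDiff Topology

variable {E F : Type} [NormedAddCommGroup E] [NormedSpace ℝ E] [FiniteDimensional ℝ E]
  [NormedAddCommGroup F] [InnerProductSpace ℝ F] [FiniteDimensional ℝ F] [CompleteSpace F]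
  {V : Set E} {f N : E → F} {J : E → F →L[ℝ] E} {e : E → F} {kp om : E → ℝ} {x : E}

theorem FrP.Qf_smooth (h : FrP V f N J e kp om) : ContDiffOn ℝ ∞ (Qf f J e) V := by
  unfold Qf
  exact h.Tf_smooth.sub (rk_smooth.comp_contDiffOn h.es)

theorem FrP.Pg_smooth (h : FrP V f N J e kp om) : ContDiffOn ℝ ∞ (Pg f N J e kp) V := by
  unfold Pg
  exact (h.Sh_smooth.sub (h.ks.smul h.Tf_smooth)).add (contDiffOn_const.sub h.Qf_smooth)

theorem Pg_apply (f N : E → F) (J : E → F →L[ℝ] E) (e : E → F) (kp : E → ℝ) (x : E) (w : F) :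
    Pg f N J e kp x w = Sh N J x w - kp x • Tf f J x w +
      (w - Tf f J x w + (inner ℝ (e x) w : ℝ) • e x) := by
  have h1 : Pg f N J e kp x w = Sh N J x w - kp x • Tf f J x w +
    (w - (Tf f J x w - rk (e x) w)) := rfl
  rw [h1, rk_apply]
  module

theorem FrP.Pg_symm (h : FrP V f N J e kp om) (hx : x ∈ V) (w w' : F) :
    inner ℝ (Pg f N J e kp x w) w' = inner ℝ w (Pg f N J e kp x w') := by
  rw [Pg_apply, Pg_apply]
  simp only [inner_add_left, inner_add_right, inner_sub_left, inner_sub_right, inner_smul_left,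
    inner_smul_right, conj_trivial]
  rw [h.Sh_symm hx, h.Tf_symm hx, real_inner_comm w (e x)]
  ring

theorem FrP.Pg_ker (h : FrP V f N J e kp om) (hx : x ∈ V) {w : F} (hw : Pg f N J e kp x w = 0) :
    inner ℝ (e x) w = 0 ∧ Tf f J x w = w ∧ Sh N J x w = kp x • w := by
  have hTe : ∀ w : F, (inner ℝ (e x) (Tf f J x w) : ℝ) = inner ℝ (e x) w := by
    intro w
    rw [← h.Tf_symm hx, h.et x hx]
  rw [Pg_apply] at hw
  have h1 := congrArg (fun z => (inner ℝ (e x) z : ℝ)) hw
  simp only [inner_add_right, inner_sub_right, inner_smul_right, inner_zero_right] at h1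
  rw [← h.Sh_symm hx, h.She x hx, inner_smul_left, hTe, h.ee x hx] at h1
  simp only [conj_trivial] at h1
  have h3 : (inner ℝ (e x) w : ℝ) = 0 := by linarith
  rw [h3, zero_smul, add_zero] at hw
  -- the normal part
  have h2 := congrArg (Tf f J x) hw
  rw [map_add, map_sub, map_sub, h.Tf_Sh hx, map_smul, h.Tf_Tf hx, sub_self, add_zero,
    map_zero] at h2
  rw [h2, zero_add] at hw
  have h4 : Tf f J x w = w := (sub_eq_zero.1 hw).symm
  refine ⟨h3, h4, ?_⟩
  rw [h4] at h2
  exact sub_eq_zero.1 h2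

theorem FrP.Pg_deriv (h : FrP V f N J e kp om) (hx : x ∈ V) {w : F}
    (hw : Pg f N J e kp x w = 0) :
    inner ℝ (fderiv ℝ (Pg f N J e kp) x (J x (e x)) w) w = om x / 2 * inner ℝ w w := by
  obtain ⟨h1, h2, h3⟩ := h.Pg_ker hx hw
  have he := gfr_diff h.op h.es hx
  have hk := gfr_diff h.op h.ks hx
  have hS := gfr_diff h.op h.Sh_smooth hx
  have hT := gfr_diff h.op h.Tf_smooth hx
  have hP := gfr_diff h.op h.Pg_smooth hx
  have hcw : DifferentiableAt ℝ (fun _ : E => w) x := differentiableAt_const w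
  have hce : DifferentiableAt ℝ (fun y => (inner ℝ (e y) w : ℝ)) x := he.inner ℝ hcw
  have htan : fderiv ℝ f x (J x w) = w := h2
  -- the function `y ↦ <Pg y w, w>`
  have h4 : fderiv ℝ (fun y => (inner ℝ (Pg f N J e kp y w) w : ℝ)) x (J x (e x)) =
      inner ℝ (fderiv ℝ (Pg f N J e kp) x (J x (e x)) w) w := by
    rw [gfr_inner (hP.clm_apply hcw) hcw, gfr_app hP hcw]
    simp
  have h5 : (fun y => (inner ℝ (Pg f N J e kp y w) w : ℝ)) = fun y =>
      (inner ℝ (Sh N J y w) w : ℝ) - kp y * inner ℝ (Tf f J y w) w +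
        (inner ℝ w w - inner ℝ (Tf f J y w) w + inner ℝ (e y) w * inner ℝ (e y) w) := by
    funext y
    rw [Pg_apply]
    simp only [inner_add_left, inner_sub_left, inner_smul_left, conj_trivial]
  have hSw : HasFDerivAt (fun y => (inner ℝ (Sh N J y w) w : ℝ))
      (fderiv ℝ (fun y => (inner ℝ (Sh N J y w) w : ℝ)) x) x :=
    ((hS.clm_apply hcw).inner ℝ hcw).hasFDerivAt
  have hTw : HasFDerivAt (fun y => (inner ℝ (Tf f J y w) w : ℝ))
      (fderiv ℝ (fun y => (inner ℝ (Tf f J y w) w : ℝ)) x) x :=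
    ((hT.clm_apply hcw).inner ℝ hcw).hasFDerivAt
  have hkw := hk.hasFDerivAt
  have hew := hce.hasFDerivAt
  have h6 := (hSw.sub (hkw.mul hTw)).add
    (((hasFDerivAt_const (inner ℝ w w : ℝ) x).sub hTw).add (hew.mul hew))
  have h7 : fderiv ℝ (fun y => (inner ℝ (Sh N J y w) w : ℝ)) x (J x (e x)) = 0 := by
    rw [gfr_inner (hS.clm_apply hcw) hcw, gfr_app hS hcw]
    have h8 := h.simple_dir hx (v := J x w) (by rw [htan, h1])
      (by rw [htan, h3])
    rw [htan] at h8
    simp [h8]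
  have h10 : fderiv ℝ (fun y => (inner ℝ (Tf f J y w) w : ℝ)) x (J x (e x)) = 0 := by
    rw [gfr_inner (hT.clm_apply hcw) hcw, gfr_app hT hcw]
    have h8 : (inner ℝ (fderiv ℝ (Tf f J) x (J x (e x)) w) w : ℝ) = 0 := by
      have h11 : (inner ℝ (fderiv ℝ (Tf f J) x (J x (e x)) w) (Tf f J x w) : ℝ) = 0 := by
        rw [← h.Tf_symm hx, h.DT_tan hx _ h2, inner_zero_left]
      rwa [h2] at h11
    simp [h8]
  have h9 : HasFDerivAt (fun y =>
      (inner ℝ (Sh N J y w) w : ℝ) - kp y * inner ℝ (Tf f J y w) w +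
        (inner ℝ w w - inner ℝ (Tf f J y w) w + inner ℝ (e y) w * inner ℝ (e y) w)) _ x := h6
  rw [← h4, h5, h9.fderiv]
  simp [h1, h2, h7, h10, h.dk_eh hx]
  ring

theorem FrP.exists_simple (h : FrP V f N J e kp om) (hx : x ∈ V) :
    ∃ y ∈ V, Function.Injective (Pg f N J e kp y) := by
  have hP := gfr_diff h.op h.Pg_smooth hx
  obtain ⟨v, hv⟩ : ∃ v : E, v = J x (e x) := ⟨_, rfl⟩
  have hx0 : x + (0 : ℝ) • v = x := by rw [zero_smul, add_zero]
  have hl : HasDerivAt (fun t : ℝ => x + t • v) v 0 := by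
    have h1 := ((hasDerivAt_id (0 : ℝ)).smul_const v).const_add x
    simpa using h1
  have hd : HasDerivAt (fun t : ℝ => Pg f N J e kp (x + t • v)) (fderiv ℝ (Pg f N J e kp) x v) 0 := by
    have h1 : HasFDerivAt (Pg f N J e kp) (fderiv ℝ (Pg f N J e kp) x) (x + (0 : ℝ) • v) := by
      rw [hx0]
      exact hP.hasFDerivAt
    exact h1.comp_hasDerivAt (0 : ℝ) hl
  have h2 := pert (fun t : ℝ => Pg f N J e kp (x + t • v)) (fderiv ℝ (Pg f N J e kp) x v) hd
    (fun w w' => by
      change inner ℝ (Pg f N J e kp (x + (0 : ℝ) • v) w) w' =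
        inner ℝ w (Pg f N J e kp (x + (0 : ℝ) • v) w')
      rw [hx0]
      exact h.Pg_symm hx w w')
    (fun w hw hw0 => by
      change Pg f N J e kp (x + (0 : ℝ) • v) w = 0 at hw0
      rw [hx0] at hw0
      rw [hv, h.Pg_deriv hx hw0]
      have h3 := h.om0 x hx
      have h4 : (inner ℝ w w : ℝ) ≠ 0 := inner_self_ne_zero.2 hw
      exact mul_ne_zero (div_ne_zero h3 two_ne_zero) h4)
  have h3 : ∀ᶠ t in 𝓝[≠] (0 : ℝ), x + t • v ∈ V := by
    have h4 : Filter.Tendsto (fun t : ℝ => x + t • v) (𝓝 0) (𝓝 x) := by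
      have h5 := hl.continuousAt.tendsto
      rwa [hx0] at h5
    exact (h4.mono_left nhdsWithin_le_nhds).eventually (h.op.mem_nhds hx)
  obtain ⟨t, ht1, ht2⟩ := (h3.and h2).exists
  exact ⟨x + t • v, ht1, ht2⟩

/-- Restriction of a frame to a smaller open set. -/
theorem FrP.subset (h : FrP V f N J e kp om) {V' : Set E} (hV : V' ⊆ V) (ho : IsOpen V') :
    FrP V' f N J e kp om := by
  exact
    { op := ho
      fs := h.fs.mono hV
      Ns := h.Ns.mono hV
      Js := h.Js.mono hV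
      left := fun x hx => h.left x (hV hx)
      orth := fun x hx => h.orth x (hV hx)
      unit := fun x hx => h.unit x (hV hx)
      normal := fun x hx => h.normal x (hV hx)
      par := fun x hx => h.par x (hV hx)
      es := h.es.mono hV
      ks := h.ks.mono hV
      os := h.os.mono hV
      ee := fun x hx => h.ee x (hV hx)
      et := fun x hx => h.et x (hV hx)
      She := fun x hx => h.She x (hV hx)
      dk := fun x hx => h.dk x (hV hx)
      om0 := fun x hx => h.om0 x (hV hx)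
      trk := fun x hx => h.trk x (hV hx)
      nrm := fun x hx => h.nrm x (hV hx)
      mean := fun x hx => h.mean x (hV hx) }

/-- The set of the simple points is open. -/
theorem FrP.isOpen_simple (h : FrP V f N J e kp om) :
    IsOpen {y | y ∈ V ∧ Function.Injective (Pg f N J e kp y)} := by
  exact h.Pg_smooth.continuousOn.isOpen_inter_preimage h.op ContinuousLinearMap.isOpen_injective

end Pool.Agent.Lib.MP_3248c9_gt.Pn
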