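import Pool.Agent.Lib.MP_3248c9_gt.Pn.GBas

/-!
# The derivative of the tangent projection (second fundamental form, Ricci equation)

* `DT_symm`: differentiate `Tf_symm`. `DT_prod`: differentiate `Tf Tf = Tf`.
* `DT_tan`, `DT_nrm`: apply `DT_prod` to a tangent / normal vector (apply `Tf` once more).
* `DT_Df`: differentiate `Tf (Df v') = Df v'`. `DT_swap`: `DT_Df` and `f2_symm`.
* `DT_N`: differentiate `Tf N = 0`: `(D_v Tf) N + Tf (D_v N) = 0`, `par`, `DN_eq`.
* `ric`: differentiate `Tf (D_v N) = D_v N` in the direction `u`: `(D_u Tf)(D_v N) + Tf D^2N(u, v) = D^2N(u, v)`; the terms with `D^2N` are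
  symmetric, so `(D_u Tf)(D_v N) = (D_v Tf)(D_u N)`; `DN_eq`.
-/

set_option autoImplicit false

namespace Pool.Agent.Lib.MP_3248c9_gt.Pn

open Set Pool.Agent.Lib.MP_3248c9_gt.Hy
open scoped ContDiff

section gen

variable {E X Y : Type} [NormedAddCommGroup E] [NormedSpace ℝ E] [NormedAddCommGroup X]
  [NormedSpace ℝ X] [NormedAddCommGroup Y] [NormedSpace ℝ Y] {L : E → X →L[ℝ] Y} {x : E}

theorem gtf_app (hL : DifferentiableAt ℝ L x) (w : X) :
    HasFDerivAt (fun y => L y w) ((ContinuousLinearMap.apply ℝ Y w).comp (fderiv ℝ L x)) x :=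
  (ContinuousLinearMap.apply ℝ Y w).hasFDerivAt.comp x hL.hasFDerivAt

theorem gtf_app_eq (hL : DifferentiableAt ℝ L x) (w : X) (v : E) :
    fderiv ℝ (fun y => L y w) x v = fderiv ℝ L x v w := by
  rw [(gtf_app hL w).fderiv]
  rfl

end gen

variable {E F : Type} [NormedAddCommGroup E] [NormedSpace ℝ E] [FiniteDimensional ℝ E]
  [NormedAddCommGroup F] [InnerProductSpace ℝ F] [FiniteDimensional ℝ F] [CompleteSpace F]
  {U : Set E} {f N : E → F} {J : E → F →L[ℝ] E} {x : E}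

theorem Pat.gtf_diff (h : Pat U f N J) (hx : x ∈ U) : DifferentiableAt ℝ (Tf f J) x :=
  GBasic_diff h.op h.Tf_smooth hx

/-- The derivative of `Tf g = g1`. -/
theorem Pat.gtf_D (h : Pat U f N J) (hx : x ∈ U) {g g1 : E → F} (hg : DifferentiableAt ℝ g x)
    (he : ∀ y ∈ U, Tf f J y (g y) = g1 y) (v : E) :
    fderiv ℝ (Tf f J) x v (g x) + Tf f J x (fderiv ℝ g x v) = fderiv ℝ g1 x v := by
  have h1 := (h.gtf_diff hx).hasFDerivAt.clm_apply hg.hasFDerivAt
  have h2 : g1 =ᶠ[nhds x] fun y => Tf f J y (g y) := by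
    filter_upwards [h.op.mem_nhds hx] with y hy
    exact (he y hy).symm
  have h3 := h1.congr_of_eventuallyEq h2
  rw [h3.fderiv]
  simp only [add_apply, ContinuousLinearMap.comp_apply, ContinuousLinearMap.flip_apply]
  rw [add_comm]

theorem Pat.DT_symm (h : Pat U f N J) (hx : x ∈ U) (v : E) (w w' : F) :
    inner ℝ (fderiv ℝ (Tf f J) x v w) w' = inner ℝ w (fderiv ℝ (Tf f J) x v w') := by
  have h0 := h.gtf_diff hx
  have h1 := fderiv_inner_apply ℝ (gtf_app h0 w).differentiableAt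
    (differentiableAt_const (c := w')) v
  have h2 := fderiv_inner_apply ℝ (differentiableAt_const (c := w))
    (gtf_app h0 w').differentiableAt v
  rw [fderiv_fun_const, gtf_app_eq h0] at h1 h2
  have h3 : (fun y => (inner ℝ (Tf f J y w) w' : ℝ)) =ᶠ[nhds x]
      fun y => inner ℝ w (Tf f J y w') := by
    filter_upwards [h.op.mem_nhds hx] with y hy
    exact h.Tf_symm hy w w'
  rw [h3.fderiv_eq, h2] at h1
  simp only [Pi.zero_apply, zero_apply, inner_zero_right, inner_zero_left, zero_add,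
    add_zero] at h1
  exact h1.symm

theorem Pat.DT_prod (h : Pat U f N J) (hx : x ∈ U) (v : E) (w : F) :
    Tf f J x (fderiv ℝ (Tf f J) x v w) + fderiv ℝ (Tf f J) x v (Tf f J x w) =
      fderiv ℝ (Tf f J) x v w := by
  have h0 := h.gtf_diff hx
  have h1 := h.gtf_D hx (g := fun y => Tf f J y w) (g1 := fun y => Tf f J y w)
    (gtf_app h0 w).differentiableAt (fun y hy => h.Tf_Tf hy w) v
  rw [gtf_app_eq h0, add_comm] at h1
  exact h1

theorem Pat.DT_tan (h : Pat U f N J) (hx : x ∈ U) (v : E) {w : F} (hw : Tf f J x w = w) :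
    Tf f J x (fderiv ℝ (Tf f J) x v w) = 0 := by
  have h1 := h.DT_prod hx v w
  rw [hw] at h1
  exact add_eq_right.1 h1

theorem Pat.DT_nrm (h : Pat U f N J) (hx : x ∈ U) (v : E) {w : F} (hw : Tf f J x w = 0) :
    Tf f J x (fderiv ℝ (Tf f J) x v w) = fderiv ℝ (Tf f J) x v w := by
  have h1 := h.DT_prod hx v w
  rw [hw, map_zero, add_zero] at h1
  exact h1

theorem Pat.DT_Df (h : Pat U f N J) (hx : x ∈ U) (v v' : E) :
    fderiv ℝ (Tf f J) x v (fderiv ℝ f x v') =
      fderiv ℝ (fderiv ℝ f) x v v' - Tf f J x (fderiv ℝ (fderiv ℝ f) x v v') := by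
  have h0 := GBasic_diff h.op h.Df_smooth hx
  have h1 := h.gtf_D hx (g := fun y => fderiv ℝ f y v') (g1 := fun y => fderiv ℝ f y v')
    (gtf_app h0 v').differentiableAt (fun y hy => h.Tf_Df hy v') v
  rw [gtf_app_eq h0] at h1
  exact eq_sub_of_add_eq h1

theorem Pat.DT_swap (h : Pat U f N J) (hx : x ∈ U) {w w' : F} (hw : Tf f J x w = w)
    (hw' : Tf f J x w' = w') :
    fderiv ℝ (Tf f J) x (J x w) w' = fderiv ℝ (Tf f J) x (J x w') w := by
  have e1 : fderiv ℝ f x (J x w) = w := hw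
  have e2 : fderiv ℝ f x (J x w') = w' := hw'
  have h1 := h.DT_Df hx (J x w) (J x w')
  have h2 := h.DT_Df hx (J x w') (J x w)
  rw [e2] at h1
  rw [e1] at h2
  rw [h1, h2, h.f2_symm hx]

theorem Pat.DT_N (h : Pat U f N J) (hx : x ∈ U) (v : E) :
    fderiv ℝ (Tf f J) x v (N x) = Sh N J x (fderiv ℝ f x v) := by
  have h1 := h.gtf_D hx (g := N) (g1 := fun _ => 0) (GBasic_diff h.op h.Ns hx)
    (fun y hy => h.Tf_N hy) v
  rw [h.par x hx, h.DN_eq hx, fderiv_fun_const] at h1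
  simp only [Pi.zero_apply, zero_apply] at h1
  rw [← sub_eq_add_neg] at h1
  exact sub_eq_zero.1 h1

/-- The Ricci equation for the parallel normal `N`. -/
theorem Pat.ric (h : Pat U f N J) (hx : x ∈ U) (u v : E) :
    fderiv ℝ (Tf f J) x u (Sh N J x (fderiv ℝ f x v)) =
      fderiv ℝ (Tf f J) x v (Sh N J x (fderiv ℝ f x u)) := by
  have h2 : ContDiffOn ℝ ∞ (fderiv ℝ N) U := h.Ns.fderiv_of_isOpen h.op (by simp)
  have h0 := GBasic_diff h.op h2 hx
  have key : ∀ u v : E, fderiv ℝ (Tf f J) x u (Sh N J x (fderiv ℝ f x v)) =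
      Tf f J x (fderiv ℝ (fderiv ℝ N) x u v) - fderiv ℝ (fderiv ℝ N) x u v := by
    intro u v
    have h1 := h.gtf_D hx (g := fun y => fderiv ℝ N y v) (g1 := fun y => fderiv ℝ N y v)
      (gtf_app h0 v).differentiableAt (fun y hy => h.par y hy v) u
    rw [gtf_app_eq h0] at h1
    simp only [h.DN_eq hx, map_neg] at h1
    have h3 : ∀ a b c : F, -a + b = c → a = b - c := by
      intro a b c h4
      rw [← h4]
      abel
    exact h3 _ _ _ h1
  rw [key, key, h.N2_symm hx]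

end Pool.Agent.Lib.MP_3248c9_gt.Pn
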