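import Pool.Agent.Lib.MP_3248c9_gt.Pn.GOp

/-!
# The traces of the operators `A_c`

Model: `Hy/GTr.lean` (`tr_sub`, `tr_smul`, `tr_rk_comp` of `Hy`).
* `tr_Ae`: `A_e = - De ∘ J ∘ Q`, `De ∘ J ∘ Tf = De ∘ J` (`J_Tf`), `Q = Tf - rk e`, `tr (De ∘ J ∘ rk e) = <e, De (J e)> = 0`.
* `Ao_tr`: by `Ao_eq`: `A_c = Hs nu ∘ Q - <e, c> (De ∘ J ∘ Q) = Hs nu ∘ Q + <e, c> A_e`, `nu = c - Tf c`; `Hs nu ∘ Q = Hs nu ∘ Tf - Hs nu ∘ rk e = Hs nu - Hs nu ∘ rk e`
  (`J_Tf`), `tr (Hs nu) = -2 kp <N, nu> = -2 kp <N, c>` (`mean`, `Tf_N`), `tr (Hs nu ∘ rk e) = <e, (D_{eh} Tf) nu> = <(D_{eh} Tf) e, nu> = <D_{eh} e, nu> = <D_{eh} e, c>`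
  (`DT_symm`, `DT_ee`, `geod`, `Tf_symm`).
* `Ao_trN`: `Ao_tr` with `c = N`: `<D_{eh} e, N> = kp` (`de_N`, `e_tan`, `ee`), `<N, N> = 1`, `<e, N> = 0`.
* `Sh2`: `Sh = Sh Tf = Sh Q + kp rk e` (`Sh_Tf`, `She`), `A_N = Sh Q` (`Ao_N`); `A_N A_N = Sh Sh Q` because `Q Sh Q = Sh Q` (`Sh` preserves `W`), and
  `tr (Sh Sh Q) = tr (Sh Sh) - <e, Sh Sh e> = tr (Sh Sh) - kp^2`.
* `normal_eq`: `k1 = -(om/2)`, `nrm`, `tr_Ae`, `Sh2`.
-/

set_option autoImplicit false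

namespace Pool.Agent.Lib.MP_3248c9_gt.Pn

open Set Pool.Agent.Lib.MP_3248c9_gt.Hy
open scoped ContDiff

variable {E F : Type} [NormedAddCommGroup E] [NormedSpace ℝ E] [FiniteDimensional ℝ E]
  [NormedAddCommGroup F] [InnerProductSpace ℝ F] [FiniteDimensional ℝ F] [CompleteSpace F]
  {V : Set E} {f N : E → F} {J : E → F →L[ℝ] E} {e : E → F} {kp om : E → ℝ} {x : E}

omit [FiniteDimensional ℝ F] [CompleteSpace F] in
private theorem gTrc_add (A B : F →L[ℝ] F) : tr (A + B) = tr A + tr B :=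
  map_add (LinearMap.trace ℝ F) (A : F →ₗ[ℝ] F) (B : F →ₗ[ℝ] F)

omit [FiniteDimensional ℝ F] [CompleteSpace F] in
private theorem gTrc_comm (A B : F →L[ℝ] F) : tr (A * B) = tr (B * A) :=
  LinearMap.trace_mul_comm ℝ (A : F →ₗ[ℝ] F) (B : F →ₗ[ℝ] F)

private theorem gTrc_JQ (h : FrP V f N J e kp om) (hx : x ∈ V) (w : F) :
    J x (Qf f J e x w) = J x w - (inner ℝ (e x) w : ℝ) • J x (e x) := by
  rw [Q_apply, map_sub, h.J_Tf hx, map_smul]

theorem FrP.tr_Ae (h : FrP V f N J e kp om) (hx : x ∈ V)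
    (hi : Function.Injective (Pg f N J e kp x)) :
    tr (Ao f J e x (e x)) = -tr ((fderiv ℝ e x).comp (J x)) := by
  have e1 : Ao f J e x (e x) = ((fderiv ℝ e x).comp (J x)) * rk (e x) -
      (fderiv ℝ e x).comp (J x) := by
    refine ContinuousLinearMap.ext fun w => ?_
    rw [h.Ao_e hx hi, gTrc_JQ h hx, map_sub, map_smul]
    have e2 : ((((fderiv ℝ e x).comp (J x)) * rk (e x) - (fderiv ℝ e x).comp (J x) :
        F →L[ℝ] F)) w = fderiv ℝ e x (J x (rk (e x) w)) - fderiv ℝ e x (J x w) := rfl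
    rw [e2, rk_apply, map_smul, map_smul]
    abel
  rw [e1, tr_sub, tr_rk_comp]
  have e3 : inner ℝ (e x) (((fderiv ℝ e x).comp (J x)) (e x)) = 0 := by
    rw [real_inner_comm]
    exact h.de_e hx _
  rw [e3, zero_sub]

theorem FrP.Ao_tr (h : FrP V f N J e kp om) (hx : x ∈ V)
    (hi : Function.Injective (Pg f N J e kp x)) (c : F) :
    inner ℝ (fderiv ℝ e x (J x (e x))) c = -2 * kp x * inner ℝ (N x) c - tr (Ao f J e x c) +
      inner ℝ (e x) c * tr (Ao f J e x (e x)) := by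
  have e1 : Ao f J e x c = (Hs f J x (c - Tf f J x c) -
      Hs f J x (c - Tf f J x c) * rk (e x)) + (inner ℝ (e x) c : ℝ) • Ao f J e x (e x) := by
    refine ContinuousLinearMap.ext fun w => ?_
    have e2 : ((Hs f J x (c - Tf f J x c) -
      Hs f J x (c - Tf f J x c) * rk (e x)) + (inner ℝ (e x) c : ℝ) • Ao f J e x (e x) :
        F →L[ℝ] F) w = (fderiv ℝ (Tf f J) x (J x w) (c - Tf f J x c) -
          fderiv ℝ (Tf f J) x (J x (rk (e x) w)) (c - Tf f J x c)) +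
            (inner ℝ (e x) c : ℝ) • Ao f J e x (e x) w := rfl
    rw [e2, h.Ao_eq hx hi, h.Ao_e hx hi, rk_apply, gTrc_JQ h hx, smul_neg, ← sub_eq_add_neg]
    congr 1
    obtain ⟨nu, hnu⟩ : ∃ nu, nu = c - Tf f J x c := ⟨_, rfl⟩
    rw [← hnu, map_sub, map_smul, map_smul, map_smul]
    rfl
  have e3 : tr (Hs f J x (c - Tf f J x c)) = -2 * kp x * inner ℝ (N x) c := by
    rw [h.mean x hx, inner_sub_right, ← h.Tf_symm hx, h.Tf_N hx, inner_zero_left, sub_zero]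
  have e4 : inner ℝ (e x) (Hs f J x (c - Tf f J x c) (e x)) =
      inner ℝ (fderiv ℝ e x (J x (e x))) c := by
    have e5 : Hs f J x (c - Tf f J x c) (e x) =
      fderiv ℝ (Tf f J) x (J x (e x)) (c - Tf f J x c) := rfl
    rw [e5, ← h.DT_symm hx, h.DT_ee hx hi, inner_sub_right, ← h.Tf_symm hx, h.geod hx hi,
      inner_zero_left, sub_zero]
  have e6 := congrArg (tr (F := F)) e1
  rw [gTrc_add, tr_sub, tr_rk_comp, tr_smul, e3, e4] at e6
  linarith

theorem FrP.Ao_trN (h : FrP V f N J e kp om) (hx : x ∈ V)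
    (hi : Function.Injective (Pg f N J e kp x)) : tr (Ao f J e x (N x)) = -3 * kp x := by
  have h1 := h.Ao_tr hx hi (N x)
  rw [h.de_N hx, h.e_tan hx, h.ee x hx, h.unit x hx, real_inner_comm (N x) (e x), h.eN hx] at h1
  linarith

theorem FrP.Sh2 (h : FrP V f N J e kp om) (hx : x ∈ V)
    (hi : Function.Injective (Pg f N J e kp x)) :
    tr (Ao f J e x (N x) * Ao f J e x (N x)) = tr (Sh N J x * Sh N J x) - kp x ^ 2 := by
  have e0 : Ao f J e x (N x) = Sh N J x - kp x • rk (e x) := by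
    refine ContinuousLinearMap.ext fun w => ?_
    have e2 : (Sh N J x - kp x • rk (e x) : F →L[ℝ] F) w = Sh N J x w - kp x • rk (e x) w := rfl
    rw [h.Ao_N hx hi, e2, rk_apply, Q_apply, map_sub, h.Sh_Tf hx, map_smul, h.She x hx,
      smul_comm]
  have e1 : Ao f J e x (N x) * Ao f J e x (N x) = Sh N J x * Sh N J x -
      kp x • (Sh N J x * rk (e x)) - kp x • (rk (e x) * Sh N J x) +
        kp x • (kp x • (rk (e x) * rk (e x))) := by
    rw [e0, sub_mul, mul_sub, mul_sub, mul_smul_comm, smul_mul_assoc, smul_mul_assoc,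
      mul_smul_comm]
    abel
  have e2 : tr (Sh N J x * rk (e x)) = kp x := by
    rw [tr_rk_comp, h.She x hx, inner_smul_right, h.ee x hx, mul_one]
  have e3 : tr (rk (e x) * rk (e x)) = 1 := by
    rw [tr_rk_comp, rk_apply, inner_smul_right, h.ee x hx, mul_one]
  rw [e1, gTrc_add, tr_sub, tr_sub, tr_smul, tr_smul, tr_smul, tr_smul, gTrc_comm (rk (e x)), e2,
    e3]
  ring

theorem FrP.normal_eq (h : FrP V f N J e kp om) (hx : x ∈ V)
    (hi : Function.Injective (Pg f N J e kp x)) :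
    fderiv ℝ (fun y => -(om y / 2)) x (J x (e x)) =
      kp x * (kp x ^ 2 + tr (Ao f J e x (N x) * Ao f J e x (N x))) +
        -(om x / 2) * tr (Ao f J e x (e x)) := by
  have hd : DifferentiableAt ℝ om x :=
    ((h.os x hx).contDiffAt (h.op.mem_nhds hx)).differentiableAt (by simp)
  have e1 : fderiv ℝ (fun y => -(om y / 2)) x = (-(1 / 2 : ℝ)) • fderiv ℝ om x := by
    have h1 : (fun y => -(om y / 2)) = fun y => (-(1 / 2 : ℝ)) * om y := by
      funext y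
      ring
    rw [h1, fderiv_const_mul hd]
  rw [e1, h.Sh2 hx hi, h.tr_Ae hx hi]
  have e2 := h.nrm x hx
  have e3 : ((-(1 / 2 : ℝ)) • fderiv ℝ om x) (J x (e x)) =
      -(1 / 2) * fderiv ℝ om x (J x (e x)) := rfl
  rw [e3]
  linear_combination (-(1 / 2 : ℝ)) * e2

end Pool.Agent.Lib.MP_3248c9_gt.Pn
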