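import Mathlib

/-!
# The interface between the geometry and the ray theorem

`da g X i = 1 + <g_i, X>` are affine functions of the point `X`, `P = prod da`, `gL g X` is the gradient of
`log P`. A `KRay` is a unit speed curve `X` with unit tangent `T`, a unit normal `N` with `N' = - k T`,
curvature vector `T' = gL - <gL, T> T - 2 k N`, `3 k = <gL, N>` and
`(P k')' = P k (k^2 + sum (<g_i, N>/da_i)^2)`.
-/

set_option autoImplicit false

namespace Pool.Agent.Lib.MP_3248c9_gt.Pn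

open Set

variable {F : Type} [NormedAddCommGroup F] [InnerProductSpace ℝ F] {ι : Type} [Fintype ι]

/-- The affine functions. -/
noncomputable def da (g : ι → F) (X : F) (i : ι) : ℝ := 1 + inner ℝ (g i) X

/-- The gradient of the logarithm of the product of the affine functions. -/
noncomputable def gL (g : ι → F) (X : F) : F := ∑ i, (da g X i)⁻¹ • g i

/-- The ray system on the time interval `(-δ, δ)`, in arc length. -/
structure KRay (g : ι → F) (δ : ℝ) (X T N : ℝ → F) (k k1 : ℝ → ℝ) : Prop where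
  hX : ∀ t ∈ Ioo (-δ) δ, HasDerivAt X (T t) t
  hT : ∀ t ∈ Ioo (-δ) δ, HasDerivAt T
    (gL g (X t) - inner ℝ (gL g (X t)) (T t) • T t - (2 * k t) • N t) t
  hN : ∀ t ∈ Ioo (-δ) δ, HasDerivAt N (-(k t) • T t) t
  hk : ∀ t ∈ Ioo (-δ) δ, HasDerivAt k (k1 t) t
  hk1 : ∀ t ∈ Ioo (-δ) δ, HasDerivAt k1
    (k t * (k t ^ 2 + ∑ i, (inner ℝ (g i) (N t) / da g (X t) i) ^ 2) -
      k1 t * inner ℝ (gL g (X t)) (T t)) t
  TT : ∀ t ∈ Ioo (-δ) δ, inner ℝ (T t) (T t) = 1
  NN : ∀ t ∈ Ioo (-δ) δ, inner ℝ (N t) (N t) = 1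
  TN : ∀ t ∈ Ioo (-δ) δ, inner ℝ (T t) (N t) = 0
  pos : ∀ t ∈ Ioo (-δ) δ, ∀ i, 0 < da g (X t) i
  ray : ∀ t ∈ Ioo (-δ) δ, inner ℝ (gL g (X t)) (N t) = 3 * k t

end Pool.Agent.Lib.MP_3248c9_gt.Pn
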