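import Pool.Agent.Lib.MP_3248c9_gt.Pn.Nest

/-!
# The end point of the ray

`q t >= q 0 + m 0 t` tends to infinity, the centres `ctr t` form a Cauchy family by `Ray.nested`, and `|x - ctr| = 1/q` tends
to `0`; so `x` converges to a point `e`, which lies in all balls (let the upper time tend to infinity in `Ray.nested`):
`|e - ctr t| <= 1/q t`. Hence `|e - x t| <= 2/q t`, i.e. `q t * |x t - e| <= 2`. See `Hy/Lim.lean` (same proof).
-/

set_option autoImplicit false

namespace Pool.Agent.Lib.MP_3248c9_gt.Pn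

open Finset Filter Topology

variable {ι : Type} [Fintype ι] [DecidableEq ι] {k : ℕ} {a : ι → Ek k} {x y z : ℝ → Ek k}
  {q m : ℝ → ℝ}

theorem Ray.k_tendsto (h : Ray a (Set.Ici 0) x y z q m) : Tendsto q atTop atTop := by
  have h1 : Tendsto (fun t : ℝ => q 0 + m 0 * t) atTop atTop :=
    tendsto_atTop_add_const_left _ _ (Tendsto.const_mul_atTop h.m0 tendsto_id)
  refine tendsto_atTop_mono' atTop ?_ h1
  filter_upwards [eventually_ge_atTop (0 : ℝ)] with t ht
  exact (h.subset (I' := Set.Icc 0 t) fun _ hx => hx.1).k_lower ⟨ht, le_rfl⟩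

theorem Ray.k_ge (h : Ray a (Set.Ici 0) x y z q m) {t : ℝ} (ht : 0 ≤ t) :
    q 0 + m 0 * t ≤ q t :=
  (h.subset (I' := Set.Icc 0 t) fun _ hx => hx.1).k_lower ⟨ht, le_rfl⟩

theorem Ray.k_pos (h : Ray a (Set.Ici 0) x y z q m) {t : ℝ} (ht : 0 ≤ t) : 0 < q t := by
  have h1 := h.k_ge ht
  have h2 := h.k0
  have h3 := mul_nonneg h.m0.le ht
  linarith

theorem Ray.m_le (h : Ray a (Set.Ici 0) x y z q m) {r t : ℝ} (hr : 0 ≤ r) (hrt : r ≤ t) :
    m r ≤ m t :=
  (h.subset (I' := Set.Icc 0 t) fun _ hx => hx.1).m_mono hr hrt le_rfl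

/-- The distance to the centre. -/
theorem Ray.Lim_norm (h : Ray a (Set.Ici 0) x y z q m) {t : ℝ} (ht : 0 ≤ t) :
    ‖(1 / q t) • z t‖ = 1 / q t := by
  rw [norm_smul, h.NN t ht, mul_one, Real.norm_of_nonneg (one_div_pos.2 (h.k_pos ht)).le]

theorem Ray.limit (h : Ray a (Set.Ici 0) x y z q m) :
    ∃ e : Ek k, Tendsto x atTop (𝓝 e) ∧ ∀ t, 0 ≤ t → ‖e - ctr x z q t‖ ≤ 1 / q t := by
  have hkinv : Tendsto (fun t => 1 / q t) atTop (𝓝 0) := by
    refine (tendsto_inv_atTop_zero.comp h.k_tendsto).congr fun t => ?_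
    rw [Function.comp_apply, one_div]
  have hnest : ∀ r t : ℝ, 0 ≤ r → r ≤ t → ‖ctr x z q t - ctr x z q r‖ ≤ 1 / q r := by
    intro r t hr hrt
    have h1 := (h.subset (I' := Set.Icc 0 t) fun _ hx => hx.1).nested hr hrt le_rfl
    have h2 : 0 < 1 / q t := one_div_pos.2 (h.k_pos (hr.trans hrt))
    linarith
  have hmax : Tendsto (fun t : ℝ => max t 0) atTop atTop :=
    tendsto_atTop_mono (fun t => le_max_left t 0) tendsto_id
  have hcau : CauchySeq (fun t : ℝ => ctr x z q (max t 0)) := by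
    refine cauchySeq_of_le_tendsto_0' (fun t => 1 / q (max t 0)) (fun r t hrt => ?_)
      (hkinv.comp hmax)
    rw [dist_comm, dist_eq_norm]
    exact hnest _ _ (le_max_right _ _) (max_le_max_right _ hrt)
  obtain ⟨e, he⟩ := cauchySeq_tendsto_of_complete hcau
  have he' : Tendsto (fun t : ℝ => ctr x z q t) atTop (𝓝 e) := by
    refine he.congr' ?_
    filter_upwards [eventually_ge_atTop (0 : ℝ)] with t ht
    rw [max_eq_left ht]
  have hs : Tendsto (fun t => (1 / q t) • z t) atTop (𝓝 0) := by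
    refine squeeze_zero_norm' ?_ hkinv
    filter_upwards [eventually_ge_atTop (0 : ℝ)] with t ht
    exact (h.Lim_norm ht).le
  refine ⟨e, ?_, fun t ht => ?_⟩
  · have h1 := he'.sub hs
    rw [sub_zero] at h1
    refine h1.congr fun t => ?_
    rw [ctr, add_sub_cancel_right]
  · refine le_of_tendsto ((he'.sub_const (ctr x z q t)).norm) ?_
    filter_upwards [eventually_ge_atTop t] with r hr
    exact hnest t r ht hr

/-- The end point as a structure, for later use. -/
structure EndPt (x z : ℝ → Ek k) (q : ℝ → ℝ) (e : Ek k) : Prop where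
  tx : Tendsto x atTop (𝓝 e)
  ball : ∀ t, 0 ≤ t → ‖e - ctr x z q t‖ ≤ 1 / q t

/-- `q r <= 2` with `r = |x - e|`. -/
theorem Ray.q_le (h : Ray a (Set.Ici 0) x y z q m) {e : Ek k} (he : EndPt x z q e) {t : ℝ}
    (ht : 0 ≤ t) : q t * ‖x t - e‖ ≤ 2 := by
  have h0 := h.k_pos ht
  have h1 : x t - e = -((e - ctr x z q t) + (1 / q t) • z t) := by
    rw [ctr]
    abel
  have h2 : ‖x t - e‖ ≤ 1 / q t + 1 / q t := by
    rw [h1, norm_neg]
    refine (norm_add_le _ _).trans (add_le_add (he.ball t ht) (h.Lim_norm ht).le)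
  calc q t * ‖x t - e‖ ≤ q t * (1 / q t + 1 / q t) := mul_le_mul_of_nonneg_left h2 h0.le
    _ = 2 := by
      field_simp
      norm_num

end Pool.Agent.Lib.MP_3248c9_gt.Pn
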