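import Pool.Agent.Lib.MP_3248c9_gt.Pn.CBi
import Pool.Agent.Lib.MP_3248c9_gt.Pn.GMain
import Pool.Agent.Lib.MP_3248c9_gt.Hy.CFin

/-!
# Chen's biharmonic conjecture for submanifolds with parallel normalised mean curvature vector

Model: `Hy/CFin.lean` (`lb_congr`).
`minimalP`: on `V = {y ∈ U | lb f f y != 0}` (open, `isOpen_neP`): `pat`, `ph_eqP`, `bihP`, `BihP.empty`.
`minimalH`: for `m = n + 1` the hypothesis on the unit normal is automatic: `<Nv, D Nv v> = 0` (differentiate `Nv_unit`), and by `CPatch_dec` of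
`Hy` (`Nh = Nv`) a vector orthogonal to the unit normal is in the range of `Df`.
-/

set_option autoImplicit false

namespace Pool.Agent.Lib.MP_3248c9_gt.Pn

open Set Pool.Agent.Lib.MP_3248c9_gt.Hy
open scoped ContDiff

variable {n m : ℕ} {U : Set (Eu n)}

theorem minimalP {f : Eu n → Eu m} (h : Imc U f)
    (hp : ∀ x ∈ U, lb f f x ≠ 0 → ∀ v, fderiv ℝ (Nv f) x v ∈ Set.range (fderiv ℝ f x))
    (hb : ∀ x ∈ U, lb f (lb f f) x = 0) : ∀ x ∈ U, lb f f x = 0 := by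
  intro x hx
  by_contra hne
  have hP := pat h hp
  have hI : Imc {y | y ∈ U ∧ lb f f y ≠ 0} f :=
    ⟨isOpen_neP h, h.fs.mono fun y hy => hy.1, fun y hy => h.inj y hy.1⟩
  have hm : ∀ y ∈ {y | y ∈ U ∧ lb f f y ≠ 0}, ph (Nv f) (Jm f) y • Nv f y = lb f f y := by
    intro y hy
    rw [ph_eqP h hp hy.1 hy.2, Nv, smul_smul, mul_inv_cancel₀ (norm_ne_zero_iff.mpr hy.2),
      one_smul]
  have hB : BihP {y | y ∈ U ∧ lb f f y ≠ 0} f (Nv f) (Jm f) := by
    refine Pat.bihP hI hP (fun y hy => ?_) hm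
    rw [← hb y hy.1]
    refine lb_congr ?_
    filter_upwards [(isOpen_neP h).mem_nhds hy] with z hz
    exact hm z hz
  have hE := hB.empty fun y hy => by
    rw [ph_eqP h hp hy.1 hy.2]
    exact norm_ne_zero_iff.mpr hy.2
  have h1 : x ∈ ({y | y ∈ U ∧ lb f f y ≠ 0} : Set (Eu n)) := ⟨hx, hne⟩
  rw [hE] at h1
  exact h1

theorem minimalH {f : Eu n → Eu (n + 1)} (h : Imc U f)
    (hb : ∀ x ∈ U, lb f (lb f f) x = 0) : ∀ x ∈ U, lb f f x = 0 := by
  exact h.minimal hb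

end Pool.Agent.Lib.MP_3248c9_gt.Pn
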