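import Pool.Agent.Lib.MP_3248c9_gt.Pn.Zero

/-!
# Exactly one affine function cannot vanish at the end point

Let `d_i e = 0`, `d_j e > 0` for `j != i`; `al = |a_i|^2 > 0` (since `d_i 0 = 1`, `a_i != 0`); `d = d_i (x t) > 0`, `d -> 0`;
`R = c_i (x t) = prod_{j != i} d_j > 0` tends to `R_e > 0`; `u = <a_i, y>`, `v = <a_i, z>`. `P = d R`; `G = R a_i + d H` with
`H = sum_{j != i} (prod_{l != i, j} d_l) a_j` bounded (`cv x j = d * prod_{l != i, j} d_l` for `j != i`; or estimate `G - R a_i` directly: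
`|G - R a_i| <= C d` eventually).
* `d' = P u = d R u`; `v' = <a_i, z'> = - P q u` (`q = curvature > 0`, `P q = K = (1/3) <G, z>`);
* `u' = <a_i, G> - <G, y> u - 2 P q v = R (al - u^2 - v^2) + (1/3) R v^2 + O(d)` (`2 P q = (2/3)(R v + O(d))`), and
  `u^2 + v^2 <= al` (Bessel, `y, z` orthonormal); so `u' >= R (al - u^2 - v^2) + (1/3) R v^2 - C d`.
(1) There is `t1` such that for `t >= t1`: if `u t = 0` then `u' t > 0` (`R (al - v^2) + R v^2/3 >= R al/3`, `d` small). So if `u t2 >= 0` for some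
  `t2 >= t1` then `u >= 0` on `[t2, oo)` and `d` is nondecreasing there: contradiction with `d > 0`, `d -> 0`. Hence `u < 0` on `[t1, oo)`.
  (To avoid the crossing argument: while `u^2 <= eps` the derivative `u' >= c > 0`.)
(2) So `v' = -P q u >= 0` for `t >= t1`; `3 q = v/d + sum_{j != i} <a_j, z>/d_j` and `q -> oo` give `v > 0` at some time, so `v >= v1 > 0` for all large `t`.
(3) So `u' >= (1/3) R v1^2 - C d >= c > 0` for all large `t`, and `u` is unbounded: contradiction with `|u| <= |a_i|`.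
The lemmas `onea`, `oneb` isolate the real variable arguments.
-/

set_option autoImplicit false

namespace Pool.Agent.Lib.MP_3248c9_gt.Pn

open Finset Filter Topology

private theorem one_mono {f f' : ℝ → ℝ} {t1 : ℝ} (hf : ∀ t, t1 ≤ t → HasDerivAt f (f' t) t)
    (h0 : ∀ t, t1 ≤ t → 0 ≤ f' t) {r t : ℝ} (hr : t1 ≤ r) (hrt : r ≤ t) : f r ≤ f t := by
  have h1 : MonotoneOn f (Set.Ici t1) := by
    refine monotoneOn_of_deriv_nonneg (convex_Ici t1)
      (fun z hz => (hf z hz).continuousAt.continuousWithinAt) ?_ ?_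
    · intro z hz
      rw [interior_Ici] at hz
      exact (hf z (le_of_lt hz)).differentiableAt.differentiableWithinAt
    · intro z hz
      rw [interior_Ici] at hz
      rw [(hf z (le_of_lt hz)).deriv]
      exact h0 z (le_of_lt hz)
  exact h1 hr (hr.trans hrt) hrt

/-- A function with `u' > 0` at its zeros keeps the sign `>= 0`. -/
theorem one_keep (u u' : ℝ → ℝ) (t1 : ℝ) (hu : ∀ t, t1 ≤ t → HasDerivAt u (u' t) t)
    (h0 : ∀ t, t1 ≤ t → u t = 0 → 0 < u' t) (h1 : 0 ≤ u t1) : ∀ t, t1 ≤ t → 0 ≤ u t := by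
  intro t ht
  have h2 := image_le_of_deriv_right_lt_deriv_boundary (f := fun t => -u t)
    (f' := fun t => -u' t) (a := t1) (b := t) (B := fun _ => 0) (B' := fun _ => 0)
    (fun r hr => (hu r hr.1).neg.continuousAt.continuousWithinAt)
    (fun r hr => (hu r hr.1).neg.hasDerivWithinAt) (by
      linarith) (fun r => hasDerivAt_const r 0) (fun r hr h => by
      have h3 := h0 r hr.1 (neg_eq_zero.1 h)
      linarith) (Set.right_mem_Icc.2 ht)
  linarith

/-- The real variable argument. -/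
theorem one_real (d u v q Q R : ℝ → ℝ) (d' u' v' : ℝ → ℝ) (al Re C : ℝ) (hal : 0 < al)
    (hRe : 0 < Re) (hd0 : ∀ t, 0 ≤ t → 0 < d t) (hdt : Tendsto d atTop (𝓝 0))
    (hR0 : ∀ t, 0 ≤ t → 0 < R t) (hR : Tendsto R atTop (𝓝 Re))
    (hq : ∀ t, 0 ≤ t → 0 < q t) (hqt : Tendsto q atTop atTop)
    (hQ : ∀ᶠ t in atTop, |Q t| ≤ C) (h3 : ∀ t, 0 ≤ t → 3 * q t = v t / d t + Q t)
    (hd : ∀ t, 0 ≤ t → HasDerivAt d (d' t) t) (hd' : ∀ t, 0 ≤ t → d' t = d t * R t * u t)
    (hv : ∀ t, 0 ≤ t → HasDerivAt v (v' t) t) (hv' : ∀ t, 0 ≤ t → v' t = -(d t * R t * q t * u t))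
    (hu : ∀ t, 0 ≤ t → HasDerivAt u (u' t) t)
    (hu' : ∀ᶠ t in atTop, R t * (al - u t ^ 2 - v t ^ 2) + (1 / 3) * R t * v t ^ 2 - C * d t ≤ u' t)
    (huv : ∀ t, 0 ≤ t → u t ^ 2 + v t ^ 2 ≤ al) : False := by
  have hCd : Tendsto (fun t => C * d t) atTop (𝓝 0) := by
    have h1 := hdt.const_mul C
    rwa [mul_zero] at h1
  -- late times
  have hev : ∀ ε : ℝ, 0 < ε → ∃ t1 : ℝ, 0 ≤ t1 ∧ ∀ t, t1 ≤ t → C * d t < ε ∧ Re / 2 < R t ∧
      |Q t| ≤ C ∧
      R t * (al - u t ^ 2 - v t ^ 2) + (1 / 3) * R t * v t ^ 2 - C * d t ≤ u' t := by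
    intro ε hε
    have h1 := ((hCd.eventually_lt_const hε).and
      ((hR.eventually_const_lt (show Re / 2 < Re by linarith)).and (hQ.and hu')))
    rw [eventually_atTop] at h1
    obtain ⟨t0, h2⟩ := h1
    exact ⟨max t0 0, le_max_right _ _, fun t ht => h2 t ((le_max_left _ _).trans ht)⟩
  obtain ⟨T1, hT10, hT1⟩ := hev (Re * al / 6) (by positivity)
  -- the sign of `u`
  have hneg : ∀ t2, T1 ≤ t2 → u t2 < 0 := by
    intro t2 ht2
    by_contra hcon
    have hcon' := not_lt.1 hcon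
    have h1 := one_keep u u' t2 (fun t ht => hu t (by linarith)) (fun t ht h0 => by
      obtain ⟨e1, e2, -, e4⟩ := hT1 t (by linarith)
      have e5 := huv t (by linarith)
      rw [h0] at e4 e5
      have e6 : R t * (v t ^ 2) ≤ R t * al := by
        refine mul_le_mul_of_nonneg_left ?_ (by linarith)
        linarith
      have e7 : Re / 2 * al < R t * al := mul_lt_mul_of_pos_right e2 hal
      nlinarith) hcon'
    have h2 : ∀ t, t2 ≤ t → d t2 ≤ d t := fun t ht =>
      one_mono (f := d) (f' := d') (t1 := t2) (fun r hr => hd r (by linarith)) (fun r hr => by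
        rw [hd' r (by linarith)]
        have e1 := hd0 r (by linarith)
        have e2 := hR0 r (by linarith)
        have e3 := h1 r hr
        positivity) le_rfl ht
    have h3 := hdt.eventually_lt_const (hd0 t2 (by linarith))
    obtain ⟨t, h4, h5⟩ := (h3.and (eventually_ge_atTop t2)).exists
    exact absurd (h2 t h5) (not_le.2 h4)
  -- `v` increases
  have hvm : ∀ s t, T1 ≤ s → s ≤ t → v s ≤ v t := fun s t hs hst =>
    one_mono (f := v) (f' := v') (t1 := T1) (fun r hr => hv r (by linarith)) (fun r hr => by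
      rw [hv' r (by linarith)]
      have e1 := hd0 r (by linarith)
      have e2 := hR0 r (by linarith)
      have e3 := hq r (by linarith)
      have e4 := hneg r hr
      have e5 : 0 < d r * R r * q r := by positivity
      nlinarith) hs hst
  obtain ⟨T2, hT2, hvT2⟩ : ∃ T2, T1 ≤ T2 ∧ 0 < v T2 := by
    obtain ⟨t, h1, h2⟩ := ((hqt.eventually_gt_atTop C).and (eventually_ge_atTop T1)).exists
    refine ⟨t, h2, ?_⟩
    have e1 := h3 t (by linarith)
    have e2 := (hT1 t h2).2.2.1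
    have e3 := hd0 t (by linarith)
    have e4 := (abs_le.1 e2).2
    have e5 : 0 ≤ C := (abs_nonneg _).trans e2
    have e6 : 0 < v t / d t := by linarith
    exact (div_pos_iff_of_pos_right e3).1 e6
  obtain ⟨v1, hv1⟩ : ∃ v1, v1 = v T2 := ⟨_, rfl⟩
  rw [← hv1] at hvT2
  obtain ⟨T3, hT30, hT3⟩ := hev (Re * v1 ^ 2 / 12) (by positivity)
  obtain ⟨T4, hT4, hT4'⟩ : ∃ T4, T2 ≤ T4 ∧ T3 ≤ T4 := ⟨max T2 T3, le_max_left _ _, le_max_right _ _⟩
  obtain ⟨c, hc, hc0⟩ : ∃ c : ℝ, c = Re * v1 ^ 2 / 12 ∧ 0 < c := ⟨_, rfl, by positivity⟩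
  have hfin : ∀ t, T4 ≤ t → u T4 - c * T4 ≤ u t - c * t := fun t ht =>
    one_mono (f := fun t => u t - c * t) (f' := fun t => u' t - c * 1) (t1 := T4)
      (fun r hr => (hu r (by linarith)).sub ((hasDerivAt_id r).const_mul c)) (fun r hr => by
        obtain ⟨e1, e2, -, e4⟩ := hT3 r (by linarith)
        have e5 := huv r (by linarith)
        have e6 := hvm T2 r hT2 (by linarith)
        rw [← hv1] at e6
        have e7 : v1 ^ 2 ≤ v r ^ 2 := pow_le_pow_left₀ hvT2.le e6 2
        have e8 : 0 ≤ R r * (al - u r ^ 2 - v r ^ 2) :=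
          mul_nonneg (by linarith) (by linarith)
        have e9 : (1 / 3) * (Re / 2) * v1 ^ 2 ≤ (1 / 3) * R r * v r ^ 2 := by
          refine mul_le_mul ?_ e7 (sq_nonneg _) ?_
          · linarith
          · linarith
        rw [hc]
        linarith) le_rfl ht
  have h1 := hfin (max T4 (T4 + (1 - u T4) / c)) (le_max_left _ _)
  have h2 := hneg (max T4 (T4 + (1 - u T4) / c)) (by
    have := le_max_left T4 (T4 + (1 - u T4) / c)
    linarith)
  have h3' : c * (T4 + (1 - u T4) / c) ≤ c * max T4 (T4 + (1 - u T4) / c) :=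
    mul_le_mul_of_nonneg_left (le_max_right _ _) hc0.le
  have h4 : c * (T4 + (1 - u T4) / c) = c * T4 + (1 - u T4) := by
    field_simp
  linarith

end Pool.Agent.Lib.MP_3248c9_gt.Pn
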