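import Pool.Agent.Lib.MP_3248c9_gt.Pn.SolPos

/-!
# A solution on `[0, T]` is a ray

Put `q = K/P`, `m = M/P` along the curve (`Kv`, `eval (MP a)`). `q' = (V K P - K P E)/P^2 = M/P = m`,
`m' = (V M - M E)/P = (K^3 + K sum <a_i, z>^2 c_i^2)/P = P^2 q (q^2 + sum (<a_i, z>/d_i)^2)` because `F = 0` along the curve
(`Sol.F_zero`; `c_i = P/d_i`). `q = (1/3) sum <a_i, z>/d_i` by `Kv_eq`. Same as `Hy/RayOf.lean`.
At time `0`: `P = 1`, so `q 0 = eval (KP)`, `m 0 = eval (MP)`.
-/

set_option autoImplicit false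

namespace Pool.Agent.Lib.MP_3248c9_gt.Pn

open Finset MvPolynomial

variable {ι : Type} [Fintype ι] [DecidableEq ι] {k : ℕ} {a : ι → Ek k} {T : ℝ} {x y z : ℝ → Ek k}

theorem ray_of_solution (hT : 0 ≤ T) (h : Sol a (Set.Icc 0 T) x y z)
    (hK : 0 < eval (pt 0 (y 0) (z 0)) (KP a)) (hM : 0 < eval (pt 0 (y 0) (z 0)) (MP a))
    (hF : ∀ j : ℕ, eval (pt 0 (y 0) (z 0)) ((VF a)^[j] (FP a)) = 0) :
    Ray a (Set.Icc 0 T) x y z (fun t => Kv a (x t) (z t) / pv a (x t))
      (fun t => eval (pt (x t) (y t) (z t)) (MP a) / pv a (x t)) := by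
  have h00 : (0 : ℝ) ∈ Set.Icc (0 : ℝ) T := ⟨le_rfl, hT⟩
  have hpos : ∀ t ∈ Set.Icc (0 : ℝ) T, ∀ i, 0 < dv a (x t) i := fun t ht i => h.pos ht i
  have hpp : ∀ t ∈ Set.Icc (0 : ℝ) T, 0 < pv a (x t) := fun t ht =>
    Finset.prod_pos fun i _ => hpos t ht i
  have hp0 : 0 < pv a (x 0) := hpp 0 h00
  -- the derivative of `P`
  have hP : ∀ t ∈ Set.Icc (0 : ℝ) T, HasDerivAt (fun t => pv a (x t))
      (pv a (x t) * eval (pt (x t) (y t) (z t)) (EP a)) t := by
    intro t ht
    have h1 := h.deriv_eval ht (PP a)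
    rw [VF_PP, map_mul, eval_PP] at h1
    refine h1.congr_of_eventuallyEq (Filter.Eventually.of_forall fun r => ?_)
    exact (eval_PP a (x r) (y r) (z r)).symm
  -- quotient rule
  have hdiv : ∀ t ∈ Set.Icc (0 : ℝ) T, ∀ Q : Rk k,
      HasDerivAt (fun t => eval (pt (x t) (y t) (z t)) Q / pv a (x t))
        (eval (pt (x t) (y t) (z t)) (VF a Q - Q * EP a) / pv a (x t)) t := by
    intro t ht Q
    have h1 := (h.deriv_eval ht Q).div (hP t ht) (hpp t ht).ne'
    refine h1.congr_deriv ?_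
    have hne := (hpp t ht).ne'
    rw [map_sub, map_mul]
    field_simp
  have hk : ∀ t ∈ Set.Icc (0 : ℝ) T,
      HasDerivAt (fun t => Kv a (x t) (z t) / pv a (x t))
        (eval (pt (x t) (y t) (z t)) (MP a) / pv a (x t)) t := by
    intro t ht
    have h1 := hdiv t ht (KP a)
    refine h1.congr_of_eventuallyEq (Filter.Eventually.of_forall fun r => ?_)
    change Kv a (x r) (z r) / pv a (x r)
      = eval (pt (x r) (y r) (z r)) (KP a) / pv a (x r)
    rw [eval_KP]
  have hm : ∀ t ∈ Set.Icc (0 : ℝ) T,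
      HasDerivAt (fun t => eval (pt (x t) (y t) (z t)) (MP a) / pv a (x t))
        (pv a (x t) ^ 2 * (Kv a (x t) (z t) / pv a (x t)) *
          ((Kv a (x t) (z t) / pv a (x t)) ^ 2 +
            ∑ i, (inner ℝ (a i) (z t) / dv a (x t) i) ^ 2)) t := by
    intro t ht
    refine (hdiv t ht (MP a)).congr_deriv ?_
    have h1 := h.F_zero hF ht
    have hne := (hpp t ht).ne'
    rw [FP, map_sub, map_sub, map_mul, map_pow, map_sum] at h1
    have h3 : ∀ i, eval (pt (x t) (y t) (z t)) (aN a i ^ 2 * coP a i ^ 2)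
        = pv a (x t) ^ 2 * (inner ℝ (a i) (z t) / dv a (x t) i) ^ 2 := fun i => by
      rw [map_mul, map_pow, map_pow, eval_aN, eval_coP, cv_eq a i (hpos t ht i).ne']
      ring
    rw [Finset.sum_congr rfl fun i _ => h3 i, ← Finset.mul_sum, eval_KP] at h1
    have h2 : eval (pt (x t) (y t) (z t)) (VF a (MP a) - MP a * EP a)
        = Kv a (x t) (z t) ^ 3 + Kv a (x t) (z t) *
          (pv a (x t) ^ 2 * ∑ i, (inner ℝ (a i) (z t) / dv a (x t) i) ^ 2) := by
      linarith
    rw [h2]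
    field_simp
  have hmul : ∀ t ∈ Set.Icc (0 : ℝ) T,
      pv a (x t) * (Kv a (x t) (z t) / pv a (x t)) = Kv a (x t) (z t) := fun t ht =>
    mul_div_cancel₀ _ (hpp t ht).ne'
  exact
    { hX := h.hX
      hT := fun t ht => by
        have h1 := h.hT t ht
        rw [← hmul t ht] at h1
        exact h1
      hN := fun t ht => by
        have h1 := h.hN t ht
        rw [← hmul t ht] at h1
        exact h1
      hk := hk
      hm := hm
      TT := fun t ht => (h.orth ht).1
      NN := fun t ht => (h.orth ht).2.1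
      TN := fun t ht => (h.orth ht).2.2
      pos := hpos
      ray := fun t ht => by
        have hne := (hpp t ht).ne'
        show Kv a (x t) (z t) / pv a (x t) = _
        rw [Kv_eq a (z t) fun i => (hpos t ht i).ne', mul_div_cancel_left₀ _ hne]
      k0 := by
        refine div_pos ?_ hp0
        rw [← eval_KP a (x 0) (y 0) (z 0), h.x0]
        exact hK
      m0 := by
        refine div_pos ?_ hp0
        rw [h.x0]
        exact hM }

end Pool.Agent.Lib.MP_3248c9_gt.Pn
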