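import Pool.Agent.Lib.MP_3248c9_gt.Pn.Defs
import Pool.Agent.Lib.MP_3248c9_gt.Hy.GDefs

/-!
# The operator system along the integral curve

`A t c` is the shape operator of the leaf in the direction `c` (extended by zero to all of `R^k`), `y` the unit tangent, `z` the
parallel unit normal, `q` the principal curvature. The equations: `A_c' = A_c A_y`; `<y', c> = -2 q <z, c> - tr A_c + <y, c> tr A_y`;
`z' = - q y`; `q' = q1`; `q1' = q (q^2 + tr (A_z A_z)) + q1 tr A_y`; `tr A_z = -3 q`.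
-/

set_option autoImplicit false

namespace Pool.Agent.Lib.MP_3248c9_gt.Pn

open Set
open Pool.Agent.Lib.MP_3248c9_gt.Hy (tr)

variable {k : ℕ}

/-- The system for the operators along the integral curve. -/
structure PStar (ε : ℝ) (A : ℝ → Ek k →L[ℝ] (Ek k →L[ℝ] Ek k)) (y z : ℝ → Ek k)
    (q q1 : ℝ → ℝ) : Prop where
  sym : ∀ t ∈ Ioo (-ε) ε, ∀ c w w' : Ek k, inner ℝ (A t c w) w' = inner ℝ w (A t c w')
  hA : ∀ t ∈ Ioo (-ε) ε, ∀ c, HasDerivAt (fun s => A s c) (A t c * A t (y t)) t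
  hT : ∀ t ∈ Ioo (-ε) ε, ∀ c, HasDerivAt (fun s => (inner ℝ (y s) c : ℝ))
    (-2 * q t * inner ℝ (z t) c - tr (A t c) + inner ℝ (y t) c * tr (A t (y t))) t
  hN : ∀ t ∈ Ioo (-ε) ε, HasDerivAt z (-(q t • y t)) t
  hq : ∀ t ∈ Ioo (-ε) ε, HasDerivAt q (q1 t) t
  hq1 : ∀ t ∈ Ioo (-ε) ε, HasDerivAt q1
    (q t * (q t ^ 2 + tr (A t (z t) * A t (z t))) + q1 t * tr (A t (y t))) t
  trz : ∀ t ∈ Ioo (-ε) ε, tr (A t (z t)) = -3 * q t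
  TT : ∀ t ∈ Ioo (-ε) ε, ‖y t‖ = 1
  NN : ∀ t ∈ Ioo (-ε) ε, ‖z t‖ = 1
  TN : ∀ t ∈ Ioo (-ε) ε, inner ℝ (y t) (z t) = 0

/-- The planar-type data in arclength. -/
structure Scd {ι : Type} [Fintype ι] (a : ι → Ek k) (δ : ℝ) (x y z : ℝ → Ek k) (q q1 : ℝ → ℝ) :
    Prop where
  hX : ∀ t ∈ Ioo (-δ) δ, HasDerivAt x (y t) t
  hT : ∀ t ∈ Ioo (-δ) δ, HasDerivAt y (∑ i, (dv a (x t) i)⁻¹ • a i -
    (∑ i, inner ℝ (a i) (y t) / dv a (x t) i) • y t - (2 * q t) • z t) t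
  hN : ∀ t ∈ Ioo (-δ) δ, HasDerivAt z (-(q t • y t)) t
  hq : ∀ t ∈ Ioo (-δ) δ, HasDerivAt q (q1 t) t
  hq1 : ∀ t ∈ Ioo (-δ) δ, HasDerivAt q1
    (q t * (q t ^ 2 + ∑ i, (inner ℝ (a i) (z t) / dv a (x t) i) ^ 2) -
      q1 t * ∑ i, inner ℝ (a i) (y t) / dv a (x t) i) t
  pos : ∀ t ∈ Ioo (-δ) δ, ∀ i, 0 < dv a (x t) i
  ray : ∀ t ∈ Ioo (-δ) δ, q t = (1 / 3) * ∑ i, inner ℝ (a i) (z t) / dv a (x t) i
  x0 : x 0 = 0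
  TT : ∀ t ∈ Ioo (-δ) δ, ‖y t‖ = 1
  NN : ∀ t ∈ Ioo (-δ) δ, ‖z t‖ = 1
  TN : ∀ t ∈ Ioo (-δ) δ, inner ℝ (y t) (z t) = 0

end Pool.Agent.Lib.MP_3248c9_gt.Pn
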