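import Pool.Agent.Lib.MP_3248c9_gt.Pn.Comm
import Pool.Agent.Lib.MP_3248c9_gt.Pn.Diag
import Pool.Agent.Lib.MP_3248c9_gt.Hy.Diag

/-!
# From the operator system to the affine functions

`x` from `exists_prim`, `e_i, a_i` from `simdiag` for `Z = Z1 ε y z` and `A 0` (`comm_Z`, `sym` at `0`). `D e_i = (1 - A0_x) e_i = d_i e_i`,
`d_i = 1 + <a_i, x>` (`mem_x`). On a small interval all `d_i > 0` (continuity, `d_i = 1` at `0`), and by `align`, for `c ∈ Z1`:
`A_c(t) e_i = -(<a_i, c>/d_i) e_i`. With `Hy.trace_diag` (file `Hy/Diag.lean`, the trace of an operator diagonal in an orthonormal basis):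
`tr A_z = - sum <a_i, z>/d_i`, `tr A_y = - sum <a_i, y>/d_i`, `tr (A_z A_z) = sum (<a_i, z>/d_i)^2` (`mem_y`, `mem_z`).
`hT`: let `v = sum d_i⁻¹ a_i - (sum <a_i, y>/d_i) y - 2 q z ∈ Z1`; show `HasDerivAt (fun s => <y s, c>) <v, c> t` for every `c`: write `c = c1 + c2`,
`c1 ∈ Z1`, `c2` orthogonal to `Z1`: for `c1` by `PStar.hT`, for `c2` all terms vanish (`<y s, c2> = 0` near `t`). Then `HasDerivAt y v t` (coordinates).
Twin: `StarSys.scd` in `Hy/Star.lean`.
-/

set_option autoImplicit false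

namespace Pool.Agent.Lib.MP_3248c9_gt.Pn

open Set Module Topology
open Pool.Agent.Lib.MP_3248c9_gt.Hy (tr)

variable {k : ℕ} {ε : ℝ} {A : ℝ → Ek k →L[ℝ] (Ek k →L[ℝ] Ek k)} {y z : ℝ → Ek k}
  {q q1 : ℝ → ℝ}

theorem PStar.scd (h : PStar ε A y z q q1) (hε : 0 < ε) :
    ∃ (a : Fin (finrank ℝ (Ek k)) → Ek k) (δ : ℝ) (x : ℝ → Ek k), 0 < δ ∧ Scd a δ x y z q q1 := by
  have h0 : (0 : ℝ) ∈ Ioo (-ε) ε := ⟨by linarith, hε⟩
  obtain ⟨x, x0, hx⟩ := h.exists_prim hε
  have hal := h.align hε x0 hx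
  obtain ⟨e, a, haZ, he⟩ := simdiag (Z1 ε y z) (A 0) (fun c _ w w' => h.sym 0 h0 c w w')
    (fun c hc c' hc' => h.comm_Z hε hc hc')
  -- the common eigenvectors
  have hD : ∀ t ∈ Ioo (-ε) ε, ∀ i, (1 - A 0 (x t) : Ek k →L[ℝ] Ek k) (e i) =
      dv a (x t) i • e i := by
    intro t ht i
    change e i - A 0 (x t) (e i) = _
    rw [he (x t) (h.mem_x hε x0 hx ht) i, dv]
    module
  have hAe : ∀ t ∈ Ioo (-ε) ε, ∀ c ∈ Z1 ε y z, ∀ i, 0 < dv a (x t) i →
      A t c (e i) = (-(inner ℝ (a i) c / dv a (x t) i)) • e i := by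
    intro t ht c hc i hi
    have h1 := congrArg (fun B : Ek k →L[ℝ] Ek k => B (e i)) (hal t ht c)
    change A t c ((1 - A 0 (x t) : Ek k →L[ℝ] Ek k) (e i)) = A 0 c (e i) at h1
    rw [hD t ht, map_smul, he c hc] at h1
    have h2 : A t c (e i) = (dv a (x t) i)⁻¹ • dv a (x t) i • A t c (e i) :=
      (inv_smul_smul₀ hi.ne' _).symm
    rw [h2, h1, smul_smul]
    congr 1
    ring
  -- positivity near zero
  have hpos : ∀ᶠ t in 𝓝 (0 : ℝ), ∀ i, 0 < dv a (x t) i := by
    rw [Filter.eventually_all]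
    intro i
    have h1 : ContinuousAt (fun t => dv a (x t) i) 0 := by
      unfold dv
      have hx' := (hx 0 h0).continuousAt
      exact continuousAt_const.add (continuousAt_const.inner hx')
    have h3 : (0 : ℝ) < dv a (x 0) i := by
      rw [x0, dv, inner_zero_right, add_zero]
      exact one_pos
    exact h1.eventually (lt_mem_nhds h3)
  obtain ⟨δ', hδ', hδpos⟩ := Metric.eventually_nhds_iff.1 hpos
  refine ⟨a, min δ' ε, x, lt_min hδ' hε, ?_⟩
  have hsub : ∀ t ∈ Ioo (-(min δ' ε)) (min δ' ε), t ∈ Ioo (-ε) ε := by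
    intro t ht
    have h1 := min_le_right δ' ε
    exact ⟨by linarith [ht.1], by linarith [ht.2]⟩
  have hp : ∀ t ∈ Ioo (-(min δ' ε)) (min δ' ε), ∀ i, 0 < dv a (x t) i := by
    intro t ht
    have h1 := min_le_left δ' ε
    apply hδpos
    rw [Real.dist_eq, sub_zero, abs_lt]
    exact ⟨by linarith [ht.1], by linarith [ht.2]⟩
  -- the traces
  have htr : ∀ t ∈ Ioo (-(min δ' ε)) (min δ' ε), ∀ c ∈ Z1 ε y z,
      tr (A t c) = -∑ i, inner ℝ (a i) c / dv a (x t) i := by
    intro t ht c hc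
    rw [← Finset.sum_neg_distrib]
    exact Hy.trace_diag e (A t c) _ fun i => hAe t (hsub t ht) c hc i (hp t ht i)
  refine ⟨fun t ht => hx t (hsub t ht), fun t ht => ?_, fun t ht => h.hN t (hsub t ht),
    fun t ht => h.hq t (hsub t ht), fun t ht => ?_, hp, fun t ht => ?_, x0,
    fun t ht => h.TT t (hsub t ht), fun t ht => h.NN t (hsub t ht), fun t ht => h.TN t (hsub t ht)⟩
  · obtain ⟨v, hv⟩ : ∃ v, v = ∑ i, (dv a (x t) i)⁻¹ • a i -
      (∑ i, inner ℝ (a i) (y t) / dv a (x t) i) • y t - (2 * q t) • z t := ⟨_, rfl⟩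
    rw [← hv]
    have ht' := hsub t ht
    have hvZ : v ∈ Z1 ε y z := by
      rw [hv]
      exact Submodule.sub_mem _ (Submodule.sub_mem _
        (Submodule.sum_mem _ fun i _ => Submodule.smul_mem _ _ (haZ i))
        (Submodule.smul_mem _ _ (mem_y ht'))) (Submodule.smul_mem _ _ (h.mem_z hε ht'))
    have hin : ∀ w ∈ Z1 ε y z, ∀ c : Ek k,
        inner ℝ w c = inner ℝ w ((Z1 ε y z).starProjection c) := by
      intro w hw c
      rw [← Submodule.inner_starProjection_left_eq_right,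
        Submodule.starProjection_eq_self_iff.2 hw]
    have hZ : ∀ c ∈ Z1 ε y z, HasDerivAt (fun s => (inner ℝ (y s) c : ℝ)) (inner ℝ v c) t := by
      intro c hc
      refine (h.hT t ht' c).congr_deriv ?_
      rw [htr t ht c hc, htr t ht (y t) (mem_y ht'), hv, inner_sub_left, inner_sub_left, sum_inner,
        real_inner_smul_left, real_inner_smul_left]
      have h1 : ∑ i, inner ℝ ((dv a (x t) i)⁻¹ • a i) c = ∑ i, inner ℝ (a i) c / dv a (x t) i := by
        refine Finset.sum_congr rfl fun i _ => ?_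
        rw [real_inner_smul_left]
        ring
      rw [h1]
      ring
    have hall : ∀ c : Ek k, HasDerivAt (fun s => (inner ℝ (y s) c : ℝ)) (inner ℝ v c) t := by
      intro c
      rw [hin v hvZ c]
      refine (hZ _ (Submodule.starProjection_apply_mem _ c)).congr_of_eventuallyEq ?_
      filter_upwards [Ioo_mem_nhds ht'.1 ht'.2] with s hs
      exact hin (y s) (mem_y hs) c
    have h2 : HasDerivAt (fun s => ∑ j, (inner ℝ (y s) (e j) : ℝ) • e j)
        (∑ j, (inner ℝ v (e j) : ℝ) • e j) t :=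
      HasDerivAt.fun_sum fun j _ => (hall (e j)).smul_const (e j)
    have h3 : ∀ w : Ek k, ∑ j, (inner ℝ w (e j) : ℝ) • e j = w := by
      intro w
      conv_rhs => rw [← e.sum_repr' w]
      refine Finset.sum_congr rfl fun j _ => ?_
      rw [real_inner_comm]
    simp only [h3] at h2
    exact h2
  · have ht' := hsub t ht
    have h1 := h.hq1 t ht'
    have h2 : tr (A t (z t) * A t (z t)) = ∑ i, (inner ℝ (a i) (z t) / dv a (x t) i) ^ 2 := by
      refine Hy.trace_diag e (A t (z t) * A t (z t)) _ fun i => ?_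
      change A t (z t) (A t (z t) (e i)) = _
      rw [hAe t ht' _ (h.mem_z hε ht') i (hp t ht i), map_smul,
        hAe t ht' _ (h.mem_z hε ht') i (hp t ht i), smul_smul]
      congr 1
      ring
    rw [h2, htr t ht (y t) (mem_y ht')] at h1
    refine h1.congr_deriv ?_
    ring
  · have h1 := h.trz t (hsub t ht)
    rw [htr t ht (z t) (h.mem_z hε (hsub t ht))] at h1
    linarith

end Pool.Agent.Lib.MP_3248c9_gt.Pn
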