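import Pool.Agent.Lib.MP_3248c9_gt.Pn.Der
import Pool.Agent.Lib.MP_3248c9_gt.Hy.Noe

/-!
# A solution of the system: trajectory of `VF`, orthonormality

* `Sol.traj`: the coordinates of `pt (x t) (y t) (z t)` have the derivatives `eval (pt ..) (VF (X p))`
  (`VF_X0, VF_X1, VF_X2`, `eval_..`; `HasDerivAt` of a coordinate of a curve in `EuclideanSpace`:
  compose with `EuclideanSpace.proj j`; `Kv` at `(x, z)`).
* `Sol.deriv_eval`: `Hy.hasDerivAt_eval` with `r = 1`.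
* `Sol.orth`: `u1 = |y|^2 - 1`, `u2 = |z|^2 - 1`, `u3 = <y, z>` satisfy the linear system
  `u1' = -2 E u1 - 4 K u3`, `u2' = -2 K u3`, `u3' = -E u3 - 2 K u2 - K u1` (`E = <G, y>`, `<G, z> = 3 K`), with zero initial
  values; so they vanish (`norm_le_gronwallBound_of_norm_deriv_right_le` on `Fin 3 → ℝ` or `ℝ × ℝ × ℝ`, the coefficients are
  continuous, hence bounded on `[0, T]`).
* `Sol.pos`: `d_i' = <a_i, P y> = d_i * (c_i <a_i, y>)` (`P = d_i c_i`), `Hy.pos_of_linear` (file `Hy/Sys.lean`).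
-/

set_option autoImplicit false

namespace Pool.Agent.Lib.MP_3248c9_gt.Pn

open Finset MvPolynomial

variable {ι : Type} [Fintype ι] [DecidableEq ι] {k : ℕ} (a : ι → Ek k)

/-- A solution of the system on the time set `I`. -/
structure Sol (I : Set ℝ) (x y z : ℝ → Ek k) : Prop where
  hX : ∀ t ∈ I, HasDerivAt x (pv a (x t) • y t) t
  hT : ∀ t ∈ I, HasDerivAt y (Gv a (x t) - (inner ℝ (Gv a (x t)) (y t) : ℝ) • y t -
    (2 * Kv a (x t) (z t)) • z t) t
  hN : ∀ t ∈ I, HasDerivAt z (-(Kv a (x t) (z t) • y t)) t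
  x0 : x 0 = 0
  yy : ‖y 0‖ = 1
  zz : ‖z 0‖ = 1
  yz : inner ℝ (y 0) (z 0) = 0

variable {a} {T : ℝ} {x y z : ℝ → Ek k}

theorem Sol.traj {I : Set ℝ} (h : Sol a I x y z) {t : ℝ} (ht : t ∈ I) (p : Fin 3 × Fin k) :
    HasDerivAt (fun s => pt (x s) (y s) (z s) p)
      (eval (pt (x t) (y t) (z t)) (VF a (X p))) t := by
  obtain ⟨i, j⟩ := p
  fin_cases i
  · have h1 := (EuclideanSpace.proj (𝕜 := ℝ) j).hasFDerivAt.comp_hasDerivAt t (h.hX t ht)
    refine HasDerivAt.congr_deriv (f := fun s => pt (x s) (y s) (z s) (0, j)) h1 ?_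
    change (pv a (x t) • y t) j = eval (pt (x t) (y t) (z t)) (VF a (X (0, j)))
    rw [VF_X0, map_mul, eval_PP, eval_X]
    rfl
  · have h1 := (EuclideanSpace.proj (𝕜 := ℝ) j).hasFDerivAt.comp_hasDerivAt t (h.hT t ht)
    refine HasDerivAt.congr_deriv (f := fun s => pt (x s) (y s) (z s) (1, j)) h1 ?_
    change (Gv a (x t) - (inner ℝ (Gv a (x t)) (y t) : ℝ) • y t - (2 * Kv a (x t) (z t)) • z t) j
      = eval (pt (x t) (y t) (z t)) (VF a (X (1, j)))
    rw [VF_X1, map_sub, map_sub, map_mul, map_mul, map_mul, eval_GP, eval_EP, eval_KP, eval_X,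
      eval_X, map_ofNat]
    rfl
  · have h1 := (EuclideanSpace.proj (𝕜 := ℝ) j).hasFDerivAt.comp_hasDerivAt t (h.hN t ht)
    refine HasDerivAt.congr_deriv (f := fun s => pt (x s) (y s) (z s) (2, j)) h1 ?_
    change (-(Kv a (x t) (z t) • y t)) j = eval (pt (x t) (y t) (z t)) (VF a (X (2, j)))
    rw [VF_X2, map_neg, map_mul, eval_KP, eval_X]
    rfl

theorem Sol.deriv_eval {I : Set ℝ} (h : Sol a I x y z) {t : ℝ} (ht : t ∈ I) (Q : Rk k) :
    HasDerivAt (fun s => eval (pt (x s) (y s) (z s)) Q)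
      (eval (pt (x t) (y t) (z t)) (VF a Q)) t := by
  have h1 := Hy.hasDerivAt_eval (VF a) (fun s => pt (x s) (y s) (z s)) t 1
    (fun p => by rw [one_mul]; exact h.traj ht p) Q
  rwa [one_mul] at h1

private theorem quad_bound (e c u v w B : ℝ) (hB : |e| + |c| ≤ B) :
    |2 * u * (-2 * e * u - 4 * c * w) + 2 * v * (-2 * c * w) +
      2 * w * (-e * w - 2 * c * v - c * u)| ≤ 9 * B * (u ^ 2 + v ^ 2 + w ^ 2) := by
  have h1 : 2 * u * (-2 * e * u - 4 * c * w) + 2 * v * (-2 * c * w) +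
      2 * w * (-e * w - 2 * c * v - c * u)
      = -(e * (4 * u ^ 2 + 2 * w ^ 2)) + -(c * (10 * u * w + 8 * v * w)) := by ring
  have hS : 0 ≤ u ^ 2 + v ^ 2 + w ^ 2 := by positivity
  have h2 : |e * (4 * u ^ 2 + 2 * w ^ 2)| ≤ |e| * (9 * (u ^ 2 + v ^ 2 + w ^ 2)) := by
    rw [abs_mul]
    refine mul_le_mul_of_nonneg_left ?_ (abs_nonneg _)
    rw [abs_of_nonneg (by positivity)]
    nlinarith [sq_nonneg u, sq_nonneg v, sq_nonneg w]
  have h3 : |c * (10 * u * w + 8 * v * w)| ≤ |c| * (9 * (u ^ 2 + v ^ 2 + w ^ 2)) := by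
    rw [abs_mul]
    refine mul_le_mul_of_nonneg_left ?_ (abs_nonneg _)
    rw [abs_le]
    constructor
    · nlinarith [sq_nonneg (u + w), sq_nonneg (v + w), sq_nonneg u, sq_nonneg v, sq_nonneg w]
    · nlinarith [sq_nonneg (u - w), sq_nonneg (v - w), sq_nonneg u, sq_nonneg v, sq_nonneg w]
  rw [h1]
  refine (abs_add_le _ _).trans ?_
  rw [abs_neg, abs_neg]
  nlinarith

theorem Sol.orth (h : Sol a (Set.Icc 0 T) x y z) {t : ℝ} (ht : t ∈ Set.Icc (0 : ℝ) T) :
    ‖y t‖ = 1 ∧ ‖z t‖ = 1 ∧ inner ℝ (y t) (z t) = 0 := by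
  -- the coefficients
  obtain ⟨e, he⟩ : ∃ e : ℝ → ℝ, ∀ s, e s = inner ℝ (Gv a (x s)) (y s) := ⟨_, fun _ => rfl⟩
  obtain ⟨c, hc⟩ : ∃ c : ℝ → ℝ, ∀ s, c s = Kv a (x s) (z s) := ⟨_, fun _ => rfl⟩
  have hec : ContinuousOn e (Set.Icc 0 T) := by
    have h1 : e = fun s => eval (pt (x s) (y s) (z s)) (EP a) := by
      funext s
      rw [he, eval_EP]
    rw [h1]
    exact fun s hs => (h.deriv_eval hs _).continuousAt.continuousWithinAt
  have hcc : ContinuousOn c (Set.Icc 0 T) := by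
    have h1 : c = fun s => eval (pt (x s) (y s) (z s)) (KP a) := by
      funext s
      rw [hc, eval_KP]
    rw [h1]
    exact fun s hs => (h.deriv_eval hs _).continuousAt.continuousWithinAt
  obtain ⟨B, hB⟩ : ∃ B : ℝ, ∀ s ∈ Set.Icc (0 : ℝ) T, |e s| + |c s| ≤ B := by
    obtain ⟨B, hB⟩ := isCompact_Icc.exists_bound_of_continuousOn (hec.abs.add hcc.abs)
    exact ⟨B, fun s hs => (le_abs_self _).trans (hB s hs)⟩
  -- the three functions
  obtain ⟨u, hu⟩ : ∃ u : ℝ → ℝ, ∀ s, u s = inner ℝ (y s) (y s) - 1 := ⟨_, fun _ => rfl⟩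
  obtain ⟨v, hv⟩ : ∃ v : ℝ → ℝ, ∀ s, v s = inner ℝ (z s) (z s) - 1 := ⟨_, fun _ => rfl⟩
  obtain ⟨w, hw⟩ : ∃ w : ℝ → ℝ, ∀ s, w s = inner ℝ (y s) (z s) := ⟨_, fun _ => rfl⟩
  have hGz : ∀ s, inner ℝ (Gv a (x s)) (z s) = 3 * c s := by
    intro s
    rw [hc]
    unfold Kv
    ring
  have hu' : ∀ s ∈ Set.Icc (0 : ℝ) T, HasDerivAt u (-2 * e s * u s - 4 * c s * w s) s := by
    intro s hs
    have h1 := ((h.hT s hs).inner ℝ (h.hT s hs)).sub_const 1
    have h2 : u = fun s => inner ℝ (y s) (y s) - 1 := funext hu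
    rw [h2]
    refine h1.congr_deriv ?_
    simp only [inner_sub_left, inner_sub_right, inner_smul_left, inner_smul_right,
      RCLike.conj_to_real]
    rw [real_inner_comm (Gv a (x s)) (y s), real_inner_comm (y s) (z s), ← he, ← hc, ← hw]
    have h3 : inner ℝ (y s) (y s) = u s + 1 := by rw [hu]; ring
    rw [h3]
    ring
  have hv' : ∀ s ∈ Set.Icc (0 : ℝ) T, HasDerivAt v (-2 * c s * w s) s := by
    intro s hs
    have h1 := ((h.hN s hs).inner ℝ (h.hN s hs)).sub_const 1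
    have h2 : v = fun s => inner ℝ (z s) (z s) - 1 := funext hv
    rw [h2]
    refine h1.congr_deriv ?_
    simp only [inner_neg_left, inner_neg_right, inner_smul_left, inner_smul_right,
      RCLike.conj_to_real]
    rw [real_inner_comm (y s) (z s), ← hc, ← hw]
    ring
  have hw' : ∀ s ∈ Set.Icc (0 : ℝ) T,
      HasDerivAt w (-e s * w s - 2 * c s * v s - c s * u s) s := by
    intro s hs
    have h1 := (h.hT s hs).inner ℝ (h.hN s hs)
    have h2 : w = fun s => inner ℝ (y s) (z s) := funext hw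
    rw [h2]
    refine h1.congr_deriv ?_
    simp only [inner_sub_left, inner_neg_right, inner_smul_left, inner_smul_right,
      RCLike.conj_to_real]
    rw [← he, ← hc, ← hw, hGz]
    have h3 : inner ℝ (y s) (y s) = u s + 1 := by rw [hu]; ring
    have h4 : inner ℝ (z s) (z s) = v s + 1 := by rw [hv]; ring
    rw [h3, h4]
    ring
  have hf : ∀ s ∈ Set.Icc (0 : ℝ) T, HasDerivAt (fun s => u s ^ 2 + v s ^ 2 + w s ^ 2)
      (2 * u s * (-2 * e s * u s - 4 * c s * w s) + 2 * v s * (-2 * c s * w s) +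
        2 * w s * (-e s * w s - 2 * c s * v s - c s * u s)) s := by
    intro s hs
    have h1 := (((hu' s hs).pow 2).add ((hv' s hs).pow 2)).add ((hw' s hs).pow 2)
    refine h1.congr_deriv ?_
    push_cast
    ring
  have h1 := norm_le_gronwallBound_of_norm_deriv_right_le
    (f := fun s => u s ^ 2 + v s ^ 2 + w s ^ 2) (δ := 0) (K := 9 * B) (ε := 0) (a := 0) (b := T)
    (fun s hs => (hf s hs).continuousAt.continuousWithinAt)
    (fun s hs => (hf s (Set.Ico_subset_Icc_self hs)).hasDerivWithinAt)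
    (by
      rw [norm_le_zero_iff, hu, hv, hw, real_inner_self_eq_norm_sq, real_inner_self_eq_norm_sq,
        h.yy, h.zz, h.yz]
      norm_num)
    (fun s hs => by
      rw [add_zero, Real.norm_eq_abs, Real.norm_eq_abs,
        abs_of_nonneg (by positivity : (0 : ℝ) ≤ u s ^ 2 + v s ^ 2 + w s ^ 2)]
      exact quad_bound _ _ _ _ _ _ (hB s (Set.Ico_subset_Icc_self hs))) t ht
  rw [gronwallBound_ε0_δ0, norm_le_zero_iff] at h1
  have hu0 : u t = 0 := by nlinarith [sq_nonneg (u t), sq_nonneg (v t), sq_nonneg (w t)]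
  have hv0 : v t = 0 := by nlinarith [sq_nonneg (u t), sq_nonneg (v t), sq_nonneg (w t)]
  have hw0 : w t = 0 := by nlinarith [sq_nonneg (u t), sq_nonneg (v t), sq_nonneg (w t)]
  rw [hu, real_inner_self_eq_norm_sq] at hu0
  rw [hv, real_inner_self_eq_norm_sq] at hv0
  rw [hw] at hw0
  refine ⟨?_, ?_, hw0⟩
  · have := norm_nonneg (y t)
    nlinarith
  · have := norm_nonneg (z t)
    nlinarith

end Pool.Agent.Lib.MP_3248c9_gt.Pn
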