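import Pool.Agent.Lib.MP_3248c9_gt.Pn.Sol
import Pool.Agent.Lib.MP_3248c9_gt.Hy.Sys

/-!
# Positivity of the `d_i` along a solution, and the equation `F = 0`

* `Sol.pos`: `d_i' = <a_i, P y> = d_i * (c_i <a_i, y>)` (`P = d_i c_i`), `Hy.pos_of_linear`; `d_i (0) = 1`.
* `Sol.F_zero`: `Hy.vanish_of_initial` with `V = VF a`.
-/

set_option autoImplicit false

namespace Pool.Agent.Lib.MP_3248c9_gt.Pn

open Finset MvPolynomial

variable {ι : Type} [Fintype ι] [DecidableEq ι] {k : ℕ} {a : ι → Ek k} {T : ℝ} {x y z : ℝ → Ek k}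

theorem Sol.pos (h : Sol a (Set.Icc 0 T) x y z) {t : ℝ} (ht : t ∈ Set.Icc (0 : ℝ) T) (i : ι) :
    0 < dv a (x t) i := by
  have hT0 : (0 : ℝ) ∈ Set.Icc (0 : ℝ) T := ⟨le_rfl, ht.1.trans ht.2⟩
  have hx : ContinuousOn x (Set.Icc 0 T) := fun s hs =>
    (h.hX s hs).continuousAt.continuousWithinAt
  have hy : ContinuousOn y (Set.Icc 0 T) := fun s hs =>
    (h.hT s hs).continuousAt.continuousWithinAt
  refine Hy.pos_of_linear (fun s => dv a (x s) i)
    (fun s => cv a (x s) i * inner ℝ (a i) (y s)) T ?_ ?_ ?_ t ht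
  · intro s hs
    have h1 : HasDerivAt (fun s => (inner ℝ (a i) (x s) : ℝ))
        (inner ℝ (a i) (pv a (x s) • y s)) s := by
      have h2 := (hasDerivAt_const s (a i)).inner ℝ (h.hX s hs)
      rwa [inner_zero_left, add_zero] at h2
    have h3 : pv a (x s) = dv a (x s) i * cv a (x s) i :=
      (Finset.mul_prod_erase univ (fun j => dv a (x s) j) (Finset.mem_univ i)).symm
    have h4 := h1.const_add 1
    have h5 : (inner ℝ (a i) (pv a (x s) • y s) : ℝ) =
        dv a (x s) i * (cv a (x s) i * inner ℝ (a i) (y s)) := by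
      rw [real_inner_smul_right, h3]
      ring
    rw [h5] at h4
    exact h4
  · refine ContinuousOn.mul ?_ (continuousOn_const.inner hy)
    exact continuousOn_finsetProd _ fun j _ =>
      continuousOn_const.add (continuousOn_const.inner hx)
  · rw [dv, h.x0, inner_zero_right, add_zero]
    exact one_pos

theorem Sol.F_zero (h : Sol a (Set.Icc 0 T) x y z)
    (hF : ∀ j : ℕ, eval (pt 0 (y 0) (z 0)) ((VF a)^[j] (FP a)) = 0) {t : ℝ}
    (ht : t ∈ Set.Icc (0 : ℝ) T) : eval (pt (x t) (y t) (z t)) (FP a) = 0 := by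
  refine Hy.vanish_of_initial (VF a) (FP a) (fun t => pt (x t) (y t) (z t)) T
    (fun s hs p => h.traj hs p) (fun j => ?_) t ht
  rw [h.x0]
  exact hF j

end Pool.Agent.Lib.MP_3248c9_gt.Pn
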