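import Pool.Agent.Lib.MP_3248c9_gt.Pn.Zero

/-!
# Two affine functions vanish at the end point: preparations

`r t = |x t - e|`.
* `P_le`: `P (x t) <= C r^2` for all `t >= 0`: the two factors `d_i, d_j` are `<= |a_i| r`, `<= |a_j| r` (`d_le`), the others are bounded:
  `x` converges, so it is bounded on `[0, oo)` (continuous + convergent; or `Ray.bdd` for every `T`: `|x t - x 0| <= 2/q 0`).
* `inv_deriv`: for `0 <= s <= t` : `1/r t <= 1/r s + integral`; here in the form needed: the function `t ↦ (r t)⁻¹` has the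
  derivative `D t` with `D t <= P (x t) / r^2` (`r = sqrt (<x - e, x - e>)`, `r' = <x - e, P y>/r`, `|r'| <= P`).
* `m_bdd`: `m t <= 2 C` for all `t >= 0` where `P <= C r^2`. Otherwise `m t0 > 2 C` for some `t0`, so `m >= M := m t0 > 2 C` on `[t0, oo)`,
  `q t >= q t0 + M (t - t0)`, while `q t <= 2/r t <= 2/r t0 + 2 C (t - t0)` (from `D <= C`): contradiction for large `t`.
-/

set_option autoImplicit false

namespace Pool.Agent.Lib.MP_3248c9_gt.Pn

open Finset Filter Topology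

variable {ι : Type} [Fintype ι] [DecidableEq ι] {k : ℕ} {a : ι → Ek k} {x y z : ℝ → Ek k}
  {q m : ℝ → ℝ} {e : Ek k}

theorem TwoA_mono {f f' : ℝ → ℝ} {t1 : ℝ} (hf : ∀ t, t1 ≤ t → HasDerivAt f (f' t) t)
    (h0 : ∀ t, t1 ≤ t → 0 ≤ f' t) {r t : ℝ} (hr : t1 ≤ r) (hrt : r ≤ t) : f r ≤ f t := by
  have h1 : MonotoneOn f (Set.Ici t1) := by
    refine monotoneOn_of_deriv_nonneg (convex_Ici t1)
      (fun z hz => (hf z hz).continuousAt.continuousWithinAt) ?_ ?_
    · intro z hz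
      rw [interior_Ici] at hz
      exact (hf z (le_of_lt hz)).differentiableAt.differentiableWithinAt
    · intro z hz
      rw [interior_Ici] at hz
      rw [(hf z (le_of_lt hz)).deriv]
      exact h0 z (le_of_lt hz)
  exact h1 hr (hr.trans hrt) hrt

theorem Ray.P_le (h : Ray a (Set.Ici 0) x y z q m) (he : EndPt x z q e) {i j : ι} (hij : i ≠ j)
    (hi : dv a e i = 0) (hj : dv a e j = 0) :
    ∃ C : ℝ, 0 < C ∧ ∀ t, 0 ≤ t → pv a (x t) ≤ C * ‖x t - e‖ ^ 2 := by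
  have hk0 := h.k0
  set B : ι → ℝ := fun l => 1 + ‖a l‖ * (‖x 0‖ + 2 / q 0) with hB
  have hBpos : ∀ l, 0 < B l := fun l => by simp only [hB]; positivity
  have hbd : ∀ t, 0 ≤ t → ∀ l, dv a (x t) l ≤ B l := by
    intro t ht l
    have h1 : ‖x t - x 0‖ ≤ 2 / q 0 :=
      (h.subset (I' := Set.Icc 0 t) (fun s hs => hs.1)).bdd ⟨ht, le_rfl⟩
    have h2 : ‖x t‖ ≤ ‖x 0‖ + 2 / q 0 := by
      have h3 : x t = x 0 + (x t - x 0) := by abel
      calc ‖x t‖ = ‖x 0 + (x t - x 0)‖ := by rw [← h3]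
        _ ≤ ‖x 0‖ + ‖x t - x 0‖ := norm_add_le _ _
        _ ≤ _ := by linarith
    have h4 : inner ℝ (a l) (x t) ≤ ‖a l‖ * ‖x t‖ := real_inner_le_norm _ _
    have h5 : ‖a l‖ * ‖x t‖ ≤ ‖a l‖ * (‖x 0‖ + 2 / q 0) :=
      mul_le_mul_of_nonneg_left h2 (norm_nonneg _)
    simp only [hB, dv]
    linarith
  refine ⟨‖a i‖ * ‖a j‖ * (∏ l ∈ (univ.erase i).erase j, B l) + 1, ?_, ?_⟩
  · have : 0 ≤ ∏ l ∈ (univ.erase i).erase j, B l := Finset.prod_nonneg fun l _ => (hBpos l).le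
    positivity
  · intro t ht
    have hj' : j ∈ univ.erase i := Finset.mem_erase.2 ⟨hij.symm, Finset.mem_univ j⟩
    have e1 : pv a (x t) = dv a (x t) i * (dv a (x t) j *
        ∏ l ∈ (univ.erase i).erase j, dv a (x t) l) := by
      rw [pv, Finset.mul_prod_erase _ _ hj', Finset.mul_prod_erase _ _ (Finset.mem_univ i)]
    have e2 : ∏ l ∈ (univ.erase i).erase j, dv a (x t) l ≤
        ∏ l ∈ (univ.erase i).erase j, B l :=
      Finset.prod_le_prod (fun l _ => (h.pos t ht l).le) (fun l _ => hbd t ht l)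
    have e3 := h.d_le hi (t := t)
    have e4 := h.d_le hj (t := t)
    have p1 := (h.pos t ht i).le
    have p2 := (h.pos t ht j).le
    have p3 : 0 ≤ ∏ l ∈ (univ.erase i).erase j, dv a (x t) l :=
      Finset.prod_nonneg fun l _ => (h.pos t ht l).le
    have e5 : dv a (x t) j * ∏ l ∈ (univ.erase i).erase j, dv a (x t) l ≤
        (‖a j‖ * ‖x t - e‖) * ∏ l ∈ (univ.erase i).erase j, B l :=
      mul_le_mul e4 e2 p3 (by positivity)
    have e6 : dv a (x t) i * (dv a (x t) j * ∏ l ∈ (univ.erase i).erase j, dv a (x t) l) ≤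
        (‖a i‖ * ‖x t - e‖) * ((‖a j‖ * ‖x t - e‖) * ∏ l ∈ (univ.erase i).erase j, B l) :=
      mul_le_mul e3 e5 (mul_nonneg p2 p3) (by positivity)
    rw [e1]
    refine e6.trans ?_
    have : 0 ≤ ‖x t - e‖ ^ 2 := by positivity
    nlinarith

theorem Ray.inv_deriv (h : Ray a (Set.Ici 0) x y z q m) {i : ι} (hi : dv a e i = 0)
    {t : ℝ} (ht : 0 ≤ t) :
    ∃ D : ℝ, HasDerivAt (fun s => ‖x s - e‖⁻¹) D t ∧ D ≤ pv a (x t) / ‖x t - e‖ ^ 2 := by
  have hr := h.dist_pos hi ht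
  have h1 : HasDerivAt (fun s => ‖x s - e‖ ^ 2) (2 * inner ℝ (x t - e) (pv a (x t) • y t)) t :=
    ((h.hX t ht).sub_const e).norm_sq
  have h2 := (h1.sqrt (by positivity)).inv (by rw [Real.sqrt_sq (norm_nonneg _)]; positivity)
  have e1 : (fun s => √(‖x s - e‖ ^ 2))⁻¹ = fun s => ‖x s - e‖⁻¹ := by
    funext s
    rw [Pi.inv_apply, Real.sqrt_sq (norm_nonneg _)]
  rw [e1] at h2
  refine ⟨_, h2, ?_⟩
  rw [Real.sqrt_sq (norm_nonneg _)]
  have hP : 0 ≤ pv a (x t) := Finset.prod_nonneg fun l _ => (h.pos t ht l).le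
  have h3 : -(pv a (x t) * ‖x t - e‖) ≤ inner ℝ (x t - e) (pv a (x t) • y t) := by
    rw [inner_smul_right]
    have h4 : |inner ℝ (x t - e) (y t)| ≤ ‖x t - e‖ * ‖y t‖ := abs_real_inner_le_norm _ _
    rw [h.TT t ht, mul_one] at h4
    have h5 := (abs_le.mp h4).1
    nlinarith
  apply div_le_div_of_nonneg_right _ (by positivity)
  rw [neg_le, le_div_iff₀ (by positivity)]
  nlinarith

/-- `1/r` grows at most linearly. -/
theorem Ray.inv_le (h : Ray a (Set.Ici 0) x y z q m) {i : ι} (hi : dv a e i = 0) {C : ℝ}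
    (hC : ∀ t, 0 ≤ t → pv a (x t) ≤ C * ‖x t - e‖ ^ 2) {s t : ℝ} (hs : 0 ≤ s) (hst : s ≤ t) :
    ‖x t - e‖⁻¹ ≤ ‖x s - e‖⁻¹ + C * (t - s) := by
  have hD : ∀ u, 0 ≤ u → ∃ D : ℝ, HasDerivAt (fun s => ‖x s - e‖⁻¹) D u ∧
      D ≤ pv a (x u) / ‖x u - e‖ ^ 2 := fun u hu => h.inv_deriv hi hu
  have hD' : ∀ u, ∃ D : ℝ, 0 ≤ u → HasDerivAt (fun s => ‖x s - e‖⁻¹) D u ∧
      D ≤ pv a (x u) / ‖x u - e‖ ^ 2 := by
    intro u
    by_cases hu : 0 ≤ u
    · obtain ⟨D, hD1⟩ := hD u hu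
      exact ⟨D, fun _ => hD1⟩
    · exact ⟨0, fun h => absurd h hu⟩
  choose D hD using hD'
  have hmono : C * s - ‖x s - e‖⁻¹ ≤ C * t - ‖x t - e‖⁻¹ := by
    refine TwoA_mono (f := fun u => C * u - ‖x u - e‖⁻¹) (f' := fun u => C * 1 - D u) (t1 := 0)
      ?_ ?_ hs hst
    · intro u hu
      exact ((hasDerivAt_id u).const_mul C).sub (hD u hu).1
    · intro u hu
      have h1 := (hD u hu).2
      have h2 := h.dist_pos hi hu
      have h3 : pv a (x u) / ‖x u - e‖ ^ 2 ≤ C := by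
        rw [div_le_iff₀ (by positivity)]
        exact hC u hu
      simp only [mul_one]
      linarith
  linarith

theorem Ray.m_bdd (h : Ray a (Set.Ici 0) x y z q m) (he : EndPt x z q e) {i : ι}
    (hi : dv a e i = 0) {C : ℝ} (hC0 : 0 < C)
    (hC : ∀ t, 0 ≤ t → pv a (x t) ≤ C * ‖x t - e‖ ^ 2) {t : ℝ} (ht : 0 ≤ t) : m t ≤ 2 * C := by
  by_contra hcon
  push Not at hcon
  have hq : ∀ u, t ≤ u → q t + m t * (u - t) ≤ q u := by
    intro u hu
    have := TwoA_mono (f := fun s => q s - m t * s) (f' := fun s => m s - m t * 1) (t1 := t)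
      (fun s hs => (h.hk s (ht.trans hs)).sub ((hasDerivAt_id s).const_mul (m t)))
      (fun s hs => by
        have := h.m_le ht hs
        simp only [mul_one]
        linarith) le_rfl hu
    linarith
  have hr : ∀ u, t ≤ u → q u ≤ 2 * (‖x t - e‖⁻¹ + C * (u - t)) := by
    intro u hu
    have h1 := h.q_le he (ht.trans hu)
    have h2 := h.dist_pos hi (ht.trans hu)
    have h3 := h.inv_le hi hC ht hu
    have h4 : q u ≤ 2 * ‖x u - e‖⁻¹ := by
      rw [← div_eq_mul_inv, le_div_iff₀ h2]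
      exact h1
    linarith
  have hd : 0 < m t - 2 * C := by linarith
  set R : ℝ := 2 * ‖x t - e‖⁻¹ - q t with hR
  have h5 := hq (t + (|R| + 1) / (m t - 2 * C)) (by
    have : 0 ≤ (|R| + 1) / (m t - 2 * C) := by positivity
    linarith)
  have h6 := hr (t + (|R| + 1) / (m t - 2 * C)) (by
    have : 0 ≤ (|R| + 1) / (m t - 2 * C) := by positivity
    linarith)
  rw [add_sub_cancel_left] at h5 h6
  have h7 : (m t - 2 * C) * ((|R| + 1) / (m t - 2 * C)) = |R| + 1 := by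
    field_simp
  have h8 := le_abs_self R
  nlinarith

end Pool.Agent.Lib.MP_3248c9_gt.Pn
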