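import Pool.Agent.Lib.MP_3248c9_gt.Pn.Lim

/-!
# Some `d_i` vanishes at the end point

* `d_tendsto`, `d_nonneg`: limits of positive numbers.
* `exists_zero`: otherwise all `d_i(e) > 0`, then `q = (1/3) sum <a_i, z>/d_i` is bounded for large `t` (`|<a_i, z>| <= |a_i|`), but `q`
  tends to infinity.
* `dist_pos`: `d_i (x t) > 0 = d_i e`.
* `d_le`: `d_i (x t) = <a_i, x t - e> <= |a_i| |x t - e|` when `d_i e = 0`.
-/

set_option autoImplicit false

namespace Pool.Agent.Lib.MP_3248c9_gt.Pn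

open Finset Filter Topology

variable {ι : Type} [Fintype ι] [DecidableEq ι] {k : ℕ} {a : ι → Ek k} {x y z : ℝ → Ek k}
  {q m : ℝ → ℝ} {e : Ek k}

theorem Ray.d_tendsto (h : Ray a (Set.Ici 0) x y z q m) (he : EndPt x z q e) (i : ι) :
    Tendsto (fun t => dv a (x t) i) atTop (𝓝 (dv a e i)) := by
  have _ := h
  exact (tendsto_const_nhds.inner he.tx).const_add 1

theorem Ray.d_nonneg (h : Ray a (Set.Ici 0) x y z q m) (he : EndPt x z q e) (i : ι) :
    0 ≤ dv a e i :=
  ge_of_tendsto (h.d_tendsto he i)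
    ((eventually_ge_atTop 0).mono fun t ht => (h.pos t ht i).le)

theorem Ray.exists_zero (h : Ray a (Set.Ici 0) x y z q m) (he : EndPt x z q e) :
    ∃ i, dv a e i = 0 := by
  by_contra hno
  push Not at hno
  have h1 : Tendsto (fun t => (1 / 3 : ℝ) * ∑ i, ‖a i‖ / dv a (x t) i) atTop
      (𝓝 ((1 / 3 : ℝ) * ∑ i, ‖a i‖ / dv a e i)) :=
    (tendsto_finsetSum _ fun i _ =>
      tendsto_const_nhds.div (h.d_tendsto he i) (hno i)).const_mul _
  have h2 : Tendsto (fun t => (1 / 3 : ℝ) * ∑ i, ‖a i‖ / dv a (x t) i) atTop atTop := by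
    refine tendsto_atTop_mono' atTop ?_ h.k_tendsto
    filter_upwards [eventually_ge_atTop 0] with t ht
    rw [h.ray t ht]
    refine mul_le_mul_of_nonneg_left (Finset.sum_le_sum fun i _ => ?_) (by norm_num)
    refine div_le_div_of_nonneg_right ?_ (h.pos t ht i).le
    have h3 := real_inner_le_norm (a i) (z t)
    rwa [h.NN t ht, mul_one] at h3
  exact not_tendsto_nhds_of_tendsto_atTop h2 _ h1

/-- `d_i (x t) = <a_i, x t - e>`. -/
theorem Zero_eq {i : ι} (hi : dv a e i = 0) (p : Ek k) : dv a p i = inner ℝ (a i) (p - e) := by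
  have h1 : 1 + inner ℝ (a i) e = 0 := hi
  rw [inner_sub_right, dv]
  linear_combination h1

theorem Ray.dist_pos (h : Ray a (Set.Ici 0) x y z q m) {i : ι} (hi : dv a e i = 0)
    {t : ℝ} (ht : 0 ≤ t) : 0 < ‖x t - e‖ := by
  rw [norm_pos_iff]
  intro h0
  have h1 := h.pos t ht i
  rw [Zero_eq hi, h0, inner_zero_right] at h1
  exact lt_irrefl _ h1

theorem Ray.d_le (h : Ray a (Set.Ici 0) x y z q m) {i : ι} (hi : dv a e i = 0) {t : ℝ} :
    dv a (x t) i ≤ ‖a i‖ * ‖x t - e‖ := by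
  have _ := h
  rw [Zero_eq hi]
  exact real_inner_le_norm _ _

end Pool.Agent.Lib.MP_3248c9_gt.Pn
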